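import Pool.Agent.Lib.MP_c91b70_al.GraphProd

/-!
# The amalgam decomposition of a graph product

For a vertex `v` the graph product is the amalgam of `par {v}ᶜ` and `par (st v)` over `par (lk v)`.
We only record the consequence for alternating products.
-/

set_option autoImplicit false

namespace Pool.Agent.Lib.MP_c91b70_al

open Monoid

section Alt

variable {P : Type} [Group P]

/-- `Alt Q C b x`: `x` is an alternating product of elements of `Q b \ C`, `Q !b \ C`, … -/
inductive Alt (Q : Bool → Subgroup P) (C : Subgroup P) : Bool → P → Prop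
  | single (b : Bool) (x : P) : x ∈ Q b → x ∉ C → Alt Q C b x
  | cons (b : Bool) (x y : P) : x ∈ Q b → x ∉ C → Alt Q C (!b) y → Alt Q C b (x * y)

variable {Q : Bool → Subgroup P} {C : Subgroup P} (hC : ∀ b, C ≤ Q b)

/-- The inclusions. -/
def incl (b : Bool) : C →* Q b := Subgroup.inclusion (hC b)

theorem incl_inj (b : Bool) : Function.Injective (incl hC b) := Subgroup.inclusion_injective _

theorem Alt.exists_word {ψ : P →* PushoutI (incl hC)}
    (hψ : ∀ b (x : Q b), ψ x = PushoutI.of (φ := incl hC) b x) {b : Bool} {x : P}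
    (h : Alt Q C b x) :
    ∃ w : CoprodI.Word (fun b => Q b), PushoutI.Reduced (incl hC) w ∧ w.fstIdx = some b ∧
      ψ x = PushoutI.ofCoprodI w.prod := by
  induction h with
  | single b x hx hxC =>
    have h1 : (⟨x, hx⟩ : Q b) ≠ 1 := by
      intro h
      apply hxC
      have := congrArg Subtype.val h
      simp only [Subgroup.coe_one] at this
      rw [this]; exact one_mem _
    refine ⟨CoprodI.Word.cons ⟨x, hx⟩ CoprodI.Word.empty (by simp [CoprodI.Word.fstIdx]) h1,
      ?_, by simp, ?_⟩
    · intro g hg
      simp only [CoprodI.Word.cons_toList, CoprodI.Word.empty_toList, List.mem_singleton] at hg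
      subst hg
      rintro ⟨c, hc⟩
      apply hxC
      have := congrArg Subtype.val hc
      simp only [incl, Subgroup.coe_inclusion] at this
      rw [← this]; exact c.2
    · rw [CoprodI.Word.prod_cons, CoprodI.Word.prod_empty, mul_one, PushoutI.ofCoprodI_of]
      exact hψ b ⟨x, hx⟩
  | cons b x y hx hxC _ ih =>
    obtain ⟨w, hw, hw1, hw2⟩ := ih
    have h1 : (⟨x, hx⟩ : Q b) ≠ 1 := by
      intro h
      apply hxC
      have := congrArg Subtype.val h
      simp only [Subgroup.coe_one] at this
      rw [this]; exact one_mem _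
    refine ⟨CoprodI.Word.cons ⟨x, hx⟩ w (by rw [hw1]; cases b <;> simp) h1, ?_, by simp, ?_⟩
    · intro g hg
      simp only [CoprodI.Word.cons_toList, List.mem_cons] at hg
      rcases hg with rfl | hg
      · rintro ⟨c, hc⟩
        apply hxC
        have := congrArg Subtype.val hc
        simp only [incl, Subgroup.coe_inclusion] at this
        rw [← this]; exact c.2
      · exact hw g hg
    · rw [CoprodI.Word.prod_cons, map_mul, map_mul, PushoutI.ofCoprodI_of, hw2]
      rw [← hψ b ⟨x, hx⟩]

theorem Alt.not_mem_base {ψ : P →* PushoutI (incl hC)}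
    (hψ : ∀ b (x : Q b), ψ x = PushoutI.of (φ := incl hC) b x) {b : Bool} {x : P}
    (h : Alt Q C b x) : x ∉ C := by
  intro hx
  obtain ⟨w, hw, hw1, hw2⟩ := h.exists_word hC hψ
  have h2 : PushoutI.ofCoprodI w.prod ∈ (PushoutI.base (incl hC)).range := by
    refine ⟨⟨x, hx⟩, ?_⟩
    rw [← hw2, ← PushoutI.of_apply_eq_base (incl hC) b ⟨x, hx⟩]
    exact (hψ b _).symm
  have h3 := hw.eq_empty_of_mem_range (incl_inj hC) h2
  rw [h3] at hw1
  simp [CoprodI.Word.fstIdx] at hw1

/-- An alternating product starting in `Q b` is not in `Q !b`. -/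
theorem Alt.not_mem {ψ : P →* PushoutI (incl hC)}
    (hψ : ∀ b (x : Q b), ψ x = PushoutI.of (φ := incl hC) b x) {b : Bool} {x : P}
    (h : Alt Q C b x) : x ∉ Q (!b) := by
  intro hx
  have hxC : x ∉ C := h.not_mem_base hC hψ
  have h2 : Alt Q C (!b) (x⁻¹ * x) := by
    refine Alt.cons (!b) x⁻¹ x (inv_mem hx) (fun h => hxC (by simpa using inv_mem h)) ?_
    simpa using h
  apply h2.not_mem_base hC hψ
  simp

end Alt

namespace GraphProd

variable {V : Type} {Δ : SimpleGraph V} {G : V → Type} [∀ v, Group (G v)]
  {P : Type} [Group P] (D : GraphProd Δ G P)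

/-- The two factors: `false ↦ par {v}ᶜ`, `true ↦ par (st v)`. -/
def fac (v : V) (b : Bool) : Subgroup P := D.par (if b then st Δ v else {v}ᶜ)

theorem fac_false (v : V) : D.fac v false = D.par {v}ᶜ := rfl
theorem fac_true (v : V) : D.fac v true = D.par (st Δ v) := rfl

theorem lk_le_fac (v : V) (b : Bool) : D.par (lk Δ v) ≤ D.fac v b := by
  cases b
  · apply D.par_mono
    rintro w hw (h : w = v)
    subst h
    exact not_mem_lk _ hw
  · apply D.par_mono
    exact Set.subset_insert _ _

theorem fac_inf (v : V) : D.fac v false ⊓ D.fac v true = D.par (lk Δ v) := by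
  rw [fac_false, fac_true, par_inf]
  congr 1
  ext w
  simp only [Set.mem_inter_iff, Set.mem_compl_iff, Set.mem_singleton_iff, st, Set.mem_insert_iff]
  constructor
  · rintro ⟨h1, h2 | h2⟩
    · exact absurd h2 h1
    · exact h2
  · intro h
    refine ⟨?_, Or.inr h⟩
    rintro rfl
    exact not_mem_lk _ h

theorem fac_sup (v : V) : D.fac v false ⊔ D.fac v true = ⊤ := by
  rw [eq_top_iff, ← D.gen]
  refine iSup_le ?_
  intro w
  by_cases h : w = v
  · subst h
    refine le_sup_of_le_right ?_
    rintro _ ⟨g, rfl⟩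
    exact D.of_mem_par (Set.mem_insert _ _) g
  · refine le_sup_of_le_left ?_
    rintro _ ⟨g, rfl⟩
    exact D.of_mem_par h g

/-- The homomorphisms defining the inverse map to the pushout. -/
noncomputable def psiAux (v w : V) : G w →* PushoutI (incl (D.lk_le_fac v)) := by
  classical
  exact if h : w = v then
    (PushoutI.of (φ := incl (D.lk_le_fac v)) true).comp
      ((D.of w).codRestrict (D.fac v true) (fun g => D.of_mem_par (Or.inl h) g))
  else
    (PushoutI.of (φ := incl (D.lk_le_fac v)) false).comp
      ((D.of w).codRestrict (D.fac v false) (fun g => D.of_mem_par h g))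

theorem psiAux_eq (v w : V) (b : Bool) (g : G w) (h : D.of w g ∈ D.fac v b)
    (hw : w ∈ (if b then st Δ v else ({v}ᶜ : Set V))) :
    D.psiAux v w g = PushoutI.of (φ := incl (D.lk_le_fac v)) b ⟨D.of w g, h⟩ := by
  unfold psiAux
  cases b
  · have hne : ¬ w = v := by simpa using hw
    rw [dif_neg hne]
    rfl
  · have hw' : w ∈ st Δ v := by simpa using hw
    by_cases h' : w = v
    · rw [dif_pos h']
      rfl
    · rw [dif_neg h']
      have hlk : w ∈ lk Δ v := by
        rcases hw' with h1 | h1
        · exact absurd h1 h'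
        · exact h1
      have e1 := PushoutI.of_apply_eq_base (incl (D.lk_le_fac v)) false
        ⟨D.of w g, D.of_mem_par hlk g⟩
      have e2 := PushoutI.of_apply_eq_base (incl (D.lk_le_fac v)) true
        ⟨D.of w g, D.of_mem_par hlk g⟩
      exact e1.trans e2.symm

theorem psiAux_comm (v a b : V) (hab : Δ.Adj a b) (g : G a) (h : G b) :
    Commute (D.psiAux v a g) (D.psiAux v b h) := by
  have key : ∀ β : Bool, a ∈ (if β then st Δ v else ({v}ᶜ : Set V)) →
      b ∈ (if β then st Δ v else ({v}ᶜ : Set V)) →
      Commute (D.psiAux v a g) (D.psiAux v b h) := by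
    intro β ha hb
    rw [D.psiAux_eq v a β g (D.of_mem_par ha g) ha, D.psiAux_eq v b β h (D.of_mem_par hb h) hb]
    have : Commute (⟨D.of a g, D.of_mem_par ha g⟩ : D.fac v β) ⟨D.of b h, D.of_mem_par hb h⟩ := by
      apply Subtype.ext
      exact (D.comm hab g h).eq
    exact this.map _
  by_cases ha : a = v
  · subst ha
    apply key true
    · simp [st]
    · simp only [if_true]; exact Or.inr hab
  · by_cases hb : b = v
    · subst hb
      apply key true
      · simp only [if_true]; exact Or.inr hab.symm
      · simp [st]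
    · apply key false <;> simpa

/-- The map to the pushout. -/
noncomputable def psi (v : V) : P →* PushoutI (incl (D.lk_le_fac v)) :=
  D.lift (fun w => D.psiAux v w) (D.psiAux_comm v)

theorem psi_eq (v : V) (b : Bool) (x : D.fac v b) :
    D.psi v x = PushoutI.of (φ := incl (D.lk_le_fac v)) b x := by
  have key : D.fac v b ≤ ((((D.psi v).comp (D.fac v b).subtype).eqLocus
      (PushoutI.of (φ := incl (D.lk_le_fac v)) b)).map (D.fac v b).subtype) := by
    apply D.par_le
    intro w hw g
    refine ⟨⟨D.of w g, D.of_mem_par hw g⟩, ?_, rfl⟩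
    change D.psi v (D.of w g) = _
    unfold psi
    rw [D.lift_of]
    exact D.psiAux_eq v w b g _ hw
  obtain ⟨y, hy, hyx⟩ := key x.2
  have : y = x := Subtype.ext hyx
  subst this
  exact hy

theorem alt_not_mem (v : V) {b : Bool} {x : P} (h : Alt (D.fac v) (D.par (lk Δ v)) b x) :
    x ∉ D.fac v (!b) :=
  h.not_mem (D.lk_le_fac v) (D.psi_eq v)

end GraphProd

end Pool.Agent.Lib.MP_c91b70_al
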