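import Mathlib

/-!
# Groups acting on trees, metrically

`TreeMetric d` : an integer valued, geodesic, 0-hyperbolic metric.  For isometric actions with even
displacements we prove Serre's lemma, common fixed points of commuting elliptic subgroups, and the
translation homomorphism on the centraliser of a hyperbolic element.
-/

set_option autoImplicit false
set_option linter.unusedSectionVars false

namespace Pool.Agent.Lib.MP_c91b70_al

/-- An integer valued geodesic 0-hyperbolic metric. -/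
structure TreeMetric {Y : Type} (d : Y → Y → ℕ) : Prop where
  self : ∀ x, d x x = 0
  eq_of_zero : ∀ x y, d x y = 0 → x = y
  symm : ∀ x y, d x y = d y x
  tri : ∀ x y z, d x z ≤ d x y + d y z
  geod : ∀ x y k, k ≤ d x y → ∃ z, d x z = k ∧ d z y + k = d x y
  four : ∀ x y z w, d x y + d z w ≤ max (d x z + d y w) (d x w + d y z)
  adj : ∀ x y y', d y y' = 1 → d x y = d x y' + 1 ∨ d x y' = d x y + 1

namespace TreeMetric

variable {Y : Type} {d : Y → Y → ℕ} (T : TreeMetric d)

include T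

theorem uniq {x y z z' : Y} (h1 : d x z + d z y = d x y) (h2 : d x z' + d z' y = d x y)
    (h3 : d x z = d x z') : z = z' := by
  apply T.eq_of_zero
  have h4 := T.four x y z z'
  have s1 := T.symm y z'
  have s2 := T.symm y z
  have : max (d x z + d y z') (d x z' + d y z) = d x y := by
    rw [max_eq_left] <;> omega
  omega

/-- A geodesic between points on different sides of an edge contains the edge. -/
theorem cross {p q z z' : Y} (hpq : d p q = 1) (hz : d z q = d z p + 1)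
    (hz' : d z' p = d z' q + 1) :
    d z p + d p z' = d z z' ∧ d z q + d q z' = d z z' := by
  have h1 := T.four z q z' p
  have s1 := T.symm q p
  have s2 := T.symm p z'
  have s3 := T.symm q z'
  have t1 := T.tri z p z'
  have t2 := T.tri z q z'
  omega

variable {G : Type} [Group G] [MulAction G Y] (hd : ∀ (g : G) x y, d (g • x) (g • y) = d x y)
  (he : ∀ (g : G) x, Even (d x (g • x)))

include hd

theorem convex {x y z : Y} (h1 : d x z + d z y = d x y) (g : G) (hx : g • x = x)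
    (hy : g • y = y) : g • z = z := by
  have e1 : d x (g • z) = d x z := by conv_lhs => rw [← hx]; exact hd g x z
  have e2 : d (g • z) y = d z y := by
    conv_lhs => rw [← hy]
    exact hd g z y
  exact T.uniq (by omega) h1 (by omega)

/-- An edge at `x` pointing to `y`. -/
theorem exists_edge {x y : Y} (hxy : x ≠ y) :
    ∃ z, d x z = 1 ∧ ∀ g : G, g • x = x → g • y = y → g • z = z := by
  have h0 : d x y ≠ 0 := fun h => hxy (T.eq_of_zero _ _ h)
  obtain ⟨z, hz1, hz2⟩ := T.geod x y 1 (by omega)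
  refine ⟨z, hz1, fun g hx hy => T.convex hd (by omega) g hx hy⟩

theorem fixed_mid {g : G} {q r m : Y} (hr : g • r = r) (h1 : d q m + d m (g • q) = d q (g • q))
    (h2 : d q m = d m (g • q)) : g • m = m := by
  have e1 : d (g • q) r = d q r := by
    conv_lhs => rw [← hr]
    exact hd g q r
  have e2 : d (g • q) (g • m) = d q m := hd g q m
  have e3 : d (g • m) r = d m r := by
    conv_lhs => rw [← hr]
    exact hd g m r
  have s1 := T.symm m (g • q)
  have h4 := T.four q (g • q) m r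
  have h5 : max (d q m + d (g • q) r) (d q r + d (g • q) m) = d q m + d q r := by
    rw [max_eq_left] <;> omega
  have h6 := T.tri q m r
  exact T.uniq (x := g • q) (y := r) (by omega) (by omega) (by omega)

include he

theorem exists_mid (g : G) (q : Y) :
    ∃ m, d q m + d m (g • q) = d q (g • q) ∧ d q m = d m (g • q) := by
  obtain ⟨k, hk⟩ := he g q
  obtain ⟨m, hm1, hm2⟩ := T.geod q (g • q) k (by omega)
  exact ⟨m, by omega, by omega⟩

theorem serre_step (K : Subgroup G) (p : Y) (hp : ∀ k ∈ K, k • p = p) (g : G)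
    (h : ∀ k ∈ K, ∃ y : Y, (g * k) • y = y) :
    ∃ m : Y, g • m = m ∧ ∀ k ∈ K, k • m = m := by
  obtain ⟨m, hm1, hm2⟩ := T.exists_mid hd he g p
  have hall : ∀ k ∈ K, (g * k) • m = m := by
    intro k hk
    obtain ⟨y, hy⟩ := h k hk
    have e : (g * k) • p = g • p := by rw [mul_smul, hp k hk]
    exact T.fixed_mid hd hy (by rw [e]; exact hm1) (by rw [e]; exact hm2)
  have hg : g • m = m := by
    have := hall 1 (one_mem _)
    simpa using this
  refine ⟨m, hg, fun k hk => ?_⟩
  have h1 := hall k hk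
  rw [mul_smul] at h1
  conv_rhs at h1 => rw [← hg]
  exact (MulAction.injective g) h1

theorem serre_finset (s : Finset G) (h : ∀ k ∈ Subgroup.closure (s : Set G), ∃ y : Y, k • y = y) :
    ∃ y : Y, ∀ k ∈ Subgroup.closure (s : Set G), k • y = y := by
  classical
  induction s using Finset.induction_on with
  | empty =>
    obtain ⟨y, -⟩ := h 1 (one_mem _)
    refine ⟨y, fun k hk => ?_⟩
    simp only [Finset.coe_empty, Subgroup.closure_empty, Subgroup.mem_bot] at hk
    rw [hk, one_smul]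
  | insert g s _ ih =>
    have hsub : Subgroup.closure (s : Set G) ≤ Subgroup.closure ((insert g s : Finset G) : Set G) :=
      Subgroup.closure_mono (by simp)
    obtain ⟨p, hp⟩ := ih (fun k hk => h k (hsub hk))
    have hg : g ∈ Subgroup.closure ((insert g s : Finset G) : Set G) :=
      Subgroup.subset_closure (by simp)
    obtain ⟨m, hm1, hm2⟩ := T.serre_step hd he _ p hp g
      (fun k hk => h _ (mul_mem hg (hsub hk)))
    refine ⟨m, ?_⟩
    have hle : Subgroup.closure ((insert g s : Finset G) : Set G) ≤ MulAction.stabilizer G m := by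
      rw [Subgroup.closure_le]
      intro k hk
      simp only [Finset.coe_insert, Set.mem_insert_iff, Finset.mem_coe] at hk
      rcases hk with rfl | hk
      · exact hm1
      · exact hm2 k (Subgroup.subset_closure hk)
    intro k hk
    exact hle hk

/-- Serre's lemma: a finitely generated group of elliptic elements has a fixed point. -/
theorem serre (K : Subgroup G) (hK : K.FG) (h : ∀ k ∈ K, ∃ y : Y, k • y = y) :
    ∃ y : Y, ∀ k ∈ K, k • y = y := by
  obtain ⟨s, rfl⟩ := hK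
  exact T.serre_finset hd he s h

/-- Commuting elliptic subgroups have a common fixed point. -/
theorem common_fixed (K K' : Subgroup G) (hc : ∀ k ∈ K, ∀ k' ∈ K', Commute k k')
    (h : ∃ y : Y, ∀ k ∈ K, k • y = y) (h' : ∃ y : Y, ∀ k ∈ K', k • y = y) :
    ∃ y : Y, (∀ k ∈ K, k • y = y) ∧ ∀ k ∈ K', k • y = y := by
  classical
  obtain ⟨q, hq⟩ := h'
  have hex : ∃ n, ∃ y : Y, (∀ k ∈ K, k • y = y) ∧ d y q = n := by
    obtain ⟨y, hy⟩ := h
    exact ⟨_, y, hy, rfl⟩
  obtain ⟨p, hp, hpn⟩ := Nat.find_spec hex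
  have hmin : ∀ y : Y, (∀ k ∈ K, k • y = y) → d p q ≤ d y q := by
    intro y hy
    rw [hpn]
    exact Nat.find_min' hex ⟨y, hy, rfl⟩
  refine ⟨p, hp, fun k' hk' => ?_⟩
  have hkp : ∀ k ∈ K, k • (k' • p) = k' • p := by
    intro k hk
    rw [← mul_smul, (hc k hk k' hk').eq, mul_smul, hp k hk]
  obtain ⟨m, hm1, hm2⟩ := T.exists_mid hd he k' p
  have hm : ∀ k ∈ K, k • m = m := fun k hk => T.convex hd hm1 k (hp k hk) (hkp k hk)
  have h1 := hmin m hm
  have h2 := T.four p (k' • p) m q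
  have e1 : d (k' • p) q = d p q := by
    conv_lhs => rw [← hq k' hk']
    exact hd _ _ _
  have s1 := T.symm m (k' • p)
  have h3 : max (d p m + d (k' • p) q) (d p q + d (k' • p) m) = d p m + d p q := by
    rw [max_eq_left] <;> omega
  have h4 : d p (k' • p) = 0 := by omega
  exact (T.eq_of_zero _ _ h4).symm

omit he in
theorem pow_dist {x : G} {ℓ : ℕ} (hℓ : 0 < ℓ) {q : Y} (h1 : d q (x • q) = ℓ)
    (h2 : d q ((x ^ 2) • q) = 2 * ℓ) (n : ℕ) : d q ((x ^ n) • q) = n * ℓ := by
  have key : ∀ n : ℕ, d q ((x ^ n) • q) = n * ℓ ∧ d q ((x ^ (n + 1)) • q) = (n + 1) * ℓ := by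
    intro n
    induction n with
    | zero => simp [T.self, h1]
    | succ n ih =>
      obtain ⟨ih1, ih2⟩ := ih
      refine ⟨ih2, ?_⟩
      rcases Nat.eq_zero_or_pos n with rfl | hn
      · simpa using h2
      have hf := T.four q ((x ^ (n + 1)) • q) (x • q) ((x ^ (n + 2)) • q)
      have e1 : d (x • q) ((x ^ (n + 2)) • q) = (n + 1) * ℓ := by
        have : (x ^ (n + 2)) • q = x • ((x ^ (n + 1)) • q) := by
          rw [← mul_smul, ← pow_succ']
        rw [this, hd, ih2]
      have e2 : d ((x ^ (n + 1)) • q) ((x ^ (n + 2)) • q) = ℓ := by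
        have : (x ^ (n + 2)) • q = (x ^ (n + 1)) • (x • q) := by
          rw [← mul_smul, ← pow_succ]
        rw [this, hd, h1]
      have e3 : d ((x ^ (n + 1)) • q) (x • q) = n * ℓ := by
        have : (x ^ (n + 1)) • q = x • ((x ^ n) • q) := by
          rw [← mul_smul, ← pow_succ']
        rw [this, hd, T.symm, ih1]
      have e4 := T.tri q ((x ^ (n + 1)) • q) ((x ^ (n + 2)) • q)
      rw [e1, e2, e3, ih2, h1] at hf
      rw [ih2, e2] at e4
      have hℓn : ℓ ≤ n * ℓ := Nat.le_mul_of_pos_left ℓ hn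
      have x1 : (n + 1) * ℓ = n * ℓ + ℓ := by ring
      have x2 : (n + 1 + 1) * ℓ = n * ℓ + ℓ + ℓ := by ring
      rw [x1] at hf e4
      rw [x2]
      change d q ((x ^ (n + 2)) • q) = _
      rcases le_total (ℓ + ℓ) (d q ((x ^ (n + 2)) • q) + n * ℓ) with h | h
      · rw [max_eq_right h] at hf; omega
      · rw [max_eq_left h] at hf; omega
  exact (key n).1

/-- The hyperbolic case: a minimal displacement point. -/
theorem exists_min {x : G} (hx : ∀ y : Y, x • y ≠ y) [Nonempty Y] :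
    ∃ ℓ : ℕ, 0 < ℓ ∧ (∃ p : Y, d p (x • p) = ℓ) ∧ (∀ p : Y, ℓ ≤ d p (x • p)) ∧
      ∀ p : Y, d p (x • p) = ℓ → ∀ n : ℕ, d p ((x ^ n) • p) = n * ℓ := by
  classical
  have hex : ∃ n, ∃ y : Y, d y (x • y) = n := ⟨_, Classical.arbitrary Y, rfl⟩
  refine ⟨Nat.find hex, ?_, Nat.find_spec hex, fun p => Nat.find_min' hex ⟨p, rfl⟩, ?_⟩
  · obtain ⟨y, hy⟩ := Nat.find_spec hex
    rw [← hy]
    apply Nat.pos_of_ne_zero
    intro h
    exact hx y (T.eq_of_zero _ _ h).symm
  · intro p hp
    set ℓ := Nat.find hex with hℓ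
    have hpos : 0 < ℓ := by
      obtain ⟨y, hy⟩ := Nat.find_spec hex
      rw [hℓ, ← hy]
      apply Nat.pos_of_ne_zero
      intro h
      exact hx y (T.eq_of_zero _ _ h).symm
    have hmin : ∀ p : Y, ℓ ≤ d p (x • p) := fun p => Nat.find_min' hex ⟨p, rfl⟩
    apply T.pow_dist hd hpos hp
    obtain ⟨m, hm1, hm2⟩ := T.exists_mid hd he x p
    have e0 : (x ^ 2) • p = x • (x • p) := by rw [pow_two, mul_smul]
    have e1 : d (x • p) ((x ^ 2) • p) = ℓ := by rw [e0, hd, hp]
    have e2 : d (x • p) (x • m) = d p m := hd _ _ _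
    have e3 : d (x • m) ((x ^ 2) • p) = d m (x • p) := by rw [e0, hd]
    have h1 := T.tri p (x • p) ((x ^ 2) • p)
    by_contra hne
    have h2 : d p ((x ^ 2) • p) < 2 * ℓ := by omega
    have f1 := T.four m ((x ^ 2) • p) (x • p) p
    have f2 := T.four m (x • m) (x • p) ((x ^ 2) • p)
    have h3 := hmin m
    have s1 := T.symm ((x ^ 2) • p) p
    have s2 := T.symm ((x ^ 2) • p) (x • p)
    have s3 := T.symm (x • p) p
    have s4 := T.symm m p
    have s5 := T.symm (x • m) (x • p)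
    have s6 := T.symm (x • p) ((x ^ 2) • p)
    omega

section Axis

variable {x : G} {ℓ : ℕ} (hℓ : 0 < ℓ)
  (hpow : ∀ p : Y, d p (x • p) = ℓ → ∀ n : ℕ, d p ((x ^ n) • p) = n * ℓ)

omit he T in
include hd in
theorem dist_shift (q q' : Y) (n m : ℕ) :
    d ((x ^ m) • q) ((x ^ (n + m)) • q') = d q ((x ^ n) • q') := by
  have : (x ^ (n + m)) • q' = (x ^ m) • ((x ^ n) • q') := by
    rw [← mul_smul, ← pow_add, add_comm]
  rw [this, hd]

include hℓ hpow

omit he in
theorem axis_sum {q q' : Y} (hq : d q (x • q) = ℓ) (hq' : d q' (x • q') = ℓ) {n : ℕ}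
    (hn : d q q' < n) :
    d q ((x ^ n) • q') + d q' ((x ^ n) • q) = 2 * (n * ℓ) := by
  have h1 := hpow q hq n
  have h2 := hpow q' hq' n
  have f1 := T.four q ((x ^ n) • q) q' ((x ^ n) • q')
  have f2 := T.four q ((x ^ n) • q') q' ((x ^ n) • q)
  have e1 : d ((x ^ n) • q) ((x ^ n) • q') = d q q' := hd _ _ _
  have e2 : d ((x ^ n) • q') ((x ^ n) • q) = d q q' := by rw [hd, T.symm]
  have s1 := T.symm ((x ^ n) • q) q'
  have s2 := T.symm ((x ^ n) • q') q'
  have hnl : n ≤ n * ℓ := Nat.le_mul_of_pos_right n hℓ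
  generalize n * ℓ = N at *
  omega

omit he in
theorem axis_stable {q q' : Y} (hq : d q (x • q) = ℓ) (hq' : d q' (x • q') = ℓ) {n : ℕ}
    (hn : d q q' < n) :
    d q ((x ^ (n + 1)) • q') = d q ((x ^ n) • q') + ℓ := by
  have a1 := T.axis_sum hd hℓ hpow hq hq' hn
  have a2 := T.axis_sum hd hℓ hpow hq hq' (n := n + 1) (by omega)
  have t1 : d q ((x ^ (n + 1)) • q') ≤ d q ((x ^ n) • q') + ℓ := by
    have := T.tri q ((x ^ n) • q') ((x ^ (n + 1)) • q')
    have e : d ((x ^ n) • q') ((x ^ (n + 1)) • q') = ℓ := by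
      rw [add_comm n 1, dist_shift hd, pow_one, hq']
    omega
  have t2 : d q' ((x ^ (n + 1)) • q) ≤ d q' ((x ^ n) • q) + ℓ := by
    have := T.tri q' ((x ^ n) • q) ((x ^ (n + 1)) • q)
    have e : d ((x ^ n) • q) ((x ^ (n + 1)) • q) = ℓ := by
      rw [add_comm n 1, dist_shift hd, pow_one, hq]
    omega
  have x1 : (n + 1) * ℓ = n * ℓ + ℓ := by ring
  rw [x1] at a2
  generalize n * ℓ = N at *
  omega

end Axis

omit hd he T in
/-- The signed distance along the axis. -/
noncomputable def sdist (d : Y → Y → ℕ) (x : G) (ℓ : ℕ) (q q' : Y) : ℤ :=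
  (d q ((x ^ (d q q' + 1)) • q') : ℤ) - ((d q q' + 1 : ℕ) : ℤ) * ℓ

section Axis2

variable {x : G} {ℓ : ℕ} (hℓ : 0 < ℓ)
  (hpow : ∀ p : Y, d p (x • p) = ℓ → ∀ n : ℕ, d p ((x ^ n) • p) = n * ℓ)

include hℓ hpow

omit he in
theorem sdist_spec {q q' : Y} (hq : d q (x • q) = ℓ) (hq' : d q' (x • q') = ℓ) {n : ℕ}
    (hn : d q q' < n) :
    (d q ((x ^ n) • q') : ℤ) = n * ℓ + sdist d x ℓ q q' := by
  obtain ⟨m, rfl⟩ := Nat.exists_eq_add_of_le (Nat.succ_le_of_lt hn)
  clear hn
  induction m with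
  | zero => simp [sdist]
  | succ m ih =>
    have := T.axis_stable hd hℓ hpow hq hq' (n := (d q q').succ + m) (by omega)
    rw [← add_assoc, this]
    push_cast at ih ⊢
    rw [ih]; ring

omit he in
theorem sdist_antisymm {q q' : Y} (hq : d q (x • q) = ℓ) (hq' : d q' (x • q') = ℓ) :
    sdist d x ℓ q' q = - sdist d x ℓ q q' := by
  have h1 := T.sdist_spec hd hℓ hpow hq hq' (n := d q q' + 1) (by omega)
  have h2 := T.sdist_spec hd hℓ hpow hq' hq (n := d q q' + 1) (by rw [T.symm]; omega)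
  have h3 := T.axis_sum hd hℓ hpow hq hq' (n := d q q' + 1) (by omega)
  have h4 : (d q ((x ^ (d q q' + 1)) • q') : ℤ) + d q' ((x ^ (d q q' + 1)) • q)
      = 2 * (((d q q' + 1 : ℕ) : ℤ) * ℓ) := by exact_mod_cast h3
  linarith

omit he in
theorem sdist_add_le {q q' q'' : Y} (hq : d q (x • q) = ℓ) (hq' : d q' (x • q') = ℓ)
    (hq'' : d q'' (x • q'') = ℓ) :
    sdist d x ℓ q q'' ≤ sdist d x ℓ q q' + sdist d x ℓ q' q'' := by
  let n := d q q' + d q' q'' + d q q'' + 1
  have h1 := T.sdist_spec hd hℓ hpow hq hq' (n := n) (by omega)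
  have h2 := T.sdist_spec hd hℓ hpow hq' hq'' (n := n) (by omega)
  have h3 := T.sdist_spec hd hℓ hpow hq hq'' (n := n + n) (by omega)
  have h4 := T.tri q ((x ^ n) • q') ((x ^ (n + n)) • q'')
  rw [dist_shift hd] at h4
  have h5 : (d q ((x ^ (n + n)) • q'') : ℤ) ≤ d q ((x ^ n) • q') + d q' ((x ^ n) • q'') := by
    exact_mod_cast h4
  rw [h1, h2, h3] at h5
  push_cast at h5
  linarith

omit he in
theorem sdist_add {q q' q'' : Y} (hq : d q (x • q) = ℓ) (hq' : d q' (x • q') = ℓ)
    (hq'' : d q'' (x • q'') = ℓ) :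
    sdist d x ℓ q q'' = sdist d x ℓ q q' + sdist d x ℓ q' q'' := by
  apply le_antisymm (T.sdist_add_le hd hℓ hpow hq hq' hq'')
  have h := T.sdist_add_le hd hℓ hpow hq'' hq' hq
  rw [T.sdist_antisymm hd hℓ hpow hq hq'', T.sdist_antisymm hd hℓ hpow hq' hq'',
    T.sdist_antisymm hd hℓ hpow hq hq'] at h
  linarith

omit he hℓ hpow T in
theorem sdist_comm {k : G} (hk : Commute k x) (q q' : Y) :
    sdist d x ℓ (k • q) (k • q') = sdist d x ℓ q q' := by
  unfold sdist
  have e : (x ^ (d q q' + 1)) • (k • q') = k • ((x ^ (d q q' + 1)) • q') := by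
    rw [← mul_smul, ← mul_smul, (hk.pow_right _).eq]
  rw [hd, e, hd]

omit he in
theorem eq_of_sdist {q q' : Y} (hq : d q (x • q) = ℓ) (hq' : d q' (x • q') = ℓ)
    (h0 : sdist d x ℓ q q' = 0) : q = q' := by
  let n := d q q' + 1
  have h1 := T.sdist_spec hd hℓ hpow hq hq' (n := n) (by omega)
  have h2 := T.sdist_spec hd hℓ hpow hq' hq (n := n) (by rw [T.symm]; omega)
  rw [T.sdist_antisymm hd hℓ hpow hq hq', h0] at h2
  rw [h0] at h1
  have h1' : d q ((x ^ n) • q') = n * ℓ := by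
    have : (d q ((x ^ n) • q') : ℤ) = ((n * ℓ : ℕ) : ℤ) := by rw [h1]; push_cast; ring
    exact_mod_cast this
  have h2' : d q' ((x ^ n) • q) = n * ℓ := by
    have : (d q' ((x ^ n) • q) : ℤ) = ((n * ℓ : ℕ) : ℤ) := by rw [h2]; push_cast; ring
    exact_mod_cast this
  -- compare on the geodesic from `q` to `x^(2n) q`
  have h3 := hpow q hq (n + n)
  have h4 := hpow q hq n
  have e1 : d ((x ^ n) • q) ((x ^ (n + n)) • q) = n * ℓ := by rw [dist_shift hd, h4]
  have e2 : d ((x ^ n) • q') ((x ^ (n + n)) • q) = n * ℓ := by rw [dist_shift hd, h2']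
  have h5 : (x ^ n) • q = (x ^ n) • q' := by
    apply T.uniq (x := q) (y := (x ^ (n + n)) • q)
    · rw [h4, e1, h3]; ring
    · rw [h1', e2, h3]; ring
    · rw [h4, h1']
  exact MulAction.injective (x ^ n) h5

end Axis2

/-- The translation homomorphism on the centraliser of a hyperbolic element. -/
theorem hyper [Nonempty Y] {x : G} (hx : ∀ y : Y, x • y ≠ y) :
    ∃ (p z : Y) (τ : G → ℤ), d p z = 1 ∧ τ x ≠ 0 ∧
      (∀ a b, Commute a x → Commute b x → τ (a * b) = τ a + τ b) ∧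
      (∀ a, Commute a x → τ a = 0 → a • p = p ∧ a • z = z) := by
  obtain ⟨ℓ, hℓ, ⟨p, hp⟩, -, hpow⟩ := T.exists_min hd he hx
  obtain ⟨z, hz1, hz2⟩ := T.exists_edge hd (hx p).symm
  have hcomm : ∀ k : G, Commute k x → d (k • p) (x • (k • p)) = ℓ := by
    intro k hk
    rw [← mul_smul, ← hk.eq, mul_smul, hd, hp]
  have hfix : ∀ a, Commute a x → sdist d x ℓ p (a • p) = 0 → a • p = p := by
    intro a ha h0
    exact (T.eq_of_sdist hd hℓ hpow hp (hcomm a ha) h0).symm
  refine ⟨p, z, fun g => sdist d x ℓ p (g • p), hz1, ?_, ?_, ?_⟩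
  · intro h0
    exact hx p (hfix x (Commute.refl x) h0)
  · intro a b ha hb
    change sdist d x ℓ p ((a * b) • p) = _
    rw [T.sdist_add hd hℓ hpow hp (hcomm a ha) (hcomm _ (ha.mul_left hb)), mul_smul,
      sdist_comm hd ha]
  · intro a ha h0
    have h1 := hfix a ha h0
    refine ⟨h1, hz2 a h1 ?_⟩
    rw [← mul_smul, ha.eq, mul_smul, h1]

omit hd he T in
theorem tau_one {x : G} {τ : G → ℤ}
    (hτ : ∀ a b, Commute a x → Commute b x → τ (a * b) = τ a + τ b) : τ 1 = 0 := by
  have := hτ 1 1 (Commute.one_left _) (Commute.one_left _)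
  simp at this
  exact this

omit hd he T in
theorem tau_inv {x : G} {τ : G → ℤ}
    (hτ : ∀ a b, Commute a x → Commute b x → τ (a * b) = τ a + τ b) {a : G}
    (ha : Commute a x) : τ a⁻¹ = - τ a := by
  have := hτ a a⁻¹ ha ha.inv_left
  rw [mul_inv_cancel, tau_one hτ] at this
  linarith

omit hd he T in
theorem tau_pow {x : G} {τ : G → ℤ}
    (hτ : ∀ a b, Commute a x → Commute b x → τ (a * b) = τ a + τ b) {a : G}
    (ha : Commute a x) (n : ℕ) : τ (a ^ n) = n * τ a := by
  induction n with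
  | zero => simp [tau_one hτ]
  | succ n ih =>
    rw [pow_succ, hτ _ _ (ha.pow_left n) ha, ih]
    push_cast; ring

omit hd he T in
theorem tau_zpow {x : G} {τ : G → ℤ}
    (hτ : ∀ a b, Commute a x → Commute b x → τ (a * b) = τ a + τ b) {a : G}
    (ha : Commute a x) (n : ℤ) : τ (a ^ n) = n * τ a := by
  obtain ⟨m, rfl | rfl⟩ := n.eq_nat_or_neg
  · rw [zpow_natCast, tau_pow hτ ha]
  · rw [zpow_neg, zpow_natCast, tau_inv hτ (ha.pow_left m), tau_pow hτ ha]
    ring

/-- Commutators in the centraliser of a hyperbolic element fix an edge. -/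
theorem hyper_comm [Nonempty Y] {x : G} (hx : ∀ y : Y, x • y ≠ y) :
    ∃ p z : Y, d p z = 1 ∧ ∀ a b, Commute a x → Commute b x →
      (a * b * a⁻¹ * b⁻¹) • p = p ∧ (a * b * a⁻¹ * b⁻¹) • z = z := by
  obtain ⟨p, z, τ, h1, -, hτ, h3⟩ := T.hyper hd he hx
  refine ⟨p, z, h1, fun a b ha hb => ?_⟩
  have hab : Commute (a * b * a⁻¹ * b⁻¹) x :=
    ((ha.mul_left hb).mul_left ha.inv_left).mul_left hb.inv_left
  apply h3 _ hab
  rw [hτ _ _ ((ha.mul_left hb).mul_left ha.inv_left) hb.inv_left,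
    hτ _ _ (ha.mul_left hb) ha.inv_left, hτ _ _ ha hb, tau_inv hτ ha, tau_inv hτ hb]
  ring

/-- Elements commuting with a hyperbolic element have a power agreeing with a power of it up to
an element fixing an edge. -/
theorem hyper_pow [Nonempty Y] {x : G} (hx : ∀ y : Y, x • y ≠ y) :
    ∃ p z : Y, d p z = 1 ∧ ∀ a, Commute a x → ∃ m n : ℤ, m ≠ 0 ∧
      (a ^ m * x ^ n) • p = p ∧ (a ^ m * x ^ n) • z = z := by
  obtain ⟨p, z, τ, h1, h2, hτ, h3⟩ := T.hyper hd he hx
  refine ⟨p, z, h1, fun a ha => ⟨τ x, - τ a, h2, ?_⟩⟩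
  have c1 : Commute (a ^ (τ x)) x := ha.zpow_left _
  have c2 : Commute (x ^ (- τ a)) x := (Commute.refl x).zpow_left _
  apply h3 _ (c1.mul_left c2)
  rw [hτ _ _ c1 c2, tau_zpow hτ ha, tau_zpow hτ (Commute.refl x)]
  ring

/-- Elements of finite order are elliptic. -/
theorem elliptic_of_pow [Nonempty Y] {x : G} {n : ℕ} (hn : n ≠ 0) (h : x ^ n = 1) :
    ∃ y : Y, x • y = y := by
  by_contra hx
  push Not at hx
  obtain ⟨p, z, τ, -, h0, hτ, -⟩ := T.hyper hd he hx
  have h3 := tau_pow hτ (Commute.refl x) n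
  rw [h, tau_one hτ] at h3
  rcases mul_eq_zero.1 h3.symm with h4 | h4
  · exact hn (by exact_mod_cast h4)
  · exact h0 h4

end TreeMetric

end Pool.Agent.Lib.MP_c91b70_al
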