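import Pool.Agent.Lib.MP_c91b70_al.Amalgam
import Pool.Agent.Lib.MP_c91b70_al.TreeMetric

/-!
# The Bass–Serre tree of an amalgam as a `TreeMetric`
-/

set_option autoImplicit false
set_option linter.unusedSectionVars false

namespace Pool.Agent.Lib.MP_c91b70_al

section GraphTree

variable {Y : Type} {T : SimpleGraph Y} (hT : T.IsTree)

include hT

theorem tree_dist_adj {x y y' : Y} (h : T.Adj y y') :
    T.dist x y = T.dist x y' + 1 ∨ T.dist x y' = T.dist x y + 1 := by
  rcases hT.dist_eq_dist_add_one_of_adj x h with h | h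
  · exact Or.inl h
  · exact Or.inr h

theorem tree_geod (x y : Y) (k : ℕ) (hk : k ≤ T.dist x y) :
    ∃ z, T.dist x z = k ∧ T.dist z y + k = T.dist x y := by
  obtain ⟨p, hp⟩ := hT.connected.exists_walk_length_eq_dist x y
  refine ⟨p.getVert k, ?_⟩
  have h1 : T.dist x (p.getVert k) ≤ k := by
    have := SimpleGraph.dist_le (p.take k)
    rw [SimpleGraph.Walk.take_length] at this
    omega
  have h2 : T.dist (p.getVert k) y ≤ T.dist x y - k := by
    have := SimpleGraph.dist_le (p.drop k)
    rw [SimpleGraph.Walk.drop_length] at this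
    omega
  have h3 := hT.connected.dist_triangle (u := x) (v := p.getVert k) (w := y)
  omega

theorem tree_parent {r y p p' : Y} (h : T.Adj p y) (h' : T.Adj p' y)
    (hd : T.dist r p + 1 = T.dist r y) (hd' : T.dist r p' + 1 = T.dist r y) : p = p' := by
  obtain ⟨w, hw⟩ := hT.connected.exists_walk_length_eq_dist r p
  obtain ⟨w', hw'⟩ := hT.connected.exists_walk_length_eq_dist r p'
  have e1 : (w.concat h).IsPath := SimpleGraph.Walk.isPath_of_length_eq_dist _ (by
    rw [SimpleGraph.Walk.length_concat]; omega)
  have e2 : (w'.concat h').IsPath := SimpleGraph.Walk.isPath_of_length_eq_dist _ (by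
    rw [SimpleGraph.Walk.length_concat]; omega)
  have h3 := (hT.isAcyclic.subsingleton_path r y).elim ⟨_, e1⟩ ⟨_, e2⟩
  have h4 : w.concat h = w'.concat h' := congrArg Subtype.val h3
  have h5 : (w.concat h).penultimate = (w'.concat h').penultimate := by rw [h4]
  simpa using h5

theorem tree_sep {x z z' : Y} (hzz : T.Adj z' z) (h1 : T.dist x z = T.dist x z' + 1) (n : ℕ) :
    ∀ y, T.dist z y = n → T.dist y z' = T.dist y z + 1 → T.dist x y = T.dist x z + T.dist z y := by
  have hc := hT.connected
  have hone : ∀ {a b : Y}, T.dist a b = 1 → T.Adj a b := fun h => SimpleGraph.dist_eq_one_iff_adj.1 h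
  have hz : T.dist z z' = 1 := SimpleGraph.dist_eq_one_iff_adj.2 hzz.symm
  induction n using Nat.strong_induction_on with
  | _ n ih =>
    intro y hy h2
    rcases Nat.eq_zero_or_pos n with rfl | hn
    · rw [hc.dist_eq_zero_iff] at hy
      subst hy
      simp
    -- a neighbour of `y` on the way to `z`
    have step : ∀ y m, 0 < m → T.dist z y = m → T.dist y z' = T.dist y z + 1 →
        ∃ y', T.Adj y' y ∧ T.dist z y' = m - 1 ∧ T.dist y' z' = T.dist y' z + 1 := by
      intro y m hm hy h2
      obtain ⟨y', hy1, hy2⟩ := tree_geod hT z y (m - 1) (by omega)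
      have hadj : T.dist y' y = 1 := by omega
      refine ⟨y', hone hadj, hy1, ?_⟩
      have t1 := hc.dist_triangle (u := y) (v := y') (w := z')
      have t2 := hc.dist_triangle (u := y') (v := z) (w := z')
      have s1 := SimpleGraph.dist_comm (G := T) (u := y) (v := y')
      have s2 := SimpleGraph.dist_comm (G := T) (u := y) (v := z)
      have s3 := SimpleGraph.dist_comm (G := T) (u := y') (v := z)
      omega
    obtain ⟨y', hadj, hy1, hy2⟩ := step y n hn hy h2
    have e1 := ih (n - 1) (by omega) y' hy1 hy2
    rcases tree_dist_adj hT (x := x) hadj with h3 | h3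
    · -- `y` is closer to `x` than `y'`
      exfalso
      by_cases hn1 : n = 1
      · subst hn1
        have : z = y' := hc.dist_eq_zero_iff.1 (by simpa using hy1)
        subst this
        have : z' = y := tree_parent hT (r := x) hzz hadj.symm h1.symm (by omega)
        subst this
        simp at h2
      · obtain ⟨y'', hadj', hy3, hy4⟩ := step y' (n - 1) (by omega) hy1 hy2
        have e2 := ih (n - 1 - 1) (by omega) y'' hy3 hy4
        have : y'' = y := tree_parent hT (r := x) hadj' hadj.symm (by omega) (by omega)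
        subst this
        omega
    · omega

theorem treeMetric_of_isTree : TreeMetric (T.dist) := by
  have hc := hT.connected
  refine ⟨fun x => SimpleGraph.dist_self, fun x y h => hc.dist_eq_zero_iff.1 h,
    fun x y => SimpleGraph.dist_comm, fun x y z => hc.dist_triangle, tree_geod hT, ?_,
    fun x y y' h => tree_dist_adj hT (SimpleGraph.dist_eq_one_iff_adj.1 h)⟩
  intro x y z w
  generalize hn : T.dist z w = n
  induction n generalizing z with
  | zero =>
    rw [hc.dist_eq_zero_iff] at hn
    subst hn
    have := hc.dist_triangle (u := x) (v := z) (w := y)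
    have s := SimpleGraph.dist_comm (G := T) (u := y) (v := z)
    omega
  | succ n ih =>
    obtain ⟨z', hz1, hz2⟩ := tree_geod hT z w 1 (by omega)
    have hadj : T.Adj z z' := SimpleGraph.dist_eq_one_iff_adj.1 hz1
    have h0 := ih z' (by omega)
    have sx := tree_dist_adj hT (x := x) hadj
    have sy := tree_dist_adj hT (x := y) hadj
    have s1 := SimpleGraph.dist_comm (G := T) (u := y) (v := z)
    have s2 := SimpleGraph.dist_comm (G := T) (u := x) (v := z)
    have s3 := SimpleGraph.dist_comm (G := T) (u := w) (v := z)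
    have s4 := SimpleGraph.dist_comm (G := T) (u := w) (v := z')
    have s5 := SimpleGraph.dist_comm (G := T) (u := y) (v := x)
    have s6 := SimpleGraph.dist_comm (G := T) (u := w) (v := x)
    have s7 := SimpleGraph.dist_comm (G := T) (u := w) (v := y)
    have hw : T.dist w z = T.dist w z' + 1 := by omega
    rcases sx with sx | sx <;> rcases sy with sy | sy
    · omega
    · -- `x` on the `z'` side, `y` on the `z` side
      have e1 := tree_sep hT hadj.symm sx _ y rfl sy
      have e2 := tree_sep hT hadj.symm hw _ y rfl sy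
      omega
    · have e1 := tree_sep hT hadj.symm sy _ x rfl sx
      have e2 := tree_sep hT hadj.symm hw _ x rfl sx
      omega
    · have e1 := tree_sep hT hadj.symm hw _ y rfl sy
      have e2 := tree_sep hT hadj.symm hw _ x rfl sx
      have := hc.dist_triangle (u := x) (v := z) (w := y)
      omega

end GraphTree

section Coset

variable {P : Type} [Group P] (Q : Bool → Subgroup P)

/-- The vertex set of the coset graph. -/
abbrev CosetV : Type := Σ b, P ⧸ Q b

/-- The vertex `g Q_b`. -/
def vert (b : Bool) (g : P) : CosetV Q := ⟨b, (g : P ⧸ Q b)⟩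

theorem smul_vert (h : P) (b : Bool) (g : P) : h • vert Q b g = vert Q b (h * g) := rfl

theorem vert_eq {b : Bool} {g g' : P} : vert Q b g = vert Q b g' ↔ g⁻¹ * g' ∈ Q b := by
  unfold vert
  constructor
  · intro h
    have : (g : P ⧸ Q b) = (g' : P ⧸ Q b) := by
      have := (Sigma.mk.inj_iff.1 h).2
      exact eq_of_heq this
    exact QuotientGroup.eq.1 this
  · intro h
    rw [QuotientGroup.eq.2 h]

theorem vert_fst {b b' : Bool} {g g' : P} (h : vert Q b g = vert Q b' g') : b = b' :=
  congrArg Sigma.fst h

theorem exists_rep (y : CosetV Q) : ∃ b g, y = vert Q b g := by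
  obtain ⟨b, x⟩ := y
  obtain ⟨g, rfl⟩ := QuotientGroup.mk_surjective x
  exact ⟨b, g, rfl⟩

theorem smul_vert_eq {h : P} {b : Bool} {g : P} :
    h • vert Q b g = vert Q b g ↔ g⁻¹ * h * g ∈ Q b := by
  rw [smul_vert, eq_comm, vert_eq, mul_assoc]

/-- The coset graph. -/
def cosetGraph : SimpleGraph (CosetV Q) where
  Adj u w := ∃ b g, u = vert Q b g ∧ w = vert Q (!b) g
  symm := ⟨by
    rintro u w ⟨b, g, rfl, rfl⟩
    exact ⟨!b, g, rfl, by simp⟩⟩
  loopless := ⟨by
    rintro u ⟨b, g, h1, h2⟩
    rw [h1] at h2
    have := vert_fst Q h2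
    cases b <;> simp at this⟩

theorem cosetGraph_adj (b : Bool) (g : P) : (cosetGraph Q).Adj (vert Q b g) (vert Q (!b) g) :=
  ⟨b, g, rfl, rfl⟩

theorem cosetGraph_smul {u w : CosetV Q} (h : (cosetGraph Q).Adj u w) (g : P) :
    (cosetGraph Q).Adj (g • u) (g • w) := by
  obtain ⟨b, x, rfl, rfl⟩ := h
  exact ⟨b, g * x, rfl, rfl⟩

variable {Q}

theorem coset_connected (hgen : Q false ⊔ Q true = ⊤) : (cosetGraph Q).Connected := by
  have hft : ∀ g b, (cosetGraph Q).Reachable (vert Q false g) (vert Q b g) := by
    intro g b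
    cases b
    · exact SimpleGraph.Reachable.refl _
    · exact (cosetGraph_adj Q false g).reachable
  let K : Subgroup P :=
    { carrier := {g | ∀ a, (cosetGraph Q).Reachable (vert Q false a) (vert Q false (a * g))}
      one_mem' := fun a => by rw [mul_one]
      mul_mem' := by
        intro g h hg hh a
        have := hh (a * g)
        rw [mul_assoc] at this
        exact (hg a).trans this
      inv_mem' := by
        intro g hg a
        have := hg (a * g⁻¹)
        rw [inv_mul_cancel_right] at this
        exact this.symm }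
  have hK : ∀ b, Q b ≤ K := by
    intro b q hq a
    have e : vert Q b a = vert Q b (a * q) := by
      rw [vert_eq]; simpa using hq
    have h1 := hft a b
    rw [e] at h1
    exact h1.trans (hft (a * q) b).symm
  have hKtop : K = ⊤ := by
    rw [eq_top_iff, ← hgen]
    exact sup_le (hK false) (hK true)
  have hroot : ∀ y, (cosetGraph Q).Reachable (vert Q false 1) y := by
    intro y
    obtain ⟨b, g, rfl⟩ := exists_rep Q y
    have : g ∈ K := by rw [hKtop]; trivial
    have h1 := this 1
    rw [one_mul] at h1
    exact h1.trans (hft g b)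
  have : Nonempty (CosetV Q) := ⟨vert Q false 1⟩
  exact SimpleGraph.Connected.mk (fun x y => (hroot x).symm.trans (hroot y))

theorem trail_alt {C : Subgroup P} (hCQ : ∀ b, C ≤ Q b)
    {u v : CosetV Q} (p : (cosetGraph Q).Walk u v) (hp : p.IsTrail) (b : Bool) (e : P)
    (hu : u = vert Q b e) (h1 : p.snd = vert Q (!b) e) (hlen : 2 ≤ p.length) :
    ∃ β y, Alt Q C (!b) y ∧ v = vert Q β (e * y) := by
  induction p generalizing b e with
  | nil => simp at hlen
  | @cons u u1 v h q ih =>
    rw [SimpleGraph.Walk.snd_cons] at h1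
    rw [SimpleGraph.Walk.isTrail_cons] at hp
    rw [SimpleGraph.Walk.length_cons] at hlen
    cases q with
    | nil => simp at hlen
    | @cons _ u2 _ h' q' =>
      have h'' : ∃ b g, u1 = vert Q b g ∧ u2 = vert Q (!b) g := h'
      obtain ⟨b', e', hb1, hb2⟩ := h''
      have hbb : b' = !b := by
        rw [h1] at hb1
        exact (vert_fst Q hb1).symm
      subst hbb
      rw [Bool.not_not] at hb2
      have hx : e⁻¹ * e' ∈ Q (!b) := by
        rw [← vert_eq, ← h1, hb1]
      have hxC : e⁻¹ * e' ∉ C := by
        intro hxC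
        have : u = u2 := by
          rw [hu, hb2, vert_eq]
          exact hCQ b hxC
        subst this
        apply hp.2
        simp [Sym2.eq_swap]
      by_cases hq : q'.length = 0
      · have : u2 = v := SimpleGraph.Walk.eq_of_length_eq_zero hq
        subst this
        refine ⟨b, e⁻¹ * e', Alt.single _ _ hx hxC, ?_⟩
        rw [hb2]; simp
      · obtain ⟨β, y, hy1, hy2⟩ := ih hp.1 (!b) e' hb1
          (by rw [SimpleGraph.Walk.snd_cons, hb2, Bool.not_not])
          (by rw [SimpleGraph.Walk.length_cons]; omega)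
        refine ⟨β, (e⁻¹ * e') * y, Alt.cons _ _ _ hx hxC hy1, ?_⟩
        rw [hy2]
        congr 1
        group

theorem coset_isTree {C : Subgroup P} (hCQ : ∀ b, C ≤ Q b) (hgen : Q false ⊔ Q true = ⊤)
    (hAlt : ∀ b x, Alt Q C b x → x ∉ Q (!b)) : (cosetGraph Q).IsTree := by
  refine ⟨coset_connected hgen, ?_⟩
  intro u c hc
  cases c with
  | nil => exact hc.ne_nil rfl
  | @cons _ u1 _ h q =>
    have hlen := hc.three_le_length
    have h'' : ∃ b g, u = vert Q b g ∧ u1 = vert Q (!b) g := h
    obtain ⟨b, e, hb1, hb2⟩ := h''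
    obtain ⟨β, y, hy1, hy2⟩ := trail_alt hCQ _ hc.isTrail b e hb1
      (by rw [SimpleGraph.Walk.snd_cons, hb2]) (by omega)
    rw [hb1] at hy2
    have hβ : b = β := vert_fst Q hy2
    subst hβ
    rw [vert_eq] at hy2
    have h3 : y ∈ Q b := by simpa using hy2
    have h4 := hAlt _ _ hy1
    rw [Bool.not_not] at h4
    exact h4 h3

variable (Q)

/-- The tree distance. -/
noncomputable def cdist : CosetV Q → CosetV Q → ℕ := (cosetGraph Q).dist

theorem cdist_smul (hgen : Q false ⊔ Q true = ⊤) (g : P) (u w : CosetV Q) : cdist Q (g • u) (g • w) = cdist Q u w := by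
  have hc := coset_connected hgen
  have key : ∀ (g : P) (u w : CosetV Q), cdist Q (g • u) (g • w) ≤ cdist Q u w := by
    intro g u w
    obtain ⟨p, hp⟩ := hc.exists_walk_length_eq_dist u w
    let φ : cosetGraph Q →g cosetGraph Q :=
      { toFun := fun y => g • y
        map_rel' := fun {a b} h => cosetGraph_smul Q h g }
    have := SimpleGraph.dist_le (p.map φ)
    rw [SimpleGraph.Walk.length_map, hp] at this
    exact this
  apply le_antisymm (key g u w)
  have := key g⁻¹ (g • u) (g • w)
  simpa using this

theorem cdist_one {u w : CosetV Q} :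
    cdist Q u w = 1 ↔ ∃ b g, u = vert Q b g ∧ w = vert Q (!b) g :=
  SimpleGraph.dist_eq_one_iff_adj

end Coset

end Pool.Agent.Lib.MP_c91b70_al
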