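import Pool.Agent.Lib.MP_c91b70_al.GraphProd

/-!
# The groups in the example

`C5` is the pentagon, `V3 = Z/2 * Z/2 * Z/2`; `Gam15` is the pentagon blown up by three independent
points, `Lam10` the pentagon blown up by two independent points.
-/

set_option autoImplicit false

namespace Pool.Agent.Lib.MP_c91b70_al

/-- The relations of the right-angled Coxeter group of `Γ` (as in the frozen statement). -/
abbrev racgRels {n : ℕ} (Γ : SimpleGraph (Fin n)) : Set (FreeGroup (Fin n)) :=
  {r : FreeGroup (Fin n) |
    (∃ a, r = FreeGroup.of a * FreeGroup.of a) ∨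
    ∃ a b, Γ.Adj a b ∧ r = (FreeGroup.of a * FreeGroup.of b) ^ 2}

/-- The relations of the right-angled Artin group of `Λ` (as in the frozen statement). -/
abbrev raagRels {m : ℕ} (Λ : SimpleGraph (Fin m)) : Set (FreeGroup (Fin m)) :=
  {r : FreeGroup (Fin m) |
    ∃ a b, Λ.Adj a b ∧
      r = FreeGroup.of a * FreeGroup.of b * (FreeGroup.of a)⁻¹ * (FreeGroup.of b)⁻¹}

/-- The right-angled Coxeter group of `Γ`. -/
abbrev RACG {n : ℕ} (Γ : SimpleGraph (Fin n)) : Type := PresentedGroup (racgRels Γ)

/-- The right-angled Artin group of `Λ`. -/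
abbrev RAAG {m : ℕ} (Λ : SimpleGraph (Fin m)) : Type := PresentedGroup (raagRels Λ)

/-- The pentagon. -/
def C5 : SimpleGraph (Fin 5) where
  Adj i j := j = i + 1 ∨ i = j + 1
  symm := ⟨fun _ _ h => h.symm⟩
  loopless := ⟨fun i h => by revert h; revert i; decide⟩

instance : DecidableRel C5.Adj := fun i j => inferInstanceAs (Decidable (j = i + 1 ∨ i = j + 1))

/-- The pentagon blown up by three independent points. -/
def Gam15 : SimpleGraph (Fin (5 * 3)) where
  Adj a b := C5.Adj a.divNat b.divNat
  symm := ⟨fun _ _ h => C5.symm.symm _ _ h⟩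
  loopless := ⟨fun a h => C5.loopless.irrefl _ h⟩

/-- The pentagon blown up by two independent points. -/
def Lam10 : SimpleGraph (Fin (5 * 2)) where
  Adj a b := C5.Adj a.divNat b.divNat
  symm := ⟨fun _ _ h => C5.symm.symm _ _ h⟩
  loopless := ⟨fun a h => C5.loopless.irrefl _ h⟩

/-- The free product of three groups of order two. -/
abbrev V3 : Type := PresentedGroup {r : FreeGroup (Fin 3) | ∃ a, r = FreeGroup.of a * FreeGroup.of a}

end Pool.Agent.Lib.MP_c91b70_al
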