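import Mathlib

/-!
# Freeness and freeness on involutions, via universal properties
-/

set_option autoImplicit false

namespace Pool.Agent.Lib.MP_c91b70_al

/-- `Q` is free on the family `s`. -/
def FreeOn {Q I : Type} [Group Q] (s : I → Q) : Prop :=
  Subgroup.closure (Set.range s) = ⊤ ∧
    ∀ {X : Type} [Group X] (x : I → X), ∃ F : Q →* X, ∀ i, F (s i) = x i

/-- `Q` is the free product of the groups of order two generated by the `s i`. -/
def InvFreeOn {Q I : Type} [Group Q] (s : I → Q) : Prop :=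
  Subgroup.closure (Set.range s) = ⊤ ∧ (∀ i, s i * s i = 1) ∧
    ∀ {X : Type} [Group X] (x : I → X), (∀ i, x i * x i = 1) → ∃ F : Q →* X, ∀ i, F (s i) = x i

theorem InvFreeOn.map {Q Q' I : Type} [Group Q] [Group Q'] {s : I → Q} (h : InvFreeOn s)
    (e : Q ≃* Q') : InvFreeOn (fun i => e (s i)) := by
  obtain ⟨h1, h2, h3⟩ := h
  refine ⟨?_, ?_, ?_⟩
  · have : Set.range (fun i => e (s i)) = e.toMonoidHom '' Set.range s := by
      rw [← Set.range_comp]; rfl
    rw [this, ← MonoidHom.map_closure, h1, ← MonoidHom.range_eq_map,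
      MonoidHom.range_eq_top.2 e.surjective]
  · intro i
    rw [← map_mul, h2, map_one]
  · intro X _ x hx
    obtain ⟨F, hF⟩ := h3 x hx
    exact ⟨F.comp e.symm.toMonoidHom, fun i => by simp [hF]⟩

end Pool.Agent.Lib.MP_c91b70_al
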