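import Pool.Agent.Lib.MP_c91b70_al.FreeOn

/-!
# Counting homomorphisms to `Z/2` on finite index subgroups
-/

set_option autoImplicit false

namespace Pool.Agent.Lib.MP_c91b70_al

namespace Rank

variable {Q I : Type} [Group Q]

section Crossed

variable {X : Type} [MulAction Q X]

/-- Crossed homomorphisms with values in functions on `X`. -/
def IsCrossed (c : Q → X → ZMod 2) : Prop := ∀ g h x, c (g * h) x = c g x + c h (g⁻¹ • x)

theorem IsCrossed.one {c : Q → X → ZMod 2} (hc : IsCrossed c) (x : X) : c 1 x = 0 := by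
  have h := hc 1 1 x
  simpa using h

theorem IsCrossed.inv {c : Q → X → ZMod 2} (hc : IsCrossed c) (g : Q) (x : X) :
    c g⁻¹ x = -c g (g • x) := by
  have h := hc g g⁻¹ (g • x)
  rw [mul_inv_cancel, hc.one, inv_smul_smul] at h
  exact (neg_eq_of_add_eq_zero_right h.symm).symm

theorem IsCrossed.ext {s : I → Q} (hs : Subgroup.closure (Set.range s) = ⊤)
    {c c' : Q → X → ZMod 2} (hc : IsCrossed c) (hc' : IsCrossed c')
    (h : ∀ i x, c (s i) x = c' (s i) x) : c = c' := by
  let K : Subgroup Q :=
    { carrier := {g | ∀ x, c g x = c' g x}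
      one_mem' := fun x => by rw [hc.one, hc'.one]
      mul_mem' := fun {a b} ha hb x => by rw [hc, hc', ha, hb]
      inv_mem' := fun {a} ha x => by rw [hc.inv, hc'.inv, ha] }
  have hK : K = ⊤ := by
    rw [eq_top_iff, ← hs, Subgroup.closure_le]
    rintro _ ⟨i, rfl⟩
    exact fun x => h i x
  funext g x
  have : g ∈ K := hK ▸ Subgroup.mem_top g
  exact this x

/-- The affine permutation attached to a group element and a function. -/
def aff (g : Q) (m : X → ZMod 2) : Equiv.Perm (X × ZMod 2) where
  toFun p := (g • p.1, p.2 + m (g • p.1))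
  invFun p := (g⁻¹ • p.1, p.2 - m p.1)
  left_inv p := by simp
  right_inv p := by simp

theorem aff_apply (g : Q) (m : X → ZMod 2) (x : X) (t : ZMod 2) :
    aff g m (x, t) = (g • x, t + m (g • x)) := rfl

/-- A homomorphism to permutations which is affine on generators gives a crossed homomorphism. -/
theorem exists_crossed {s : I → Q} (hs : Subgroup.closure (Set.range s) = ⊤)
    (m : I → X → ZMod 2) (F : Q →* Equiv.Perm (X × ZMod 2)) (hF : ∀ i, F (s i) = aff (s i) (m i)) :
    ∃ c : Q → X → ZMod 2, IsCrossed c ∧ ∀ i, c (s i) = m i := by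
  let K : Subgroup Q :=
    { carrier := {g | ∃ c : X → ZMod 2, F g = aff g c}
      one_mem' := ⟨0, by ext p <;> simp [aff]⟩
      mul_mem' := by
        rintro a b ⟨ca, ha⟩ ⟨cb, hb⟩
        refine ⟨fun y => ca y + cb (a⁻¹ • y), ?_⟩
        rw [map_mul, ha, hb]
        ext p
        · simp [aff, mul_smul]
        · simp only [Equiv.Perm.mul_apply, aff, Equiv.coe_fn_mk, mul_smul, inv_smul_smul]
          ring
      inv_mem' := by
        rintro a ⟨ca, ha⟩
        refine ⟨fun y => -ca (a • y), ?_⟩
        rw [map_inv, ha]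
        ext p
        · rfl
        · change p.2 - ca p.1 = p.2 + -ca (a • a⁻¹ • p.1)
          rw [smul_inv_smul]; ring }
  have hK : K = ⊤ := by
    rw [eq_top_iff, ← hs, Subgroup.closure_le]
    rintro _ ⟨i, rfl⟩
    exact ⟨m i, hF i⟩
  have hall : ∀ g, ∃ c : X → ZMod 2, F g = aff g c := by
    intro g
    have : g ∈ K := hK ▸ Subgroup.mem_top g
    exact this
  choose c hc using hall
  have hinj : ∀ (g : Q) (a b : X → ZMod 2), aff g a = aff g b → a = b := by
    intro g a b hab
    funext x
    have := congrArg (fun σ : Equiv.Perm (X × ZMod 2) => (σ (g⁻¹ • x, 0)).2) hab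
    simpa [aff] using this
  refine ⟨c, ?_, ?_⟩
  · intro g h x
    have h1 := hc (g * h)
    rw [map_mul, hc g, hc h] at h1
    have := congrArg (fun σ : Equiv.Perm (X × ZMod 2) => (σ ((g * h)⁻¹ • x, 0)).2) h1
    simp only [Equiv.Perm.mul_apply, aff, Equiv.coe_fn_mk, zero_add, smul_inv_smul] at this
    rw [← this, mul_inv_rev, mul_smul, smul_inv_smul, smul_inv_smul, add_comm]
  · intro i
    exact hinj (s i) _ _ ((hc (s i)).symm.trans (hF i))

/-- For a free family, crossed homomorphisms correspond to arbitrary families. -/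
theorem card_crossed_free [Fintype I] [Finite X] {s : I → Q} (hs : FreeOn s) :
    Nat.card {c : Q → X → ZMod 2 // IsCrossed c} = 2 ^ (Nat.card X * Fintype.card I) := by
  have hbij : Function.Bijective (fun (c : {c : Q → X → ZMod 2 // IsCrossed c}) (i : I) =>
      c.1 (s i)) := by
    constructor
    · intro c c' h
      apply Subtype.ext
      exact IsCrossed.ext hs.1 c.2 c'.2 fun i x => congrFun (congrFun h i) x
    · intro m
      obtain ⟨F, hF⟩ := hs.2 (fun i => aff (s i) (m i))
      obtain ⟨c, hc, hcm⟩ := exists_crossed hs.1 m F hF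
      exact ⟨⟨c, hc⟩, funext hcm⟩
  rw [Nat.card_congr (Equiv.ofBijective _ hbij), Nat.card_fun, Nat.card_fun, Nat.card_zmod,
    Nat.card_eq_fintype_card (α := I), ← pow_mul]

/-- For a family of involutions, crossed homomorphisms correspond to invariant families. -/
theorem card_crossed_inv [Finite X] {s : I → Q} (hs : InvFreeOn s) :
    Nat.card {c : Q → X → ZMod 2 // IsCrossed c} =
      Nat.card (∀ i : I, {m : X → ZMod 2 // ∀ x, m (s i • x) = m x}) := by
  have hadd : ∀ t : ZMod 2, t + t = 0 := by decide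
  have hneg : ∀ t u : ZMod 2, t + u = 0 → u = t := by decide
  have hinv : ∀ (c : Q → X → ZMod 2) (_ : IsCrossed c) (i : I) (x : X),
      c (s i) (s i • x) = c (s i) x := by
    intro c hc i x
    have h1 := hc (s i) (s i) x
    rw [hs.2.1 i, hc.one] at h1
    have h2 : (s i)⁻¹ = s i := inv_eq_of_mul_eq_one_right (hs.2.1 i)
    rw [h2] at h1
    exact hneg _ _ h1.symm
  have hbij : Function.Bijective (fun (c : {c : Q → X → ZMod 2 // IsCrossed c}) (i : I) =>
      (⟨c.1 (s i), hinv c.1 c.2 i⟩ : {m : X → ZMod 2 // ∀ x, m (s i • x) = m x})) := by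
    constructor
    · intro c c' h
      apply Subtype.ext
      refine IsCrossed.ext hs.1 c.2 c'.2 fun i x => ?_
      have := congrFun h i
      exact congrFun (congrArg Subtype.val this) x
    · intro m
      obtain ⟨F, hF⟩ := hs.2.2 (fun i => aff (s i) (m i).1) (by
        intro i
        ext p
        · simp only [Equiv.Perm.mul_apply, aff, Equiv.coe_fn_mk, Equiv.Perm.one_apply]
          rw [← mul_smul, hs.2.1 i, one_smul]
        · simp only [Equiv.Perm.mul_apply, aff, Equiv.coe_fn_mk, Equiv.Perm.one_apply]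
          simp only [(m i).2]
          rw [add_assoc, hadd, add_zero])
      obtain ⟨c, hc, hcm⟩ := exists_crossed hs.1 (fun i => (m i).1) F hF
      exact ⟨⟨c, hc⟩, funext fun i => Subtype.ext (hcm i)⟩
  exact Nat.card_congr (Equiv.ofBijective _ hbij)

/-- A fixed point free involution has `2^(j/2)` invariant functions. -/
theorem card_invariant_sq [Finite X] (g : Q) (hg : g * g = 1) (hfree : ∀ x : X, g • x ≠ x) :
    Nat.card {m : X → ZMod 2 // ∀ x, m (g • x) = m x} ^ 2 = 2 ^ Nat.card X := by
  classical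
  obtain ⟨n, ⟨e⟩⟩ := Finite.exists_equiv_fin X
  have hgg : ∀ x : X, g • g • x = x := fun x => by rw [← mul_smul, hg, one_smul]
  set R : X → Prop := fun x => e x < e (g • x) with hR
  have hR2 : ∀ x, R (g • x) ↔ ¬ R x := by
    intro x
    simp only [hR, hgg]
    constructor
    · intro h1 h2; exact absurd (h1.trans h2) (lt_irrefl _)
    · intro h1
      rcases lt_trichotomy (e x) (e (g • x)) with h | h | h
      · exact absurd h h1
      · exact absurd (e.injective h).symm (hfree x)
      · exact h
  let M := {m : X → ZMod 2 // ∀ x, m (g • x) = m x}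
  let E : M × M ≃ (X → ZMod 2) :=
    { toFun := fun p x => if R x then p.1.1 x else p.2.1 x
      invFun := fun v =>
        (⟨fun x => if R x then v x else v (g • x), fun x => by
            by_cases h : R x
            · have h' : ¬ R (g • x) := by rw [hR2]; exact not_not.2 h
              dsimp only
              rw [if_neg h', if_pos h, hgg]
            · have h' : R (g • x) := by rw [hR2]; exact h
              dsimp only
              rw [if_pos h', if_neg h]⟩,
         ⟨fun x => if R x then v (g • x) else v x, fun x => by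
            by_cases h : R x
            · have h' : ¬ R (g • x) := by rw [hR2]; exact not_not.2 h
              dsimp only
              rw [if_neg h', if_pos h]
            · have h' : R (g • x) := by rw [hR2]; exact h
              dsimp only
              rw [if_pos h', if_neg h, hgg]⟩)
      left_inv := by
        rintro ⟨⟨m, hm⟩, ⟨m', hm'⟩⟩
        apply Prod.ext
        · apply Subtype.ext
          funext x
          by_cases h : R x
          · simp only [if_pos h]
          · have h' : R (g • x) := by rw [hR2]; exact h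
            simp only [if_neg h, if_pos h', hm]
        · apply Subtype.ext
          funext x
          by_cases h : R x
          · have h' : ¬ R (g • x) := by rw [hR2]; exact not_not.2 h
            simp only [if_pos h, if_neg h', hm']
          · simp only [if_neg h]
      right_inv := by
        intro v
        funext x
        by_cases h : R x
        · simp only [if_pos h]
        · simp only [if_neg h] }
  have h1 := Nat.card_congr E
  rw [Nat.card_prod, Nat.card_fun, Nat.card_zmod] at h1
  rw [pow_two]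
  exact h1

end Crossed

section Shapiro

variable (N : Subgroup Q)

open Classical in
/-- A section of `Q → Q ⧸ N` which is `1` on the trivial coset. -/
noncomputable def sec (x : Q ⧸ N) : Q := if x = ((1 : Q) : Q ⧸ N) then 1 else x.out

theorem mk_sec (x : Q ⧸ N) : ((sec N x : Q) : Q ⧸ N) = x := by
  unfold sec
  split
  · next h => exact h.symm
  · exact QuotientGroup.out_eq' x

theorem sec_one : sec N ((1 : Q) : Q ⧸ N) = 1 := by simp [sec]

theorem sec_smul_one (x : Q ⧸ N) : sec N x • ((1 : Q) : Q ⧸ N) = x := by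
  have : sec N x • ((1 : Q) : Q ⧸ N) = ((sec N x * 1 : Q) : Q ⧸ N) := rfl
  rw [this, mul_one, mk_sec]

/-- the correction element -/
theorem corr_mem (g : Q) (y : Q ⧸ N) : (sec N y)⁻¹ * g * sec N (g⁻¹ • y) ∈ N := by
  rw [mul_assoc, ← QuotientGroup.eq]
  have h1 : ((g * sec N (g⁻¹ • y) : Q) : Q ⧸ N) = g • ((sec N (g⁻¹ • y) : Q) : Q ⧸ N) := rfl
  rw [h1, mk_sec, mk_sec, smul_inv_smul]

theorem mem_smul_one {n : Q} (hn : n ∈ N) : n • ((1 : Q) : Q ⧸ N) = ((1 : Q) : Q ⧸ N) := by
  have : n • ((1 : Q) : Q ⧸ N) = ((n * 1 : Q) : Q ⧸ N) := rfl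
  rw [this, mul_one, QuotientGroup.eq]
  simpa using hn

/-- The crossed homomorphism of a character and a function. -/
noncomputable def toCrossed (χ : N →* Multiplicative (ZMod 2)) (b : Q ⧸ N → ZMod 2) (g : Q)
    (y : Q ⧸ N) : ZMod 2 :=
  (χ ⟨(sec N y)⁻¹ * g * sec N (g⁻¹ • y), corr_mem N g y⟩).toAdd + b y - b (g⁻¹ • y)

theorem toCrossed_isCrossed (χ : N →* Multiplicative (ZMod 2)) (b : Q ⧸ N → ZMod 2) :
    IsCrossed (toCrossed N χ b) := by
  intro g h y
  have h1 : (⟨(sec N y)⁻¹ * (g * h) * sec N ((g * h)⁻¹ • y), corr_mem N (g * h) y⟩ : N) =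
      ⟨(sec N y)⁻¹ * g * sec N (g⁻¹ • y), corr_mem N g y⟩ *
        ⟨(sec N (g⁻¹ • y))⁻¹ * h * sec N (h⁻¹ • g⁻¹ • y), corr_mem N h (g⁻¹ • y)⟩ := by
    apply Subtype.ext
    simp only [Subgroup.coe_mul]
    rw [mul_inv_rev, mul_smul]
    group
  unfold toCrossed
  rw [h1, map_mul, toAdd_mul, mul_inv_rev, mul_smul]
  ring

/-- The restriction of a crossed homomorphism. -/
def resChar (c : Q → (Q ⧸ N) → ZMod 2) (hc : IsCrossed c) : N →* Multiplicative (ZMod 2) where
  toFun n := Multiplicative.ofAdd (c n ((1 : Q) : Q ⧸ N))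
  map_one' := by
    rw [Subgroup.coe_one, hc.one]; rfl
  map_mul' n m := by
    rw [Subgroup.coe_mul, hc, mem_smul_one N (N.inv_mem n.2)]; rfl

/-- Shapiro's lemma, as a bijection. -/
theorem card_shapiro (hN : N.index ≠ 0) :
    Nat.card (N →* Multiplicative (ZMod 2)) * 2 ^ N.index =
      2 * Nat.card {c : Q → (Q ⧸ N) → ZMod 2 // IsCrossed c} := by
  have : N.FiniteIndex := ⟨hN⟩
  have hfin : Finite (Q ⧸ N) := inferInstance
  set x₀ : Q ⧸ N := ((1 : Q) : Q ⧸ N) with hx₀
  let E : (N →* Multiplicative (ZMod 2)) × ((Q ⧸ N) → ZMod 2) ≃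
      ZMod 2 × {c : Q → (Q ⧸ N) → ZMod 2 // IsCrossed c} :=
    { toFun := fun p => (p.2 x₀, ⟨toCrossed N p.1 p.2, toCrossed_isCrossed N p.1 p.2⟩)
      invFun := fun p => (resChar N p.2.1 p.2.2, fun x => p.2.1 (sec N x) x + p.1)
      left_inv := by
        rintro ⟨χ, b⟩
        apply Prod.ext
        · ext n
          have hn : (n : Q)⁻¹ • x₀ = x₀ := mem_smul_one N (N.inv_mem n.2)
          change Multiplicative.ofAdd (toCrossed N χ b n x₀) = χ n
          unfold toCrossed
          have h1 : (⟨(sec N x₀)⁻¹ * (n : Q) * sec N ((n : Q)⁻¹ • x₀), corr_mem N n x₀⟩ : N) = n := by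
            apply Subtype.ext
            simp only
            rw [hn, hx₀, sec_one]; simp
          rw [h1, hn, add_sub_cancel_right]
          rfl
        · funext x
          change toCrossed N χ b (sec N x) x + b x₀ = b x
          unfold toCrossed
          have h2 : (sec N x)⁻¹ • x = x₀ := by
            rw [inv_smul_eq_iff, hx₀, sec_smul_one]
          have h1 : (⟨(sec N x)⁻¹ * sec N x * sec N ((sec N x)⁻¹ • x),
              corr_mem N (sec N x) x⟩ : N) = 1 := by
            apply Subtype.ext
            simp only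
            rw [h2, hx₀, sec_one]; simp
          rw [h1, h2, map_one, toAdd_one]
          ring
      right_inv := by
        rintro ⟨t, ⟨c, hc⟩⟩
        apply Prod.ext
        · change c (sec N x₀) x₀ + t = t
          rw [hx₀, sec_one, hc.one, zero_add]
        · apply Subtype.ext
          funext g y
          change toCrossed N (resChar N c hc) (fun x => c (sec N x) x + t) g y = c g y
          unfold toCrossed
          change c ((sec N y)⁻¹ * g * sec N (g⁻¹ • y)) x₀ + (c (sec N y) y + t) -
            (c (sec N (g⁻¹ • y)) (g⁻¹ • y) + t) = c g y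
          have h1 : c ((sec N y)⁻¹ * g * sec N (g⁻¹ • y)) x₀ =
              -c (sec N y) y + c g y + c (sec N (g⁻¹ • y)) (g⁻¹ • y) := by
            rw [hc, hc, hc.inv, inv_inv, mul_inv_rev, inv_inv, mul_smul]
            rw [hx₀, sec_smul_one]
          rw [h1]; ring }
  have h := Nat.card_congr E
  rw [Nat.card_prod, Nat.card_prod, Nat.card_fun, Nat.card_zmod] at h
  exact h

end Shapiro

/-- A free family gives an isomorphism with the free group. -/
theorem freeOn_exists_equiv {s : I → Q} (hs : FreeOn s) :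
    ∃ e : FreeGroup I ≃* Q, ∀ i, e (FreeGroup.of i) = s i := by
  obtain ⟨F, hF⟩ := hs.2 (fun i => FreeGroup.of i)
  have h1 : F.comp (FreeGroup.lift s) = MonoidHom.id _ := by
    apply FreeGroup.ext_hom
    intro i
    simp [hF]
  have h2 : (FreeGroup.lift s).comp F = MonoidHom.id _ := by
    apply MonoidHom.eq_of_eqOn_dense hs.1
    rintro _ ⟨i, rfl⟩
    simp [hF]
  exact ⟨MonoidHom.toMulEquiv (FreeGroup.lift s) F h1 h2, fun i => by simp⟩

end Rank

open Rank

variable {Q I : Type} [Group Q]

/-- Counting for free groups. -/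
theorem count_free [Fintype I] (s : I → Q) (hs : FreeOn s) (N : Subgroup Q) (hN : N.index ≠ 0) :
    Nat.card (N →* Multiplicative (ZMod 2)) * 2 ^ N.index = 2 ^ (N.index * Fintype.card I + 1) := by
  have : N.FiniteIndex := ⟨hN⟩
  have hfin : Finite (Q ⧸ N) := inferInstance
  rw [card_shapiro N hN, card_crossed_free hs, pow_succ, mul_comm]
  rfl

/-- Counting for free products of groups of order two. -/
theorem count_inv [Fintype I] (s : I → Q) (hs : InvFreeOn s) (N : Subgroup Q) (hN : N.index ≠ 0)
    (htf : ∀ i g, g * s i * g⁻¹ ∉ N) :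
    Nat.card (N →* Multiplicative (ZMod 2)) ^ 2 * 4 ^ N.index =
      4 * 2 ^ (N.index * Fintype.card I) := by
  have : N.FiniteIndex := ⟨hN⟩
  have hfin : Finite (Q ⧸ N) := inferInstance
  have h1 := card_shapiro N hN
  rw [card_crossed_inv hs, Nat.card_pi] at h1
  have hfree : ∀ i (x : Q ⧸ N), s i • x ≠ x := by
    intro i x hx
    obtain ⟨g, rfl⟩ := QuotientGroup.mk_surjective x
    have h2 : ((s i * g : Q) : Q ⧸ N) = ((g : Q) : Q ⧸ N) := hx
    have h3 := QuotientGroup.eq.1 h2
    have h4 : g⁻¹ * s i * g⁻¹⁻¹ ∈ N := by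
      have h5 := N.inv_mem h3
      have h6 : ((s i * g)⁻¹ * g)⁻¹ = g⁻¹ * s i * g⁻¹⁻¹ := by group
      rwa [h6] at h5
    exact htf i g⁻¹ h4
  have h2 : (∏ i : I, Nat.card {m : (Q ⧸ N) → ZMod 2 // ∀ x, m (s i • x) = m x}) ^ 2 =
      2 ^ (N.index * Fintype.card I) := by
    rw [← Finset.prod_pow]
    rw [Finset.prod_congr rfl fun i _ => card_invariant_sq (X := Q ⧸ N) (s i) (hs.2.1 i) (hfree i)]
    rw [Finset.prod_const, Finset.card_univ, ← pow_mul]
    rfl
  have h3 : (4 : ℕ) ^ N.index = (2 ^ N.index) ^ 2 := by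
    rw [show (4 : ℕ) = 2 ^ 2 by norm_num, ← pow_mul, ← pow_mul, mul_comm]
  rw [h3, ← mul_pow, h1, mul_pow, h2]
  norm_num

/-- Nielsen–Schreier for finitely generated subgroups. -/
theorem nielsen (s : I → Q) (hs : FreeOn s) (K : Subgroup Q) (hK : K.FG) :
    ∃ (r : ℕ) (t : Fin r → K), FreeOn t := by
  obtain ⟨e, -⟩ := freeOn_exists_equiv hs
  have : IsFreeGroup Q := IsFreeGroup.ofMulEquiv e
  have hKfree : IsFreeGroup K := inferInstance
  have hKfg : Group.FG K := (Group.fg_iff_subgroup_fg K).2 hK
  -- homs to Z/2 are finite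
  have hfin : Finite (K →* Multiplicative (ZMod 2)) := by
    obtain ⟨S, hS⟩ := hKfg.out
    have : Function.Injective (fun (f : K →* Multiplicative (ZMod 2)) (x : S) => f x.1) := by
      intro f g hfg
      apply MonoidHom.eq_of_eqOn_dense hS
      intro x hx
      exact congrFun hfg ⟨x, hx⟩
    exact Finite.of_injective _ this
  have hfin2 : Finite (IsFreeGroup.Generators K → Multiplicative (ZMod 2)) :=
    Finite.of_equiv _ (IsFreeGroup.lift (G := K) (H := Multiplicative (ZMod 2))).symm
  have hgen : Finite (IsFreeGroup.Generators K) := by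
    classical
    apply Finite.of_injective
      (fun (a : IsFreeGroup.Generators K) (b : IsFreeGroup.Generators K) =>
        (if a = b then Multiplicative.ofAdd (1 : ZMod 2) else 1))
    intro a b hab
    by_contra hne
    have h1 := congrFun hab a
    simp only [if_true] at h1
    rw [if_neg (fun h => hne h.symm)] at h1
    have h2 : (1 : ZMod 2) = 0 := h1
    exact absurd h2 (by decide)
  obtain ⟨r, ⟨σ⟩⟩ := Finite.exists_equiv_fin (IsFreeGroup.Generators K)
  refine ⟨r, fun j => IsFreeGroup.of (σ.symm j), ?_, ?_⟩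
  · rw [eq_top_iff]
    have h1 : Set.range (fun j => (IsFreeGroup.of (σ.symm j) : K)) =
        (IsFreeGroup.mulEquiv K).toMonoidHom '' Set.range FreeGroup.of := by
      ext x
      constructor
      · rintro ⟨j, rfl⟩
        exact ⟨FreeGroup.of (σ.symm j), ⟨_, rfl⟩, rfl⟩
      · rintro ⟨_, ⟨a, rfl⟩, rfl⟩
        exact ⟨σ a, by simp only [Equiv.symm_apply_apply]; rfl⟩
    rw [h1, ← MonoidHom.map_closure, FreeGroup.closure_range_of, ← MonoidHom.range_eq_map,
      MonoidHom.range_eq_top.2 (IsFreeGroup.mulEquiv K).surjective]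
  · intro X _ x
    refine ⟨IsFreeGroup.lift (fun a => x (σ a)), fun j => ?_⟩
    rw [IsFreeGroup.lift_of, Equiv.apply_symm_apply]

end Pool.Agent.Lib.MP_c91b70_al
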