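import Mathlib
import Pool.Agent.Lib.MP_c91b70_al.FreeOn
import Pool.Agent.Lib.MP_c91b70_al.Rank

/-!
# The final counting argument
-/

set_option autoImplicit false

namespace Pool.Agent.Lib.MP_c91b70_al

section Orbits

variable {Q Z : Type} [Group Q] [MulAction Q Z]

/-- An element carrying `w` to the chosen representative of its orbit. -/
theorem exists_smul_out (w : Z) :
    ∃ g : Q, g • w = (Quotient.mk (MulAction.orbitRel Q Z) w).out := by
  have h : (MulAction.orbitRel Q Z) (Quotient.mk (MulAction.orbitRel Q Z) w).out w :=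
    Quotient.mk_out (s := MulAction.orbitRel Q Z) w
  rw [MulAction.orbitRel_apply, MulAction.mem_orbit_iff] at h
  exact h

theorem mk_smul_eq (g : Q) (w : Z) :
    Quotient.mk (MulAction.orbitRel Q Z) (g • w) = Quotient.mk (MulAction.orbitRel Q Z) w :=
  Quotient.sound ⟨g, rfl⟩

/-- The map from cosets times orbits to `N`-orbits. -/
noncomputable def orbMap (N : Subgroup Q) (r : Setoid Z)
    (hr : ∀ x y, r x y ↔ ∃ n ∈ N, n • x = y)
    (p : (Q ⧸ N) × Quotient (MulAction.orbitRel Q Z)) : Quotient r :=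
  Quotient.liftOn' p.1 (fun g => Quotient.mk r (g⁻¹ • p.2.out)) (by
    intro a b hab
    rw [QuotientGroup.leftRel_apply] at hab
    apply Quotient.sound
    change r _ _
    rw [hr]
    refine ⟨(a⁻¹ * b)⁻¹, N.inv_mem hab, ?_⟩
    rw [← mul_smul]
    congr 1
    group)

theorem orbMap_mk (N : Subgroup Q) (r : Setoid Z)
    (hr : ∀ x y, r x y ↔ ∃ n ∈ N, n • x = y) (g : Q) (O : Quotient (MulAction.orbitRel Q Z)) :
    orbMap N r hr ((g : Q ⧸ N), O) = Quotient.mk r (g⁻¹ • O.out) := rfl

theorem orbMap_fiber (N : Subgroup Q) (r : Setoid Z)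
    (hr : ∀ x y, r x y ↔ ∃ n ∈ N, n • x = y) (w : Z)
    (p : (Q ⧸ N) × Quotient (MulAction.orbitRel Q Z)) (hp : orbMap N r hr p = Quotient.mk r w) :
    p.2 = Quotient.mk (MulAction.orbitRel Q Z) w ∧
      ∃ g : Q, (g : Q ⧸ N) = p.1 ∧ g • w = p.2.out := by
  obtain ⟨c, O⟩ := p
  induction c using QuotientGroup.induction_on with
  | H g =>
    rw [orbMap_mk] at hp
    have h : r (g⁻¹ • O.out) w := Quotient.exact hp
    rw [hr] at h
    obtain ⟨n, hn, h⟩ := h
    have h1 : (g * n⁻¹) • w = O.out := by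
      rw [← h, ← mul_smul, ← mul_smul]
      have : g * n⁻¹ * n * g⁻¹ = 1 := by group
      rw [this, one_smul]
    refine ⟨?_, g * n⁻¹, ?_, h1⟩
    · change O = _
      rw [← mk_smul_eq (g * n⁻¹) w, h1, Quotient.out_eq]
    · change ((g * n⁻¹ : Q) : Q ⧸ N) = (g : Q ⧸ N)
      rw [QuotientGroup.eq]
      have : (g * n⁻¹)⁻¹ * g = n := by group
      rw [this]
      exact hn

theorem card_fiber (N : Subgroup Q) (r : Setoid Z)
    (hr : ∀ x y, r x y ↔ ∃ n ∈ N, n • x = y) (w : Z) :
    Nat.card {p : (Q ⧸ N) × Quotient (MulAction.orbitRel Q Z) //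
      orbMap N r hr p = Quotient.mk r w} = N.relIndex (MulAction.stabilizer Q w) := by
  obtain ⟨g0, hg0⟩ := exists_smul_out (Q := Q) w
  symm
  rw [Subgroup.relIndex, Subgroup.index]
  refine Nat.card_congr (Equiv.ofBijective (fun c => Quotient.liftOn' c
    (fun h : MulAction.stabilizer Q w =>
      (⟨(((g0 * h : Q) : Q ⧸ N), Quotient.mk (MulAction.orbitRel Q Z) w), by
        rw [orbMap_mk, ← hg0, ← mul_smul]
        have e1 : (g0 * (h : Q))⁻¹ * g0 = ((h⁻¹ : MulAction.stabilizer Q w) : Q) := by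
          push_cast
          group
        rw [e1]
        have h2 : ((h⁻¹ : MulAction.stabilizer Q w) : Q) • w = w := (h⁻¹).2
        rw [h2]⟩ : {p : (Q ⧸ N) × Quotient (MulAction.orbitRel Q Z) //
      orbMap N r hr p = Quotient.mk r w})) ?_) ⟨?_, ?_⟩)
  · intro a b hab
    rw [QuotientGroup.leftRel_apply, Subgroup.mem_subgroupOf] at hab
    apply Subtype.ext
    apply Prod.ext
    · change ((g0 * (a : Q) : Q) : Q ⧸ N) = ((g0 * (b : Q) : Q) : Q ⧸ N)
      rw [QuotientGroup.eq]
      have : (g0 * (a : Q))⁻¹ * (g0 * (b : Q)) = ((a⁻¹ * b : MulAction.stabilizer Q w) : Q) := by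
        push_cast
        group
      rw [this]
      exact hab
    · rfl
  · intro c d
    induction c using QuotientGroup.induction_on with
    | H a =>
      induction d using QuotientGroup.induction_on with
      | H b =>
        intro h
        have h1 : ((g0 * (a : Q) : Q) : Q ⧸ N) = ((g0 * (b : Q) : Q) : Q ⧸ N) :=
          congrArg (fun x => x.1.1) h
        rw [QuotientGroup.eq] at h1
        rw [QuotientGroup.eq, Subgroup.mem_subgroupOf]
        have : (g0 * (a : Q))⁻¹ * (g0 * (b : Q)) = ((a⁻¹ * b : MulAction.stabilizer Q w) : Q) := by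
          push_cast
          group
        rw [← this]
        exact h1
  · rintro ⟨⟨c, O⟩, hp⟩
    obtain ⟨h1, g, h2, h3⟩ := orbMap_fiber N r hr w (c, O) hp
    simp only at h1 h2 h3
    subst h1
    subst h2
    refine ⟨((⟨g0⁻¹ * g, ?_⟩ : MulAction.stabilizer Q w) : _ ⧸ _), ?_⟩
    · rw [MulAction.mem_stabilizer_iff, mul_smul, h3, ← hg0, ← mul_smul]
      simp
    · apply Subtype.ext
      apply Prod.ext
      · change ((g0 * (g0⁻¹ * g) : Q) : Q ⧸ N) = (g : Q ⧸ N)
        congr 1
        group
      · rfl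

theorem orbit_sum (N : Subgroup Q) (r : Setoid Z)
    (hr : ∀ x y, r x y ↔ ∃ n ∈ N, n • x = y) [Fintype (Quotient r)]
    [Fintype (Quotient (MulAction.orbitRel Q Z))] (hN : N.index ≠ 0)
    (f : Quotient (MulAction.orbitRel Q Z) → ℕ) :
    ∑ ω : Quotient r, f (Quotient.mk _ ω.out) * N.relIndex (MulAction.stabilizer Q ω.out) =
      N.index * ∑ O, f O := by
  classical
  have : N.FiniteIndex := ⟨hN⟩
  have : Fintype (Q ⧸ N) := Fintype.ofFinite _
  have h1 : ∑ p : (Q ⧸ N) × Quotient (MulAction.orbitRel Q Z), f p.2 = N.index * ∑ O, f O := by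
    rw [Fintype.sum_prod_type]
    simp only [Finset.sum_const, Finset.card_univ, smul_eq_mul]
    rw [Subgroup.index, Nat.card_eq_fintype_card]
  rw [← h1, ← Finset.sum_fiberwise_of_maps_to (g := orbMap N r hr) (t := Finset.univ)
    (fun _ _ => Finset.mem_univ _)]
  apply Finset.sum_congr rfl
  intro ω _
  have h2 : ∀ p ∈ Finset.univ.filter (fun p => orbMap N r hr p = ω),
      f p.2 = f (Quotient.mk _ ω.out) := by
    intro p hp
    rw [Finset.mem_filter] at hp
    rw [(orbMap_fiber N r hr ω.out p (by rw [hp.2, Quotient.out_eq])).1]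
  rw [Finset.sum_congr rfl h2, Finset.sum_const, smul_eq_mul, mul_comm]
  congr 1
  rw [← card_fiber N r hr ω.out, Nat.card_eq_fintype_card, Fintype.card_subtype]
  congr 1
  ext p
  simp only [Finset.mem_filter, Finset.mem_univ, true_and]
  rw [Quotient.out_eq]

theorem finite_orbits (N : Subgroup Q) (r : Setoid Z)
    (hr : ∀ x y, r x y ↔ ∃ n ∈ N, n • x = y)
    [Finite (Quotient (MulAction.orbitRel Q Z))] (hN : N.index ≠ 0) : Finite (Quotient r) := by
  have : N.FiniteIndex := ⟨hN⟩
  apply Finite.of_surjective (orbMap N r hr)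
  intro ω
  induction ω using Quotient.inductionOn with
  | h w =>
    obtain ⟨g0, hg0⟩ := exists_smul_out (Q := Q) w
    refine ⟨((g0 : Q ⧸ N), Quotient.mk _ w), ?_⟩
    rw [orbMap_mk, ← hg0, ← mul_smul, inv_mul_cancel, one_smul]

end Orbits

theorem FreeOn.map {Q Q' I : Type} [Group Q] [Group Q'] {s : I → Q} (h : FreeOn s)
    (e : Q ≃* Q') : FreeOn (fun i => e (s i)) := by
  obtain ⟨h1, h3⟩ := h
  refine ⟨?_, ?_⟩
  · have : Set.range (fun i => e (s i)) = e.toMonoidHom '' Set.range s := by
      rw [← Set.range_comp]; rfl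
    rw [this, ← MonoidHom.map_closure, h1, ← MonoidHom.range_eq_map,
      MonoidHom.range_eq_top.2 e.surjective]
  · intro X _ x
    obtain ⟨F, hF⟩ := h3 x
    exact ⟨F.comp e.symm.toMonoidHom, fun i => by simp [hF]⟩

theorem InvFreeOn.ne_one {Q I : Type} [Group Q] {s : I → Q} (h : InvFreeOn s) (i : I) :
    s i ≠ 1 := by
  intro hi
  obtain ⟨F, hF⟩ := h.2.2 (fun _ : I => (Multiplicative.ofAdd (1 : ZMod 2))) (by
    intro _
    decide)
  have h1 := hF i
  rw [hi, map_one] at h1
  revert h1
  decide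

theorem InvFreeOn.conj_notMem {Q I : Type} [Group Q] {s : I → Q} (h : InvFreeOn s)
    {N : Subgroup Q} (htf : ∀ x ∈ N, x * x = 1 → x = 1) (i : I) (g : Q) :
    g * s i * g⁻¹ ∉ N := by
  intro hm
  have h1 : g * s i * g⁻¹ = 1 := by
    apply htf _ hm
    have : g * s i * g⁻¹ * (g * s i * g⁻¹) = g * (s i * s i) * g⁻¹ := by group
    rw [this, h.2.1]
    group
  apply h.ne_one i
  have : s i = g⁻¹ * (g * s i * g⁻¹) * g := by group
  rw [this, h1]
  group

theorem card_hom_congr {Q Q' : Type} [Group Q] [Group Q'] (e : Q ≃* Q') (X : Type) [Group X] :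
    Nat.card (Q →* X) = Nat.card (Q' →* X) := by
  refine Nat.card_congr ⟨fun f => f.comp e.symm.toMonoidHom, fun f => f.comp e.toMonoidHom, ?_, ?_⟩
  · intro f
    ext x
    simp
  · intro f
    ext x
    simp

/-- The numerical consequence of the two counting formulas. -/
theorem numeric_step {c i j r k : ℕ} (h1 : c * 2 ^ j = 2 ^ (j * r + 1))
    (h2 : c ^ 2 * 4 ^ i = 4 * 2 ^ (i * k)) : 2 * (j * r) + 2 * i = i * k + 2 * j := by
  have h3 : 2 ^ (2 * (j * r) + 2 + 2 * i) = 2 ^ (i * k + 2 + 2 * j) := by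
    calc 2 ^ (2 * (j * r) + 2 + 2 * i) = (2 ^ (j * r + 1)) ^ 2 * 2 ^ (2 * i) := by
          rw [← pow_mul, ← pow_add]
          congr 1
          ring
      _ = (c * 2 ^ j) ^ 2 * 2 ^ (2 * i) := by rw [h1]
      _ = (c ^ 2 * 4 ^ i) * 2 ^ (2 * j) := by
          rw [mul_pow, ← pow_mul, pow_mul 2 2 i, mul_comm j 2]
          norm_num
          ring
      _ = (4 * 2 ^ (i * k)) * 2 ^ (2 * j) := by rw [h2]
      _ = 2 ^ (i * k + 2 + 2 * j) := by
          rw [pow_add, pow_add]
          norm_num
          ring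
  have h4 := Nat.pow_right_injective (le_refl 2) h3
  omega

section Stab

variable {L U Z : Type} [Group L] [Group U] [MulAction L Z] [MulAction U Z]
  (LV : Subgroup L) (M : Subgroup U) (e : LV ≃* M)
  (hcompat : ∀ (x : LV) (z : Z), (x : L) • z = ((e x : M) : U) • z)

include hcompat in
theorem compat_symm (y : M) (z : Z) : (y : U) • z = ((e.symm y : LV) : L) • z := by
  rw [hcompat, e.apply_symm_apply]

/-- The two point stabilizers in the identified finite index subgroups. -/
def stabEquiv (z : Z) : LV.subgroupOf (MulAction.stabilizer L z) ≃*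
    M.subgroupOf (MulAction.stabilizer U z) where
  toFun x := ⟨⟨((e ⟨((x : MulAction.stabilizer L z) : L), x.2⟩ : M) : U), by
    rw [MulAction.mem_stabilizer_iff, ← hcompat]
    exact (x : MulAction.stabilizer L z).2⟩, (e _).2⟩
  invFun y := ⟨⟨((e.symm ⟨((y : MulAction.stabilizer U z) : U), y.2⟩ : LV) : L), by
    rw [MulAction.mem_stabilizer_iff, ← compat_symm LV M e hcompat]
    exact (y : MulAction.stabilizer U z).2⟩, (e.symm _).2⟩
  left_inv x := by
    apply Subtype.ext
    apply Subtype.ext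
    have h := congrArg Subtype.val
      (e.symm_apply_apply ⟨((x : MulAction.stabilizer L z) : L), x.2⟩)
    exact h
  right_inv y := by
    apply Subtype.ext
    apply Subtype.ext
    have h := congrArg Subtype.val
      (e.apply_symm_apply ⟨((y : MulAction.stabilizer U z) : U), y.2⟩)
    exact h
  map_mul' x y := by
    apply Subtype.ext
    apply Subtype.ext
    have h := congrArg Subtype.val (map_mul e ⟨((x : MulAction.stabilizer L z) : L), x.2⟩
      ⟨((y : MulAction.stabilizer L z) : L), y.2⟩)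
    exact h

end Stab

theorem fg_of_finiteIndex {G : Type} [Group G] (H : Subgroup G) (hH : H.index ≠ 0)
    (hfg : Group.FG H) : Group.FG G := by
  classical
  have : H.FiniteIndex := ⟨hH⟩
  have : Finite (G ⧸ H) := inferInstance
  rw [Group.fg_iff_subgroup_fg] at hfg
  obtain ⟨T, hT⟩ := hfg
  rw [Group.fg_iff]
  refine ⟨(T : Set G) ∪ Set.range (fun c : G ⧸ H => c.out), ?_,
    (Finset.finite_toSet T).union (Set.finite_range _)⟩
  rw [eq_top_iff]
  intro g _
  have h1 : H ≤ Subgroup.closure ((T : Set G) ∪ Set.range (fun c : G ⧸ H => c.out)) := by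
    rw [← hT]
    exact Subgroup.closure_mono Set.subset_union_left
  have h2 : (((g : G ⧸ H).out)⁻¹ * g) ∈ H := by
    rw [← QuotientGroup.eq, QuotientGroup.out_eq']
  have h3 : g = (g : G ⧸ H).out * (((g : G ⧸ H).out)⁻¹ * g) := by group
  rw [h3]
  exact mul_mem (Subgroup.subset_closure (Or.inr ⟨_, rfl⟩)) (h1 h2)

section Final

variable {L U S I Z : Type} [Group L] [Group U] [Fintype S] [Fintype I]
  [MulAction L Z] [MulAction U Z] (s : S → L) (hs : FreeOn s)
  (LV : Subgroup L) (hLV : LV.index ≠ 0) (M : Subgroup U) (hM : M.index ≠ 0) (e : LV ≃* M)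
  (hcompat : ∀ (x : LV) (z : Z), (x : L) • z = ((e x : M) : U) • z)
  (htf : ∀ x ∈ M, x * x = 1 → x = 1)

include hs hLV hM hcompat htf

omit [Fintype S] htf in
theorem stab_free (z : Z) (u3 : Fin 3 → MulAction.stabilizer U z) (hu3 : InvFreeOn u3) :
    ∃ (r : ℕ) (t : Fin r → MulAction.stabilizer L z), FreeOn t := by
  have hM' : M.FiniteIndex := ⟨hM⟩
  have hL' : LV.FiniteIndex := ⟨hLV⟩
  have h1 : Group.FG (MulAction.stabilizer U z) := by
    rw [Group.fg_iff]
    exact ⟨_, hu3.1, Set.finite_range _⟩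
  have h2 : Group.FG (M.subgroupOf (MulAction.stabilizer U z)) := inferInstance
  have h3 : Group.FG (LV.subgroupOf (MulAction.stabilizer L z)) :=
    Group.fg_of_surjective (f := (stabEquiv LV M e hcompat z).symm.toMonoidHom)
      (stabEquiv LV M e hcompat z).symm.surjective
  have h4 : Group.FG (MulAction.stabilizer L z) :=
    fg_of_finiteIndex (LV.subgroupOf (MulAction.stabilizer L z)) Subgroup.FiniteIndex.index_ne_zero
      h3
  exact nielsen s hs (MulAction.stabilizer L z) ((Group.fg_iff_subgroup_fg _).1 h4)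

omit [Fintype S] hs in
theorem stab_count (z : Z) (u3 : Fin 3 → MulAction.stabilizer U z) (hu3 : InvFreeOn u3) {r : ℕ}
    (t : Fin r → MulAction.stabilizer L z) (ht : FreeOn t) :
    2 * (LV.relIndex (MulAction.stabilizer L z) * r) =
      M.relIndex (MulAction.stabilizer U z) + 2 * LV.relIndex (MulAction.stabilizer L z) ∧
      0 < LV.relIndex (MulAction.stabilizer L z) ∧ 0 < M.relIndex (MulAction.stabilizer U z) := by
  have hM' : M.FiniteIndex := ⟨hM⟩
  have hL' : LV.FiniteIndex := ⟨hLV⟩
  have i1 : (LV.subgroupOf (MulAction.stabilizer L z)).index ≠ 0 :=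
    Subgroup.FiniteIndex.index_ne_zero
  have i2 : (M.subgroupOf (MulAction.stabilizer U z)).index ≠ 0 :=
    Subgroup.FiniteIndex.index_ne_zero
  have h1 := count_free t ht (LV.subgroupOf (MulAction.stabilizer L z)) i1
  have h2 := count_inv u3 hu3 (M.subgroupOf (MulAction.stabilizer U z)) i2
    (hu3.conj_notMem (by
      intro x hx hxx
      apply Subtype.ext
      exact htf x hx (congrArg Subtype.val hxx)))
  rw [card_hom_congr (stabEquiv LV M e hcompat z)] at h1
  rw [Fintype.card_fin] at h1 h2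
  have h3 := numeric_step h1 h2
  change 2 * ((LV.subgroupOf (MulAction.stabilizer L z)).index * r) =
      (M.subgroupOf (MulAction.stabilizer U z)).index +
        2 * (LV.subgroupOf (MulAction.stabilizer L z)).index ∧
      0 < (LV.subgroupOf (MulAction.stabilizer L z)).index ∧
        0 < (M.subgroupOf (MulAction.stabilizer U z)).index
  omega

theorem final_count (hI : Fintype.card I = 6) (u : I → U) (hu : InvFreeOn u)
    (horb : Nat.card (MulAction.orbitRel.Quotient U Z) = 2)
    (hfix : ∀ i : S, ∃ z : Z, s i • z = z)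
    (hstab : ∀ z : Z, ∃ u3 : Fin 3 → MulAction.stabilizer U z, InvFreeOn u3) : False := by
  classical
  have hM' : M.FiniteIndex := ⟨hM⟩
  have hL' : LV.FiniteIndex := ⟨hLV⟩
  -- the global count
  have hglob : 2 * (LV.index * Fintype.card S) = 4 * M.index + 2 * LV.index := by
    have h1 := count_free s hs LV hLV
    have h2 := count_inv u hu M hM (hu.conj_notMem htf)
    rw [card_hom_congr e] at h1
    have h3 := numeric_step h1 h2
    rw [hI] at h3
    omega
  -- the common orbit relation
  have hrM : ∀ x y : Z, MulAction.orbitRel M Z x y ↔ ∃ n ∈ M, n • x = y := by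
    intro x y
    rw [MulAction.orbitRel_apply, MulAction.mem_orbit_iff]
    constructor
    · rintro ⟨n, hn⟩
      refine ⟨(n : U)⁻¹, M.inv_mem n.2, ?_⟩
      rw [inv_smul_eq_iff]
      exact hn.symm
    · rintro ⟨n, hn, h⟩
      refine ⟨⟨n⁻¹, M.inv_mem hn⟩, ?_⟩
      change n⁻¹ • y = x
      rw [inv_smul_eq_iff]
      exact h.symm
  have hrL : ∀ x y : Z, MulAction.orbitRel M Z x y ↔ ∃ n ∈ LV, n • x = y := by
    intro x y
    rw [hrM]
    constructor
    · rintro ⟨n, hn, h⟩
      exact ⟨_, (e.symm ⟨n, hn⟩).2, by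
        rw [← compat_symm LV M e hcompat ⟨n, hn⟩ x]
        exact h⟩
    · rintro ⟨n, hn, h⟩
      exact ⟨_, (e ⟨n, hn⟩).2, by
        rw [← hcompat ⟨n, hn⟩ x]
        exact h⟩
  have hfinU : Finite (Quotient (MulAction.orbitRel U Z)) := by
    apply (Nat.card_ne_zero.1 _).2
    change Nat.card (MulAction.orbitRel.Quotient U Z) ≠ 0
    omega
  have hfinM : Finite (Quotient (MulAction.orbitRel M Z)) :=
    finite_orbits M (MulAction.orbitRel M Z) hrM hM
  have hfinL : Finite (Quotient (MulAction.orbitRel L Z)) := by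
    apply Finite.of_surjective (fun ω : Quotient (MulAction.orbitRel M Z) =>
      Quotient.mk (MulAction.orbitRel L Z) ω.out)
    intro O
    refine ⟨Quotient.mk _ O.out, ?_⟩
    have h1 : MulAction.orbitRel M Z (Quotient.mk (MulAction.orbitRel M Z) O.out).out O.out :=
      Quotient.mk_out (s := MulAction.orbitRel M Z) O.out
    rw [hrL] at h1
    obtain ⟨n, -, hn⟩ := h1
    change Quotient.mk (MulAction.orbitRel L Z)
      (Quotient.mk (MulAction.orbitRel M Z) O.out).out = O
    rw [← mk_smul_eq n, hn, Quotient.out_eq]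
  have := Fintype.ofFinite (Quotient (MulAction.orbitRel U Z))
  have := Fintype.ofFinite (Quotient (MulAction.orbitRel M Z))
  have := Fintype.ofFinite (Quotient (MulAction.orbitRel L Z))
  -- the ranks of the stabilizers
  have hr : ∀ O : Quotient (MulAction.orbitRel L Z), ∃ (r : ℕ)
      (t : Fin r → MulAction.stabilizer L O.out), FreeOn t := by
    intro O
    obtain ⟨u3, hu3⟩ := hstab O.out
    exact stab_free s hs LV hLV M hM e hcompat O.out u3 hu3
  choose r t ht using hr
  have htr : ∀ z : Z, ∃ t' : Fin (r (Quotient.mk _ z)) → MulAction.stabilizer L z,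
      FreeOn t' := by
    intro z
    obtain ⟨g, hg⟩ := exists_smul_out (Q := L) z
    have E := (MulAction.stabilizerEquivStabilizer (G := L) (g := g) (a := z) hg.symm).symm
    exact ⟨_, (ht (Quotient.mk _ z)).map E⟩
  have hrz : ∀ z : Z, 2 * ((r (Quotient.mk _ z) - 1) * LV.relIndex (MulAction.stabilizer L z)) =
      M.relIndex (MulAction.stabilizer U z) ∧ 2 ≤ r (Quotient.mk _ z) := by
    intro z
    obtain ⟨t', ht'⟩ := htr z
    obtain ⟨u3, hu3⟩ := hstab z
    obtain ⟨h1, h2, h3⟩ := stab_count LV hLV M hM e hcompat htf z u3 hu3 t' ht'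
    set j := LV.relIndex (MulAction.stabilizer L z)
    set i := M.relIndex (MulAction.stabilizer U z)
    set ρ := r (Quotient.mk _ z)
    have h4 : 2 ≤ ρ := by
      by_contra hlt
      have h5 : ρ ≤ 1 := by omega
      have h6 : j * ρ ≤ j * 1 := Nat.mul_le_mul_left _ h5
      omega
    obtain ⟨k, hk⟩ : ∃ k, ρ = k + 1 := ⟨ρ - 1, by omega⟩
    refine ⟨?_, h4⟩
    rw [hk] at h1 ⊢
    rw [Nat.add_sub_cancel]
    have : j * (k + 1) = k * j + j := by ring
    rw [this] at h1
    omega
  -- the orbit sums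
  have s1 : ∑ ω : Quotient (MulAction.orbitRel M Z),
      M.relIndex (MulAction.stabilizer U ω.out) = M.index * 2 := by
    have h1 := orbit_sum M (MulAction.orbitRel M Z) hrM hM (fun _ => 1)
    simp only [one_mul, Finset.sum_const, Finset.card_univ, smul_eq_mul, mul_one] at h1
    rw [h1]
    congr 1
    rw [← Nat.card_eq_fintype_card]
    exact horb
  have s2 := orbit_sum LV (MulAction.orbitRel M Z) hrL hLV (fun O => r O - 1)
  have s3 : 2 * (LV.index * ∑ O, (r O - 1)) = M.index * 2 := by
    rw [← s2, ← s1, Finset.mul_sum]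
    exact Finset.sum_congr rfl fun ω _ => (hrz ω.out).1
  have s4 : 2 * ∑ O, (r O - 1) + 1 = Fintype.card S := by
    have hpos : 0 < LV.index := Nat.pos_of_ne_zero hLV
    apply Nat.eq_of_mul_eq_mul_left hpos
    have : LV.index * (2 * ∑ O, (r O - 1) + 1) =
        2 * (LV.index * ∑ O, (r O - 1)) + LV.index := by ring
    rw [this]
    omega
  have s5 : ∑ O, r O ≤ 2 * ∑ O, (r O - 1) := by
    rw [Finset.mul_sum]
    apply Finset.sum_le_sum
    intro O _
    have := (hrz O.out).2
    rw [Quotient.out_eq] at this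
    omega
  -- the restriction map is injective
  have s6 : Fintype.card S ≤ ∑ O, r O := by
    choose F hF using fun x : S → Multiplicative (ZMod 2) => hs.2 x
    let Φ : (S → Multiplicative (ZMod 2)) →
        ((p : Σ O : Quotient (MulAction.orbitRel L Z), Fin (r O)) → Multiplicative (ZMod 2)) :=
      fun x p => F x (t p.1 p.2)
    have hinj : Function.Injective Φ := by
      intro x y hxy
      have h1 : ∀ (O : Quotient (MulAction.orbitRel L Z)) (g : L),
          g • O.out = O.out → F x g = F y g := by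
        intro O g hg
        have h2 : (F x).comp (MulAction.stabilizer L O.out).subtype =
            (F y).comp (MulAction.stabilizer L O.out).subtype := by
          apply MonoidHom.eq_of_eqOn_dense (ht O).1
          rintro _ ⟨i, rfl⟩
          exact congrFun hxy ⟨O, i⟩
        exact DFunLike.congr_fun h2 ⟨g, hg⟩
      funext i
      rw [← hF x i, ← hF y i]
      obtain ⟨z, hz⟩ := hfix i
      obtain ⟨g, hg⟩ := exists_smul_out (Q := L) z
      have h3 := h1 (Quotient.mk _ z) (g * s i * g⁻¹) (by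
        rw [← hg, ← mul_smul, inv_mul_cancel_right, mul_smul, hz])
      rw [map_mul, map_mul, map_inv, map_mul, map_mul, map_inv,
        mul_comm (F x g), mul_comm (F y g), mul_inv_cancel_right, mul_inv_cancel_right] at h3
      exact h3
    have h5 := Fintype.card_le_of_injective Φ hinj
    rw [Fintype.card_fun, Fintype.card_fun, Fintype.card_sigma] at h5
    have h6 : Fintype.card (Multiplicative (ZMod 2)) = 2 := by decide
    rw [h6] at h5
    simp only [Fintype.card_fin] at h5
    exact (Nat.pow_le_pow_iff_right (by norm_num)).1 h5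
  omega

end Final

end Pool.Agent.Lib.MP_c91b70_al
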