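import Pool.Agent.Lib.MP_c91b70_al.CosetTree

/-!
# General facts on graph products obtained from the trees of the vertex splittings
-/

set_option autoImplicit false
set_option linter.unusedSectionVars false

namespace Pool.Agent.Lib.MP_c91b70_al

namespace GraphProd

variable {V : Type} {Δ : SimpleGraph V} {G : V → Type} [∀ v, Group (G v)]
  {P : Type} [Group P] (D : GraphProd Δ G P)

/-- Vertices of the tree of `v`. -/
abbrev Tr (v : V) : Type := CosetV (D.fac v)

noncomputable abbrev td (v : V) : D.Tr v → D.Tr v → ℕ := cdist (D.fac v)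

theorem isTree (v : V) : (cosetGraph (D.fac v)).IsTree :=
  coset_isTree (D.lk_le_fac v) (D.fac_sup v) (fun _ _ h => D.alt_not_mem v h)

theorem tm (v : V) : TreeMetric (D.td v) := treeMetric_of_isTree (D.isTree v)

theorem td_smul (v : V) (g : P) (x y : D.Tr v) : D.td v (g • x) (g • y) = D.td v x y :=
  cdist_smul (D.fac v) (D.fac_sup v) g x y

theorem td_even (v : V) (g : P) (y : D.Tr v) : Even (D.td v y (g • y)) := by
  have key : ∀ (u w : D.Tr v) (p : (cosetGraph (D.fac v)).Walk u w),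
      (Even p.length ↔ u.1 = w.1) := by
    intro u w p
    induction p with
    | nil => simp
    | @cons u u1 w h q ih =>
      rw [SimpleGraph.Walk.length_cons, Nat.even_add_one, ih]
      obtain ⟨b, g, h1, h2⟩ := h
      rw [h1, h2]
      change (¬ ((!b) = w.1)) ↔ (b = w.1)
      generalize w.1 = c
      cases b <;> cases c <;> simp
  obtain ⟨p, hp⟩ := (D.isTree v).connected.exists_walk_length_eq_dist y (g • y)
  have h1 := (key _ _ p).2 (by rfl)
  rw [hp] at h1
  exact h1

instance (v : V) : Nonempty (D.Tr v) := ⟨vert (D.fac v) false 1⟩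

theorem edge_stab (v : V) {y z : D.Tr v} (h : D.td v y z = 1) :
    ∃ g : P, ∀ k : P, k • y = y → k • z = z → g⁻¹ * k * g ∈ D.par (lk Δ v) := by
  obtain ⟨b, g, rfl, rfl⟩ := (cdist_one (D.fac v)).1 h
  refine ⟨g, fun k h1 h2 => ?_⟩
  rw [smul_vert_eq] at h1 h2
  rw [← D.fac_inf v]
  cases b
  · exact ⟨h1, h2⟩
  · exact ⟨h2, h1⟩

theorem fix_two (v : V) {y z : D.Tr v} (h : y ≠ z) :
    ∃ g : P, ∀ k : P, k • y = y → k • z = z → g⁻¹ * k * g ∈ D.par (lk Δ v) := by
  obtain ⟨w, hw1, hw2⟩ := (D.tm v).exists_edge (D.td_smul v) h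
  obtain ⟨g, hg⟩ := D.edge_stab v hw1
  exact ⟨g, fun k h1 h2 => hg k h1 (hw2 k h1 h2)⟩

theorem fix_edge_at_B (v : V) {y : D.Tr v} {g : P} (h : vert (D.fac v) true g ≠ y) :
    ∃ a : P, (∃ b ∈ D.fac v true, a = g * b) ∧
      ∀ k : P, k • vert (D.fac v) true g = vert (D.fac v) true g → k • y = y →
        a⁻¹ * k * a ∈ D.par (lk Δ v) := by
  obtain ⟨w, hw1, hw2⟩ := (D.tm v).exists_edge (D.td_smul v) h
  obtain ⟨b, a, e1, e2⟩ := (cdist_one (D.fac v)).1 hw1
  have hb : b = true := (vert_fst _ e1).symm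
  subst hb
  refine ⟨a, ⟨g⁻¹ * a, (vert_eq _).1 e1, by group⟩, fun k h1 h2 => ?_⟩
  have h3 := hw2 k h1 h2
  rw [e2, smul_vert_eq] at h3
  rw [e1, smul_vert_eq] at h1
  rw [← D.fac_inf v]
  exact ⟨h3, h1⟩

/-- A nontrivial element of a conjugate of a vertex group fixes only one vertex. -/
theorem fix_unique (v : V) {x : G v} (hx : x ≠ 1) {g : P} {y : D.Tr v}
    (h : (g * D.of v x * g⁻¹) • y = y) : y = vert (D.fac v) true g := by
  by_contra hne
  obtain ⟨a, -, ha⟩ := D.fix_edge_at_B v (Ne.symm hne)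
  have h1 := ha _ (by
    rw [smul_vert_eq]
    have : g⁻¹ * (g * D.of v x * g⁻¹) * g = D.of v x := by group
    rw [this]
    exact D.of_mem_par (Set.mem_insert _ _) x) h
  have h2 := D.proj_par (not_mem_lk v) h1
  apply hx
  simp only [map_mul, map_inv, D.proj_self] at h2
  have h3 : (D.proj v a)⁻¹ * (D.proj v g * x * (D.proj v g)⁻¹) * D.proj v a
      = ((D.proj v g)⁻¹ * D.proj v a)⁻¹ * x * ((D.proj v g)⁻¹ * D.proj v a) := by group
  rw [h3] at h2
  have h4 : x = ((D.proj v g)⁻¹ * D.proj v a) *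
    (((D.proj v g)⁻¹ * D.proj v a)⁻¹ * x * ((D.proj v g)⁻¹ * D.proj v a)) *
    ((D.proj v g)⁻¹ * D.proj v a)⁻¹ := by group
  rw [h4, h2]
  group

theorem fix_base (v : V) (x : G v) (g : P) :
    (g * D.of v x * g⁻¹) • vert (D.fac v) true g = vert (D.fac v) true g := by
  rw [smul_vert_eq]
  have : g⁻¹ * (g * D.of v x * g⁻¹) * g = D.of v x := by group
  rw [this]
  exact D.of_mem_par (Set.mem_insert _ _) x

/-- Centralisers of elements of vertex groups. -/
theorem centralizer_of (v : V) {x : G v} (hx : x ≠ 1) {g k : P}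
    (h : Commute k (g * D.of v x * g⁻¹)) : g⁻¹ * k * g ∈ D.par (st Δ v) := by
  have h1 : k • vert (D.fac v) true g = vert (D.fac v) true g := by
    apply D.fix_unique v hx
    rw [← mul_smul, ← h.eq, mul_smul, D.fix_base]
  rwa [smul_vert_eq] at h1

/-- Two conjugates of vertex groups meeting nontrivially. -/
theorem conj_of_inter {v w : V} {x : G v} (hx : x ≠ 1) {y : G w} {g h : P}
    (e : g * D.of v x * g⁻¹ = h * D.of w y * h⁻¹) : v = w ∧ g⁻¹ * h ∈ D.par (st Δ v) := by
  have hvw : v = w := by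
    by_contra hne
    have h1 := congrArg (D.proj v) e
    simp only [map_mul, map_inv, D.proj_self, D.proj_ne (Ne.symm hne)] at h1
    apply hx
    have : x = (D.proj v g)⁻¹ * (D.proj v g * x * (D.proj v g)⁻¹) * D.proj v g := by group
    rw [this, h1]; group
  subst hvw
  refine ⟨rfl, ?_⟩
  have h1 : vert (D.fac v) true h = vert (D.fac v) true g := by
    apply D.fix_unique v hx
    rw [e]
    exact D.fix_base v y h
  exact (vert_eq _).1 h1.symm

section Independent

variable [DecidableEq V]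

theorem conj_cases (S : Finset V) (c : V) (b : Bool) (a x : P) (hx : x ∈ D.par (S : Set V))
    (h : a⁻¹ * x * a ∈ D.fac c b) :
    (b = false → (D.ret (S : Set V) a)⁻¹ * x * D.ret (S : Set V) a ∈ D.par ((S.erase c : Finset V) : Set V)) ∧
    (b = true → (D.ret (S : Set V) a)⁻¹ * x * D.ret (S : Set V) a ∈ D.par ((S : Set V) ∩ st Δ c)) := by
  constructor
  · rintro rfl
    have := D.conj_mem hx h
    have e : (S : Set V) ∩ {c}ᶜ = ((S.erase c : Finset V) : Set V) := by
      ext w; simp [and_comm]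
    rw [← e]
    exact this
  · rintro rfl
    exact D.conj_mem hx h

/-- Torsion-freeness. -/
theorem torsionFree (htf : ∀ v (x : G v) (n : ℕ), n ≠ 0 → x ^ n = 1 → x = 1) (S : Finset V) :
    ∀ (x : P) (n : ℕ), x ∈ D.par (S : Set V) → n ≠ 0 → x ^ n = 1 → x = 1 := by
  induction S using Finset.strongInduction with
  | _ S ih =>
  intro x n hx hn hxn
  rcases S.eq_empty_or_nonempty with rfl | ⟨c, hc⟩
  · rw [Finset.coe_empty, D.par_empty] at hx
    exact hx
  have hcerase : S.erase c ⊂ S := Finset.erase_ssubset hc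
  obtain ⟨y, hy⟩ := (D.tm c).elliptic_of_pow (D.td_smul c) (D.td_even c) hn hxn
  obtain ⟨b, a, rfl⟩ := exists_rep _ y
  rw [smul_vert_eq] at hy
  obtain ⟨h1, h2⟩ := D.conj_cases S c b a x hx hy
  set r := D.ret (S : Set V) a with hr
  have hpow : (r⁻¹ * x * r) ^ n = 1 := by
    have : r⁻¹ * x * r = r⁻¹ * x * r⁻¹⁻¹ := by rw [inv_inv]
    rw [this, conj_pow, hxn]; group
  have hfin : r⁻¹ * x * r = 1 → x = 1 := by
    intro h
    have : x = r * (r⁻¹ * x * r) * r⁻¹ := by group
    rw [this, h]; group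
  apply hfin
  cases b
  · exact ih _ hcerase _ n (h1 rfl) hn hpow
  · have h3 := h2 rfl
    have h4 : r⁻¹ * x * r ∈ D.par (st Δ c) := D.par_mono Set.inter_subset_right h3
    obtain ⟨g, k, hk, e⟩ := D.mem_par_st h4
    have hg : g = 1 := by
      apply htf c g n hn
      have := congrArg (D.proj c) hpow
      rw [e, map_pow, map_mul, D.proj_self, D.proj_par (not_mem_lk c) hk, mul_one, map_one] at this
      exact this
    rw [hg, map_one, one_mul] at e
    apply ih _ hcerase _ n _ hn hpow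
    have h5 := D.mem_par_inter h3 (e ▸ hk : r⁻¹ * x * r ∈ D.par (lk Δ c))
    refine D.par_mono ?_ h5
    rintro w ⟨⟨hw1, -⟩, hw2⟩
    simp only [Finset.coe_erase]
    refine ⟨hw1, ?_⟩
    rintro (rfl : w = c)
    exact not_mem_lk _ hw2

/-- In an independent parabolic, elements of conjugates of `par (lk c)` are trivial. -/
theorem indep_trivial (S : Set V) (c : V) (hc : ∀ w ∈ S, ¬ Δ.Adj c w) {a x : P}
    (hx : x ∈ D.par S) (h : a⁻¹ * x * a ∈ D.par (lk Δ c)) : x = 1 := by
  have h1 := D.conj_mem hx h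
  have : S ∩ lk Δ c = ∅ := by
    ext w
    simp only [Set.mem_inter_iff, Set.mem_empty_iff_false, iff_false, not_and]
    exact fun hw => hc w hw
  rw [this, D.par_empty, Subgroup.mem_bot] at h1
  have e : x = D.ret S a * ((D.ret S a)⁻¹ * x * D.ret S a) * (D.ret S a)⁻¹ := by group
  rw [e, h1]; group

theorem indep_inter_st (S : Set V) (c : V) (hcS : c ∈ S) (hc : ∀ w ∈ S, ¬ Δ.Adj c w) :
    S ∩ st Δ c = {c} := by
  ext w
  simp only [st, Set.mem_inter_iff, Set.mem_insert_iff, Set.mem_singleton_iff]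
  constructor
  · rintro ⟨h1, h2 | h2⟩
    · exact h2
    · exact absurd h2 (hc w h1)
  · rintro rfl
    exact ⟨hcS, Or.inl rfl⟩

/-- Commutative transitivity of the group `X`. -/
def CT (X : Type) [Group X] : Prop :=
  ∀ a b g : X, ¬ Commute a b → Commute a g → Commute b g → g = 1

theorem conj_commute {a b r : P} (h : Commute a b) : Commute (r⁻¹ * a * r) (r⁻¹ * b * r) := by
  have h1 : a * b = b * a := h
  change r⁻¹ * a * r * (r⁻¹ * b * r) = r⁻¹ * b * r * (r⁻¹ * a * r)
  have e1 : r⁻¹ * a * r * (r⁻¹ * b * r) = r⁻¹ * (a * b) * r := by group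
  have e2 : r⁻¹ * b * r * (r⁻¹ * a * r) = r⁻¹ * (b * a) * r := by group
  rw [e1, e2, h1]

theorem conj_commute_iff {a b r : P} : Commute (r⁻¹ * a * r) (r⁻¹ * b * r) ↔ Commute a b := by
  constructor
  · intro h
    have := conj_commute (r := r⁻¹) h
    have e1 : (r⁻¹)⁻¹ * (r⁻¹ * a * r) * r⁻¹ = a := by group
    have e2 : (r⁻¹)⁻¹ * (r⁻¹ * b * r) * r⁻¹ = b := by group
    rwa [e1, e2] at this
  · exact conj_commute

theorem conj_eq_one {x r : P} (h : r⁻¹ * x * r = 1) : x = 1 := by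
  have : x = r * (r⁻¹ * x * r) * r⁻¹ := by group
  rw [this, h]; group

/-- Unique fixed vertices in independent parabolics. -/
theorem indep_fix (S : Set V) (c : V) (hc : ∀ w ∈ S, ¬ Δ.Adj c w) {x : P}
    (hx : x ∈ D.par S) (hx1 : x ≠ 1) {y : D.Tr c} (hy : x • y = y) {k : P} (hk : Commute k x) :
    k • y = y := by
  by_contra hne
  obtain ⟨g, hg⟩ := D.fix_two c (y := y) (z := k • y) (Ne.symm hne)
  apply hx1
  apply D.indep_trivial S c hc hx (hg x hy ?_)
  rw [← mul_smul, ← hk.eq, mul_smul, hy]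

/-- Commutative transitivity for independent parabolics. -/
theorem indep_CT (hCT : ∀ v, CT (G v)) (S : Finset V)
    (hS : ∀ v ∈ S, ∀ w ∈ S, ¬ Δ.Adj v w) :
    ∀ a b g : P, a ∈ D.par (S : Set V) → b ∈ D.par (S : Set V) → g ∈ D.par (S : Set V) →
      ¬ Commute a b → Commute a g → Commute b g → g = 1 := by
  induction S using Finset.strongInduction with
  | _ S ih =>
  intro a b g ha hb hg hab hag hbg
  rcases S.eq_empty_or_nonempty with rfl | ⟨c, hc⟩
  · rw [Finset.coe_empty, D.par_empty] at hg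
    exact hg
  by_contra hg1
  have hcS : ∀ w ∈ (S : Set V), ¬ Δ.Adj c w := fun w hw => hS c hc w hw
  by_cases hhyp : ∀ y : D.Tr c, g • y ≠ y
  · obtain ⟨p, z, h1, h2⟩ := (D.tm c).hyper_comm (D.td_smul c) (D.td_even c) hhyp
    obtain ⟨h3, h4⟩ := h2 a b hag hbg
    obtain ⟨e, he⟩ := D.edge_stab c h1
    have h5 := D.indep_trivial (S : Set V) c hcS
      (mul_mem (mul_mem (mul_mem ha hb) (inv_mem ha)) (inv_mem hb)) (he _ h3 h4)
    apply hab
    change a * b = b * a
    have : a * b = (a * b * a⁻¹ * b⁻¹) * (b * a) := by group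
    rw [this, h5, one_mul]
  · push Not at hhyp
    obtain ⟨y, hy⟩ := hhyp
    have hay := D.indep_fix (S : Set V) c hcS hg hg1 hy hag
    have hby := D.indep_fix (S : Set V) c hcS hg hg1 hy hbg
    obtain ⟨β, x, rfl⟩ := exists_rep _ y
    rw [smul_vert_eq] at hy hay hby
    obtain ⟨g1, g2⟩ := D.conj_cases S c β x g hg hy
    obtain ⟨a1, a2⟩ := D.conj_cases S c β x a ha hay
    obtain ⟨b1, b2⟩ := D.conj_cases S c β x b hb hby
    set r := D.ret (S : Set V) x
    apply hg1
    apply conj_eq_one (r := r)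
    have k1 : ¬ Commute (r⁻¹ * a * r) (r⁻¹ * b * r) := fun h => hab (conj_commute_iff.1 h)
    have k2 : Commute (r⁻¹ * a * r) (r⁻¹ * g * r) := conj_commute hag
    have k3 : Commute (r⁻¹ * b * r) (r⁻¹ * g * r) := conj_commute hbg
    cases β
    · exact ih _ (Finset.erase_ssubset hc)
        (fun v hv w hw => hS v (Finset.mem_of_mem_erase hv) w (Finset.mem_of_mem_erase hw))
        _ _ _ (a1 rfl) (b1 rfl) (g1 rfl) k1 k2 k3
    · have eS := indep_inter_st (Δ := Δ) (S : Set V) c hc hcS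
      have a3 := a2 rfl
      have b3 := b2 rfl
      have g3 := g2 rfl
      rw [eS, D.par_singleton] at a3 b3 g3
      obtain ⟨a', ha'⟩ := a3
      obtain ⟨b', hb'⟩ := b3
      obtain ⟨g', hg'⟩ := g3
      rw [← ha', ← hb'] at k1
      rw [← ha', ← hg'] at k2
      rw [← hb', ← hg'] at k3
      have inj := D.of_injective c
      have : g' = 1 := by
        apply hCT c a' b' g'
        · intro h; exact k1 (h.map _)
        · exact inj (by rw [map_mul, map_mul]; exact k2.eq)
        · exact inj (by rw [map_mul, map_mul]; exact k3.eq)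
      rw [← hg', this, map_one]

/-- Common powers in independent parabolics over groups with torsion elements only. -/
theorem indep_pow (htors : ∀ v (x : G v), ∃ n : ℕ, n ≠ 0 ∧ x ^ n = 1) (S : Finset V)
    (hS : ∀ v ∈ S, ∀ w ∈ S, ¬ Δ.Adj v w) :
    ∀ x y : P, x ∈ D.par (S : Set V) → y ∈ D.par (S : Set V) → (∀ n : ℕ, n ≠ 0 → x ^ n ≠ 1) →
      Commute y x → ∃ m n : ℤ, m ≠ 0 ∧ y ^ m * x ^ n = 1 := by
  induction S using Finset.strongInduction with
  | _ S ih =>
  intro x y hx hy hinf hcomm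
  rcases S.eq_empty_or_nonempty with rfl | ⟨c, hc⟩
  · rw [Finset.coe_empty, D.par_empty, Subgroup.mem_bot] at hx
    exact absurd (by rw [hx, one_pow]) (hinf 1 one_ne_zero)
  have hcS : ∀ w ∈ (S : Set V), ¬ Δ.Adj c w := fun w hw => hS c hc w hw
  by_cases hhyp : ∀ z : D.Tr c, x • z ≠ z
  · obtain ⟨p, z, h1, h2⟩ := (D.tm c).hyper_pow (D.td_smul c) (D.td_even c) hhyp
    obtain ⟨m, n, hm, h3, h4⟩ := h2 y hcomm
    obtain ⟨e, he⟩ := D.edge_stab c h1
    exact ⟨m, n, hm, D.indep_trivial (S : Set V) c hcS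
      (mul_mem (zpow_mem hy m) (zpow_mem hx n)) (he _ h3 h4)⟩
  · push Not at hhyp
    obtain ⟨z, hz⟩ := hhyp
    have hx1 : x ≠ 1 := fun h => hinf 1 one_ne_zero (by rw [h, one_pow])
    have hyz := D.indep_fix (S : Set V) c hcS hx hx1 hz hcomm
    obtain ⟨β, a, rfl⟩ := exists_rep _ z
    rw [smul_vert_eq] at hz hyz
    obtain ⟨x1, x2⟩ := D.conj_cases S c β a x hx hz
    obtain ⟨y1, y2⟩ := D.conj_cases S c β a y hy hyz
    set r := D.ret (S : Set V) a
    have hconjpow : ∀ (u : P) (n : ℕ), (r⁻¹ * u * r) ^ n = r⁻¹ * u ^ n * r := by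
      intro u n
      have : r⁻¹ * u * r = r⁻¹ * u * r⁻¹⁻¹ := by rw [inv_inv]
      rw [this, conj_pow, inv_inv]
    have hconjzpow : ∀ (u : P) (n : ℤ), (r⁻¹ * u * r) ^ n = r⁻¹ * u ^ n * r := by
      intro u n
      have : r⁻¹ * u * r = r⁻¹ * u * r⁻¹⁻¹ := by rw [inv_inv]
      rw [this, conj_zpow, inv_inv]
    have hinf' : ∀ n : ℕ, n ≠ 0 → (r⁻¹ * x * r) ^ n ≠ 1 := by
      intro n hn h
      rw [hconjpow] at h
      exact hinf n hn (conj_eq_one h)
    cases β
    · obtain ⟨m, n, hm, h⟩ := ih _ (Finset.erase_ssubset hc)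
        (fun v hv w hw => hS v (Finset.mem_of_mem_erase hv) w (Finset.mem_of_mem_erase hw))
        _ _ (x1 rfl) (y1 rfl) hinf' (conj_commute hcomm)
      refine ⟨m, n, hm, conj_eq_one (r := r) ?_⟩
      rw [hconjzpow, hconjzpow] at h
      rw [← h]; group
    · exfalso
      have eS := indep_inter_st (Δ := Δ) (S : Set V) c hc hcS
      have x3 := x2 rfl
      rw [eS, D.par_singleton] at x3
      obtain ⟨x', hx'⟩ := x3
      obtain ⟨n, hn, hn1⟩ := htors c x'
      apply hinf' n hn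
      rw [← hx', ← map_pow, hn1, map_one]

end Independent

end GraphProd

end Pool.Agent.Lib.MP_c91b70_al
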