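import Mathlib

/-!
# Graph products, characterised by their universal property

`GraphProd Δ G P` says that the group `P` is the graph product of the groups `G v` over the
graph `Δ`.  We develop parabolic subgroups, retractions and projections to the vertex groups.
-/

set_option autoImplicit false

namespace Pool.Agent.Lib.MP_c91b70_al

open Classical in
/-- `P` is the graph product over `Δ` of the groups `G v`. -/
structure GraphProd {V : Type} (Δ : SimpleGraph V) (G : V → Type) [∀ v, Group (G v)]
    (P : Type) [Group P] where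
  of : ∀ v, G v →* P
  comm : ∀ {v w}, Δ.Adj v w → ∀ g h, Commute (of v g) (of w h)
  gen : ⨆ v, (of v).range = ⊤
  lift : ∀ {X : Type} [Group X] (f : ∀ v, G v →* X),
    (∀ v w, Δ.Adj v w → ∀ g h, Commute (f v g) (f w h)) → (P →* X)
  lift_of : ∀ {X : Type} [Group X] (f : ∀ v, G v →* X)
    (hf : ∀ v w, Δ.Adj v w → ∀ g h, Commute (f v g) (f w h)) (v : V) (g : G v),
    lift f hf (of v g) = f v g

namespace GraphProd

variable {V : Type} {Δ : SimpleGraph V} {G : V → Type} [∀ v, Group (G v)]
  {P : Type} [Group P] (D : GraphProd Δ G P)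

theorem induct {p : P → Prop} (h1 : p 1) (hof : ∀ v g, p (D.of v g))
    (hmul : ∀ x y, p x → p y → p (x * y)) (x : P) : p x := by
  have hx : x ∈ ⨆ v, (D.of v).range := by rw [D.gen]; trivial
  refine Subgroup.iSup_induction (fun v => (D.of v).range) (C := p) hx ?_ h1 hmul
  rintro v _ ⟨g, rfl⟩
  exact hof v g

theorem hom_ext {X : Type} [Group X] {f g : P →* X}
    (h : ∀ v x, f (D.of v x) = g (D.of v x)) : f = g := by
  ext x
  refine D.induct (p := fun x => f x = g x) (by simp) h ?_ x
  intro x y hx hy
  simp [hx, hy]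

/-- Left-multiplication induction. -/
theorem induct_left {p : P → Prop} (h1 : p 1) (hmul : ∀ v g x, p x → p (D.of v g * x))
    (x : P) : p x := by
  have : ∀ y, p y → p (x * y) := by
    refine D.induct (p := fun x => ∀ y, p y → p (x * y)) ?_ ?_ ?_ x
    · intro y hy; simpa using hy
    · intro v g y hy; exact hmul v g y hy
    · intro a b ha hb y hy
      rw [mul_assoc]
      exact ha _ (hb _ hy)
  simpa using this 1 h1

/-- Parabolic subgroups. -/
def par (S : Set V) : Subgroup P := ⨆ v ∈ S, (D.of v).range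

theorem of_mem_par {S : Set V} {v : V} (hv : v ∈ S) (g : G v) : D.of v g ∈ D.par S := by
  have : (D.of v).range ≤ D.par S := le_iSup₂_of_le v hv le_rfl
  exact this ⟨g, rfl⟩

theorem par_le {S : Set V} {K : Subgroup P} (h : ∀ v ∈ S, ∀ g, D.of v g ∈ K) :
    D.par S ≤ K := by
  refine iSup₂_le ?_
  rintro v hv _ ⟨g, rfl⟩
  exact h v hv g

theorem par_mono {S T : Set V} (h : S ⊆ T) : D.par S ≤ D.par T :=
  D.par_le fun _ hv g => D.of_mem_par (h hv) g

theorem par_empty : D.par ∅ = ⊥ := by
  rw [eq_bot_iff]
  exact D.par_le (fun v hv => by simp at hv)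

theorem par_univ : D.par Set.univ = ⊤ := by
  rw [eq_top_iff, ← D.gen]
  refine iSup_le ?_
  rintro v _ ⟨g, rfl⟩
  exact D.of_mem_par (Set.mem_univ v) g

theorem par_singleton (v : V) : D.par {v} = (D.of v).range := by
  apply le_antisymm
  · apply D.par_le
    intro w hw g
    rw [Set.mem_singleton_iff] at hw
    subst hw
    exact ⟨g, rfl⟩
  · rintro _ ⟨g, rfl⟩
    exact D.of_mem_par (Set.mem_singleton v) g

open Classical in
/-- The retraction onto the parabolic subgroup of `S`. -/
noncomputable def ret (S : Set V) : P →* P :=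
  D.lift (fun v => if v ∈ S then D.of v else 1) (by
    intro v w hvw g h
    by_cases hv : v ∈ S <;> by_cases hw : w ∈ S <;>
      simp [hv, hw, D.comm hvw, Commute.one_left, Commute.one_right])

theorem ret_of_mem {S : Set V} {v : V} (hv : v ∈ S) (g : G v) :
    D.ret S (D.of v g) = D.of v g := by
  unfold ret
  rw [D.lift_of, if_pos hv]

theorem ret_of_not_mem {S : Set V} {v : V} (hv : v ∉ S) (g : G v) :
    D.ret S (D.of v g) = 1 := by
  unfold ret
  rw [D.lift_of, if_neg hv, MonoidHom.one_apply]

theorem ret_mem (S : Set V) (x : P) : D.ret S x ∈ D.par S := by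
  refine D.induct (p := fun x => D.ret S x ∈ D.par S) ?_ ?_ ?_ x
  · simp
  · intro v g
    by_cases hv : v ∈ S
    · rw [D.ret_of_mem hv]; exact D.of_mem_par hv g
    · rw [D.ret_of_not_mem hv]; exact one_mem _
  · intro x y hx hy
    rw [map_mul]; exact mul_mem hx hy

theorem ret_eq {S : Set V} {x : P} (hx : x ∈ D.par S) : D.ret S x = x := by
  have : D.par S ≤ (D.ret S).eqLocus (MonoidHom.id P) :=
    D.par_le fun v hv g => D.ret_of_mem hv g
  exact this hx

theorem ret_ret (S T : Set V) (x : P) : D.ret S (D.ret T x) = D.ret (S ∩ T) x := by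
  have : (D.ret S).comp (D.ret T) = D.ret (S ∩ T) := by
    apply D.hom_ext
    intro v g
    rw [MonoidHom.comp_apply]
    by_cases hT : v ∈ T
    · rw [D.ret_of_mem hT]
      by_cases hS : v ∈ S
      · have h2 : v ∈ S ∩ T := ⟨hS, hT⟩
        rw [D.ret_of_mem hS, D.ret_of_mem h2]
      · have h2 : v ∉ S ∩ T := fun h => hS h.1
        rw [D.ret_of_not_mem hS, D.ret_of_not_mem h2]
    · have h2 : v ∉ S ∩ T := fun h => hT h.2
      rw [D.ret_of_not_mem hT, map_one, D.ret_of_not_mem h2]
  exact DFunLike.congr_fun this x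

theorem par_inf (S T : Set V) : D.par S ⊓ D.par T = D.par (S ∩ T) := by
  apply le_antisymm
  · rintro x ⟨hS, hT⟩
    have : D.ret (S ∩ T) x = x := by
      rw [← D.ret_ret, D.ret_eq hT, D.ret_eq hS]
    have h2 := D.ret_mem (S ∩ T) x
    rwa [this] at h2
  · exact le_inf (D.par_mono Set.inter_subset_left) (D.par_mono Set.inter_subset_right)

theorem mem_par_inter {S T : Set V} {x : P} (hS : x ∈ D.par S) (hT : x ∈ D.par T) :
    x ∈ D.par (S ∩ T) := by
  rw [← D.par_inf]; exact Subgroup.mem_inf.2 ⟨hS, hT⟩

/-- The conjugation lemma: intersections of a parabolic with a conjugate of a parabolic. -/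
theorem conj_mem {S T : Set V} {x a : P} (hS : x ∈ D.par S) (hT : a⁻¹ * x * a ∈ D.par T) :
    (D.ret S a)⁻¹ * x * D.ret S a ∈ D.par (S ∩ T) := by
  have h1 : D.ret S (a⁻¹ * x * a) = (D.ret S a)⁻¹ * x * D.ret S a := by
    rw [map_mul, map_mul, map_inv, D.ret_eq hS]
  rw [← h1, ← D.ret_eq hT, D.ret_ret]
  exact D.ret_mem _ _

/-- The component homomorphisms used to define the projections. -/
noncomputable def projAux (v w : V) : G w →* G v := by
  classical
  exact if h : w = v then (by subst h; exact MonoidHom.id _) else 1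

theorem projAux_self (v : V) (g : G v) : projAux (G := G) v v g = g := by
  simp [projAux]

theorem projAux_ne {v w : V} (h : w ≠ v) (g : G w) : projAux (G := G) v w g = 1 := by
  simp [projAux, h]

/-- Projection to a vertex group. -/
noncomputable def proj (v : V) : P →* G v :=
  D.lift (fun w => projAux v w) (by
    intro a b hab g h
    by_cases ha : a = v
    · have hb : b ≠ v := by rintro rfl; exact hab.ne ha
      rw [projAux_ne hb]; exact Commute.one_right _
    · rw [projAux_ne ha]; exact Commute.one_left _)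

theorem proj_self (v : V) (g : G v) : D.proj v (D.of v g) = g := by
  unfold proj
  rw [D.lift_of, projAux_self]

theorem proj_ne {v w : V} (h : w ≠ v) (g : G w) : D.proj v (D.of w g) = 1 := by
  unfold proj
  rw [D.lift_of, projAux_ne h]

theorem of_injective (v : V) : Function.Injective (D.of v) := by
  intro g h hgh
  rw [← D.proj_self v g, hgh, D.proj_self]

theorem proj_par {S : Set V} {v : V} (hv : v ∉ S) {x : P} (hx : x ∈ D.par S) :
    D.proj v x = 1 := by
  have : D.par S ≤ (D.proj v).ker := D.par_le fun w hw g => by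
    rw [MonoidHom.mem_ker]
    exact D.proj_ne (by rintro rfl; exact hv hw) g
  exact this hx

/-- `lk v`, `st v`. -/
def lk (Δ : SimpleGraph V) (v : V) : Set V := {w | Δ.Adj v w}

def st (Δ : SimpleGraph V) (v : V) : Set V := insert v (lk Δ v)

theorem not_mem_lk (v : V) : v ∉ lk Δ v := fun h => Δ.loopless.irrefl v h

theorem commute_of_lk {v : V} {c : P} (hc : c ∈ D.par (lk Δ v)) (g : G v) :
    Commute (D.of v g) c := by
  have : D.par (lk Δ v) ≤ Subgroup.centralizer {D.of v g} := D.par_le fun w hw h => by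
    rw [Subgroup.mem_centralizer_singleton_iff]
    exact (D.comm hw g h).symm
  have h := this hc
  rw [Subgroup.mem_centralizer_singleton_iff] at h
  exact h.symm

theorem mem_par_st {v : V} {x : P} (hx : x ∈ D.par (st Δ v)) :
    ∃ g : G v, ∃ c ∈ D.par (lk Δ v), x = D.of v g * c := by
  let K : Subgroup P :=
    { carrier := {x | ∃ g : G v, ∃ c ∈ D.par (lk Δ v), x = D.of v g * c}
      one_mem' := ⟨1, 1, one_mem _, by simp⟩
      mul_mem' := by
        rintro _ _ ⟨g, c, hc, rfl⟩ ⟨g', c', hc', rfl⟩
        refine ⟨g * g', c * c', mul_mem hc hc', ?_⟩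
        have := (D.commute_of_lk hc g').eq
        rw [map_mul, mul_assoc, ← mul_assoc c, ← this]
        simp [mul_assoc]
      inv_mem' := by
        rintro _ ⟨g, c, hc, rfl⟩
        refine ⟨g⁻¹, c⁻¹, inv_mem hc, ?_⟩
        have := (D.commute_of_lk hc g).eq
        rw [this, mul_inv_rev, map_inv] }
  have : D.par (st Δ v) ≤ K := by
    apply D.par_le
    rintro w (rfl | hw) g
    · exact ⟨g, 1, one_mem _, by simp⟩
    · exact ⟨1, D.of w g, D.of_mem_par hw g, by simp⟩
  exact this hx

end GraphProd

end Pool.Agent.Lib.MP_c91b70_al
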