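import Pool.Agent.Lib.MP_c91b70_al.WFacts
import Pool.Agent.Lib.MP_c91b70_al.FreeOn

/-!
# Right-angled Artin groups and `V3` as graph products; facts on `V3`
-/

set_option autoImplicit false

namespace Pool.Agent.Lib.MP_c91b70_al

open GraphProd

section RAAG

variable {m : ℕ} (Λ : SimpleGraph (Fin m))

/-- A generator of the RAAG. -/
def gA (a : Fin m) : RAAG Λ := PresentedGroup.of a

theorem gA_comm {a b : Fin m} (h : Λ.Adj a b) : Commute (gA Λ a) (gA Λ b) := by
  have h1 := PresentedGroup.one_of_mem (rels := raagRels Λ)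
    (x := FreeGroup.of a * FreeGroup.of b * (FreeGroup.of a)⁻¹ * (FreeGroup.of b)⁻¹)
    ⟨a, b, h, rfl⟩
  rw [map_mul, map_mul, map_mul, map_inv, map_inv] at h1
  have h2 : gA Λ a * gA Λ b * (gA Λ a)⁻¹ * (gA Λ b)⁻¹ = 1 := h1
  change gA Λ a * gA Λ b = gA Λ b * gA Λ a
  have h3 : gA Λ a * gA Λ b = (gA Λ a * gA Λ b * (gA Λ a)⁻¹ * (gA Λ b)⁻¹) * (gA Λ b * gA Λ a) := by
    group
  rw [h3, h2, one_mul]

/-- The lift for the RAAG. -/
def liftA {X : Type} [Group X] (f : ∀ _ : Fin m, Multiplicative ℤ →* X)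
    (hf : ∀ v w, Λ.Adj v w → ∀ g h, Commute (f v g) (f w h)) : RAAG Λ →* X :=
  PresentedGroup.toGroup (f := fun a => f a (Multiplicative.ofAdd 1)) (by
    rintro r ⟨a, b, hab, rfl⟩
    rw [map_mul, map_mul, map_mul, map_inv, map_inv, FreeGroup.lift_apply_of,
      FreeGroup.lift_apply_of]
    have hc := (hf a b hab (Multiplicative.ofAdd 1) (Multiplicative.ofAdd 1)).eq
    rw [hc]; group)

theorem liftA_of {X : Type} [Group X] (f : ∀ _ : Fin m, Multiplicative ℤ →* X)
    (hf : ∀ v w, Λ.Adj v w → ∀ g h, Commute (f v g) (f w h)) (a : Fin m) :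
    liftA Λ f hf (gA Λ a) = f a (Multiplicative.ofAdd 1) :=
  PresentedGroup.toGroup.of _

/-- The RAAG as a graph product of infinite cyclic groups. -/
def gpA : GraphProd Λ (fun _ : Fin m => Multiplicative ℤ) (RAAG Λ) where
  of v := zpowersHom (RAAG Λ) (gA Λ v)
  comm := by
    intro v w hvw g h
    simp only [zpowersHom_apply]
    exact ((gA_comm Λ hvw).zpow_left _).zpow_right _
  gen := by
    rw [eq_top_iff]
    intro x _
    apply PresentedGroup.generated_by
    intro a
    refine Subgroup.mem_iSup_of_mem a ⟨Multiplicative.ofAdd 1, ?_⟩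
    simp only [zpowersHom_apply, toAdd_ofAdd, zpow_one]
    rfl
  lift := fun f hf => liftA Λ f hf
  lift_of := by
    intro X _ f hf v g
    rw [zpowersHom_apply, map_zpow, liftA_of, ← map_zpow, ← ofAdd_zsmul]
    simp

end RAAG

section V3facts

/-- A generator of `V3`. -/
def gV (i : Fin 3) : V3 := PresentedGroup.of i

theorem gV_sq (i : Fin 3) : gV i * gV i = 1 := by
  have h := PresentedGroup.one_of_mem
    (rels := {r : FreeGroup (Fin 3) | ∃ a, r = FreeGroup.of a * FreeGroup.of a})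
    (x := FreeGroup.of i * FreeGroup.of i) ⟨i, rfl⟩
  rw [map_mul] at h
  exact h

theorem V3_closure : Subgroup.closure (Set.range gV) = ⊤ := by
  rw [eq_top_iff]
  intro x _
  apply PresentedGroup.generated_by
  intro a
  exact Subgroup.subset_closure ⟨a, rfl⟩

theorem V3_inv : InvFreeOn gV := by
  refine ⟨V3_closure, gV_sq, ?_⟩
  intro X _ x hx
  refine ⟨PresentedGroup.toGroup (f := x) ?_, fun i => PresentedGroup.toGroup.of _⟩
  rintro r ⟨a, rfl⟩
  rw [map_mul, FreeGroup.lift_apply_of]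
  exact hx a

theorem V3_fg : Group.FG V3 := by
  classical
  rw [Group.fg_iff]
  exact ⟨Set.range gV, V3_closure, Set.finite_range _⟩

/-- A homomorphism from the group of order two. -/
def c2Hom {X : Type} [Group X] (x : X) (hx : x * x = 1) : Multiplicative (ZMod 2) →* X where
  toFun z := if Multiplicative.toAdd z = 0 then 1 else x
  map_one' := by simp
  map_mul' := by
    have key : ∀ a b : ZMod 2, (if a + b = 0 then (1 : X) else x) =
        (if a = 0 then 1 else x) * (if b = 0 then 1 else x) := by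
      intro a b
      have h2 : ∀ a : ZMod 2, a = 0 ∨ a = 1 := by decide
      rcases h2 a with rfl | rfl <;> rcases h2 b with rfl | rfl
      · simp
      · simp
      · simp
      · have : (1 : ZMod 2) + 1 = 0 := by decide
        simp [this, hx]
    intro a b
    exact key _ _

theorem c2_ext {X : Type} [Group X] {f g : Multiplicative (ZMod 2) →* X}
    (h : f (Multiplicative.ofAdd 1) = g (Multiplicative.ofAdd 1)) : f = g := by
  refine MonoidHom.ext fun z => ?_
  have h2 : ∀ a : Multiplicative (ZMod 2), a = 1 ∨ a = Multiplicative.ofAdd 1 := by decide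
  rcases h2 z with rfl | rfl
  · simp
  · exact h

theorem c2Hom_one {X : Type} [Group X] (x : X) (hx : x * x = 1) :
    c2Hom x hx (Multiplicative.ofAdd 1) = x := by
  change (if Multiplicative.toAdd (Multiplicative.ofAdd (1 : ZMod 2)) = 0 then (1 : X) else x) = x
  rw [if_neg (by decide)]

theorem c2_sq {X : Type} [Group X] (f : Multiplicative (ZMod 2) →* X) :
    f (Multiplicative.ofAdd 1) * f (Multiplicative.ofAdd 1) = 1 := by
  rw [← map_mul]
  have : (Multiplicative.ofAdd 1 : Multiplicative (ZMod 2)) * Multiplicative.ofAdd 1 = 1 := by decide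
  rw [this, map_one]

/-- `V3` as a graph product of groups of order two. -/
noncomputable def gpV3 :
    GraphProd (⊥ : SimpleGraph (Fin 3)) (fun _ : Fin 3 => Multiplicative (ZMod 2)) V3 where
  of i := c2Hom (gV i) (gV_sq i)
  comm := by
    intro v w hvw
    exact hvw.elim
  gen := by
    rw [eq_top_iff]
    intro x _
    apply PresentedGroup.generated_by
    intro a
    exact Subgroup.mem_iSup_of_mem a ⟨Multiplicative.ofAdd 1, c2Hom_one _ _⟩
  lift := fun {X} _ f _ =>
    (V3_inv.2.2 (fun i => f i (Multiplicative.ofAdd 1)) (fun i => c2_sq (f i))).choose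
  lift_of := by
    intro X _ f hf v g
    have h := (V3_inv.2.2 (fun i => f i (Multiplicative.ofAdd 1))
      (fun i => c2_sq (f i))).choose_spec v
    have h2 : ((V3_inv.2.2 (fun i => f i (Multiplicative.ofAdd 1))
      (fun i => c2_sq (f i))).choose).comp (c2Hom (gV v) (gV_sq v)) = f v := by
      apply c2_ext
      rw [MonoidHom.comp_apply, c2Hom_one]
      exact h
    exact DFunLike.congr_fun h2 g

/-- Upper unitriangular matrices. -/
def UX (K : ℤ) : (Matrix (Fin 2) (Fin 2) ℤ)ˣ where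
  val := !![1, K; 0, 1]
  inv := !![1, -K; 0, 1]
  val_inv := by simp [Matrix.one_fin_two]
  inv_val := by simp [Matrix.one_fin_two]

/-- Lower unitriangular matrices. -/
def UY (K : ℤ) : (Matrix (Fin 2) (Fin 2) ℤ)ˣ where
  val := !![1, 0; -K, 1]
  inv := !![1, 0; K, 1]
  val_inv := by simp [Matrix.one_fin_two]
  inv_val := by simp [Matrix.one_fin_two]

theorem UX_mul (a b : ℤ) : UX a * UX b = UX (a + b) := by
  ext i j
  fin_cases i <;> fin_cases j <;> simp [UX, add_comm]

theorem UY_mul (a b : ℤ) : UY a * UY b = UY (a + b) := by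
  ext i j
  fin_cases i <;> fin_cases j <;> simp [UY, add_comm]

theorem UX_pow (a : ℤ) (n : ℕ) : UX a ^ n = UX (n * a) := by
  induction n with
  | zero =>
    ext i j
    fin_cases i <;> fin_cases j <;> simp [UX]
  | succ n ih =>
    rw [pow_succ, ih, UX_mul]
    congr 1; push_cast; ring

theorem UY_pow (a : ℤ) (n : ℕ) : UY a ^ n = UY (n * a) := by
  induction n with
  | zero =>
    ext i j
    fin_cases i <;> fin_cases j <;> simp [UY]
  | succ n ih =>
    rw [pow_succ, ih, UY_mul]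
    congr 1; push_cast; ring

/-- The images of the three generators. -/
def rho (i : Fin 3) : (Matrix (Fin 2) (Fin 2) ℤ)ˣ :=
  match i with
  | 0 => ⟨!![1, 0; 0, -1], !![1, 0; 0, -1], by simp [Matrix.one_fin_two], by simp [Matrix.one_fin_two]⟩
  | 1 => ⟨!![1, 2; 0, -1], !![1, 2; 0, -1], by simp [Matrix.one_fin_two], by simp [Matrix.one_fin_two]⟩
  | 2 => ⟨!![1, 0; 2, -1], !![1, 0; 2, -1], by simp [Matrix.one_fin_two], by simp [Matrix.one_fin_two]⟩

theorem rho_sq (i : Fin 3) : rho i * rho i = 1 := by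
  ext a b
  fin_cases i <;> fin_cases a <;> fin_cases b <;> simp [rho]

theorem rho01 : rho 0 * rho 1 = UX 2 := by
  ext a b
  fin_cases a <;> fin_cases b <;> simp [rho, UX]

theorem rho02 : rho 0 * rho 2 = UY 2 := by
  ext a b
  fin_cases a <;> fin_cases b <;> simp [rho, UY]

theorem not_commute_mat {K : ℤ} (hK : K ≠ 0) :
    ¬ Commute (UX K * UY K * (UX K)⁻¹ * (UY K)⁻¹) (UX (2 * K) * UY K * (UX (2 * K))⁻¹ * (UY K)⁻¹) := by
  intro h
  have h1 := congrArg (fun u : (Matrix (Fin 2) (Fin 2) ℤ)ˣ => (u : Matrix (Fin 2) (Fin 2) ℤ) 0 0) h.eq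
  have e1 : ((UX K * UY K * (UX K)⁻¹ * (UY K)⁻¹ : (Matrix (Fin 2) (Fin 2) ℤ)ˣ) :
      Matrix (Fin 2) (Fin 2) ℤ) = !![1 - K ^ 2 + K ^ 4, K ^ 3; K ^ 3, 1 + K ^ 2] := by
    change !![1, K; 0, 1] * !![1, 0; -K, 1] * !![1, -K; 0, 1] * !![1, 0; K, 1] = _
    ext i j
    fin_cases i <;> fin_cases j <;> simp <;> ring
  have e2 : ((UX (2 * K) * UY K * (UX (2 * K))⁻¹ * (UY K)⁻¹ : (Matrix (Fin 2) (Fin 2) ℤ)ˣ) :
      Matrix (Fin 2) (Fin 2) ℤ) =
      !![1 - 2 * K ^ 2 + 4 * K ^ 4, 4 * K ^ 3; 2 * K ^ 3, 1 + 2 * K ^ 2] := by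
    change !![1, 2 * K; 0, 1] * !![1, 0; -K, 1] * !![1, -(2 * K); 0, 1] * !![1, 0; K, 1] = _
    ext i j
    fin_cases i <;> fin_cases j <;> simp <;> ring
  simp only [Units.val_mul _ (UX (2 * K) * UY K * (UX (2 * K))⁻¹ * (UY K)⁻¹),
    Units.val_mul _ (UX K * UY K * (UX K)⁻¹ * (UY K)⁻¹), e1, e2] at h1
  simp at h1
  have h2 : 2 * K ^ 6 = 0 := by linarith
  have h3 : K ^ 6 ≠ 0 := pow_ne_zero 6 hK
  apply h3
  linarith

theorem V3_big (M : Subgroup V3) (hM : M.index ≠ 0) : Big M := by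
  obtain ⟨F, hF⟩ := V3_inv.2.2 rho rho_sq
  set k := M.index.factorial with hk
  have hk0 : k ≠ 0 := Nat.factorial_ne_zero _
  have hpow : ∀ x : V3, x ^ k ∈ M := fun x =>
    Subgroup.pow_mem_of_index_ne_zero_of_dvd hM x (fun m h1 h2 => Nat.dvd_factorial h1 h2)
  have hX : F ((gV 0 * gV 1) ^ k) = UX (k * 2) := by
    rw [map_pow, map_mul, hF, hF, rho01, UX_pow]
  have hY : F ((gV 0 * gV 2) ^ k) = UY (k * 2) := by
    rw [map_pow, map_mul, hF, hF, rho02, UY_pow]
  have hX2 : F (((gV 0 * gV 1) ^ k) ^ 2) = UX (2 * (k * 2)) := by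
    rw [map_pow, hX, UX_pow]; rfl
  refine ⟨_, hpow (gV 0 * gV 1), _, hpow (gV 0 * gV 2), _, pow_mem (hpow (gV 0 * gV 1)) 2, _,
    hpow (gV 0 * gV 2), ?_⟩
  generalize (gV 0 * gV 1) ^ k = x at *
  generalize (gV 0 * gV 2) ^ k = y at *
  intro h
  have h1 := h.map F
  simp only [map_mul, map_inv] at h1
  rw [hX, hY, hX2] at h1
  refine not_commute_mat (K := (k : ℤ) * 2) ?_ h1
  have : (k : ℤ) ≠ 0 := by exact_mod_cast hk0
  simpa using this

end V3facts

end Pool.Agent.Lib.MP_c91b70_al
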