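import Pool.Agent.Lib.MP_c91b70_al.WFacts
import Pool.Agent.Lib.MP_c91b70_al.FreeOn

/-!
# Commensurability with a right-angled Artin group: the permutation action

`N` is a normal finite index subgroup of the right-angled Artin group `A`, embedded as a finite
index subgroup in the pentagon graph product `W`.  We show that `A` permutes the traces on `N` of the
conjugates of vertex groups of `W`.
-/

set_option autoImplicit false
set_option linter.unusedSectionVars false

namespace Pool.Agent.Lib.MP_c91b70_al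

open GraphProd

/-- Conjugation as a homomorphism. -/
def cjHom {P : Type} [Group P] (g : P) : P →* P where
  toFun := cj g
  map_one' := by simp [cj]
  map_mul' := cj_mul g

theorem cjHom_apply {P : Type} [Group P] (g x : P) : cjHom g x = cj g x := rfl

section Trace

variable {W : Type} [Group W] {H : Type} [Group H] (ι : H →* W)

/-- The trace on `H` of the conjugate `g U g⁻¹`. -/
def Rs (g : W) (U : Subgroup W) : Subgroup H := U.comap ((cjHom g).comp ι)

theorem mem_Rs {g : W} {U : Subgroup W} {n : H} : n ∈ Rs ι g U ↔ cj g (ι n) ∈ U := Iff.rfl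

/-- The trace of `ι H` on `U`, after conjugation. -/
def MU (g : W) (U : Subgroup W) : Subgroup U := ι.range.comap ((cjHom g⁻¹).comp U.subtype)

theorem mem_MU {g : W} {U : Subgroup W} {u : U} : u ∈ MU ι g U ↔ g * u * g⁻¹ ∈ ι.range := by
  change g⁻¹⁻¹ * (u : W) * g⁻¹ ∈ ι.range ↔ _
  rw [inv_inv]

theorem relIndex_ne {P : Type} [Group P] {R : Subgroup P} (hR : R.index ≠ 0) (K : Subgroup P) :
    R.relIndex K ≠ 0 := by
  intro h
  apply hR
  rw [← Subgroup.relIndex_top_right]
  exact Subgroup.relIndex_eq_zero_of_le_right le_top h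

theorem MU_index (hR : ι.range.index ≠ 0) (g : W) (U : Subgroup W) : (MU ι g U).index ≠ 0 := by
  unfold MU
  rw [Subgroup.index_comap]
  exact relIndex_ne hR _

theorem fg_map {P Q : Type} [Group P] [Group Q] {K : Subgroup P} (h : K.FG) (f : P →* Q) :
    (K.map f).FG := by
  classical
  obtain ⟨s, rfl⟩ := h
  refine ⟨s.image f, ?_⟩
  rw [Finset.coe_image, MonoidHom.map_closure]

/-- The traces are isomorphic. -/
noncomputable def isoR (hι : Function.Injective ι) (g : W) (U : Subgroup W) :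
    Rs ι g U ≃* MU ι g U :=
  MulEquiv.ofBijective
    ({ toFun := fun n => ⟨⟨cj g (ι n), n.2⟩, by
          rw [mem_MU]
          refine ⟨n, ?_⟩
          simp only [cj]; group⟩
       map_one' := by
          apply Subtype.ext; apply Subtype.ext
          simp [cj]
       map_mul' := by
          intro a b
          apply Subtype.ext; apply Subtype.ext
          simp only [cj, Subgroup.coe_mul, map_mul]; group } : Rs ι g U →* MU ι g U)
    (by
      constructor
      · intro a b h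
        have h1 : cj g (ι a) = cj g (ι b) := congrArg (fun x : MU ι g U => ((x : U) : W)) h
        apply Subtype.ext
        apply hι
        have : ι a = g * cj g (ι a) * g⁻¹ := by simp only [cj]; group
        rw [this, h1]; simp only [cj]; group
      · rintro ⟨⟨u, hu⟩, hu2⟩
        rw [mem_MU] at hu2
        obtain ⟨n, hn⟩ := hu2
        have h1 : cj g (ι n) = u := by
          rw [hn]; simp only [cj]; group
        refine ⟨⟨n, ?_⟩, ?_⟩
        · rw [mem_Rs, h1]; exact hu
        · apply Subtype.ext; apply Subtype.ext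
          exact h1)

theorem isoR_coe (hι : Function.Injective ι) (g : W) (U : Subgroup W) (n : Rs ι g U) :
    ((isoR ι hι g U n : U) : W) = cj g (ι n) := rfl

theorem Rs_fg (hι : Function.Injective ι) (hR : ι.range.index ≠ 0) (g : W) (U : Subgroup W)
    (hU : Group.FG U) : (Rs ι g U).FG := by
  have : (MU ι g U).FiniteIndex := ⟨MU_index ι hR g U⟩
  have h1 : Group.FG (MU ι g U) := inferInstance
  have h2 : Group.FG (Rs ι g U) :=
    Group.fg_of_surjective (f := (isoR ι hι g U).symm.toMonoidHom) (isoR ι hι g U).symm.surjective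
  exact (Group.fg_iff_subgroup_fg _).1 h2

theorem GraphProd.Big.mono {X : Type} [Group X] {K K' : Subgroup X} (h : Big K) (hle : K ≤ K') : Big K' := by
  obtain ⟨a, ha, b, hb, c, hc, e, he, hn⟩ := h
  exact ⟨a, hle ha, b, hle hb, c, hle hc, e, hle he, hn⟩

theorem GraphProd.Big.map {X Y : Type} [Group X] [Group Y] {K : Subgroup X} (h : Big K) {f : X →* Y}
    (hf : Function.Injective f) : Big (K.map f) := by
  obtain ⟨a, ha, b, hb, c, hc, e, he, hn⟩ := h
  refine ⟨f a, ⟨a, ha, rfl⟩, f b, ⟨b, hb, rfl⟩, f c, ⟨c, hc, rfl⟩, f e, ⟨e, he, rfl⟩, ?_⟩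
  intro h
  apply hn
  apply hf
  have := h.eq
  simpa only [map_mul, map_inv] using this

theorem GraphProd.Big.comap_of_range {X Y : Type} [Group X] [Group Y] {K : Subgroup Y} (h : Big K)
    (f : X →* Y) (hK : K ≤ f.range) : Big (K.comap f) := by
  obtain ⟨a, ha, b, hb, c, hc, e, he, hn⟩ := h
  obtain ⟨a', rfl⟩ := hK ha
  obtain ⟨b', rfl⟩ := hK hb
  obtain ⟨c', rfl⟩ := hK hc
  obtain ⟨e', rfl⟩ := hK he
  refine ⟨a', ha, b', hb, c', hc, e', he, ?_⟩
  intro h
  apply hn
  have := h.map f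
  simpa only [map_mul, map_inv] using this

end Trace

/-- The standing assumptions. -/
structure Setup {G : Fin 5 → Type} [∀ v, Group (G v)] {W : Type} [Group W]
    (D : GraphProd C5 G W) {H : Type} [Group H] (ι : H →* W) : Prop where
  ct : ∀ v, CT (G v)
  big : ∀ v (M : Subgroup (G v)), M.index ≠ 0 → Big M
  fg : ∀ v, Group.FG (G v)
  pow : ∀ v (x y : G v), (∀ n : ℕ, n ≠ 0 → x ^ n ≠ 1) → Commute y x →
    ∃ m n : ℤ, m ≠ 0 ∧ y ^ m * x ^ n = 1
  inv : ∀ v, ∃ u : Fin 3 → G v, InvFreeOn u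
  inj : Function.Injective ι
  index : ι.range.index ≠ 0

section Main

variable {G : Fin 5 → Type} [∀ v, Group (G v)] {W : Type} [Group W]
  {D : GraphProd C5 G W} {H : Type} [Group H] {ι : H →* W} (X : Setup D ι)

/-- The trace of a conjugate of a vertex group. -/
abbrev Hs (D : GraphProd C5 G W) (ι : H →* W) (g : W) (v : Fin 5) : Subgroup H :=
  Rs ι g (D.par {v})

/-- The trace of a conjugate of a link group. -/
abbrev Ls (D : GraphProd C5 G W) (ι : H →* W) (g : W) (v : Fin 5) : Subgroup H :=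
  Rs ι g (D.par (lk C5 v))

include X

theorem Hs_big (g : W) (v : Fin 5) : Big (Hs D ι g v) := by
  -- the finite index subgroup of the vertex group
  let j : G v →* W := (cjHom g⁻¹).comp (D.of v)
  have hM : (ι.range.comap j).index ≠ 0 := by
    rw [Subgroup.index_comap]
    exact relIndex_ne X.index _
  have hb := X.big v _ hM
  have hj : Function.Injective j := by
    intro x y hxy
    apply D.of_injective v
    have h1 : g⁻¹⁻¹ * D.of v x * g⁻¹ = g⁻¹⁻¹ * D.of v y * g⁻¹ := hxy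
    simpa using h1
  have hb2 := (Big.map hb hj).comap_of_range ι (by
    rintro _ ⟨x, hx, rfl⟩
    exact hx)
  apply hb2.mono
  rintro n ⟨x, hx, hxn⟩
  rw [mem_Rs, D.par_singleton]
  refine ⟨x, ?_⟩
  have h1 : g⁻¹⁻¹ * D.of v x * g⁻¹ = ι n := hxn
  rw [← h1]
  simp only [cj]; group

theorem Hs_fg (g : W) (v : Fin 5) : (Hs D ι g v).FG := by
  apply Rs_fg ι X.inj X.index
  have := X.fg v
  rw [D.par_singleton]
  exact Group.fg_of_surjective (f := (D.of v).rangeRestrict) (D.of v).rangeRestrict_surjective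

theorem par_fg (S : Set (Fin 5)) : Group.FG (D.par S) := by
  classical
  have h : ∀ v, (D.of v).range.FG := by
    intro v
    have := X.fg v
    have h1 : Group.FG (D.of v).range :=
      Group.fg_of_surjective (f := (D.of v).rangeRestrict) (D.of v).rangeRestrict_surjective
    exact (Group.fg_iff_subgroup_fg _).1 h1
  rw [Group.fg_iff_subgroup_fg]
  choose s hs using h
  refine ⟨(Finset.univ.filter (fun v => v ∈ S)).biUnion s, ?_⟩
  unfold GraphProd.par
  have : ∀ v, (D.of v).range = Subgroup.closure (s v : Set W) := fun v => (hs v).symm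
  simp_rw [this]
  simp_rw [← Subgroup.closure_iUnion]
  congr 1
  ext x
  simp

theorem Ls_fg (g : W) (v : Fin 5) : (Ls D ι g v).FG :=
  Rs_fg ι X.inj X.index _ _ (par_fg X _)

omit X in
theorem Hs_le_Ls (g : W) {v w : Fin 5} (h : C5.Adj v w) : Hs D ι g w ≤ Ls D ι g v := by
  intro n hn
  rw [mem_Rs] at hn ⊢
  exact D.par_mono (by simpa [lk] using h) hn

theorem Ls_big (g : W) (v : Fin 5) : Big (Ls D ι g v) :=
  (Hs_big X g (v + 1)).mono (Hs_le_Ls g (by revert v; decide))

theorem Hs_commute_Ls {g : W} {v : Fin 5} {a b : H} (ha : a ∈ Hs D ι g v)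
    (hb : b ∈ Ls D ι g v) : Commute a b := by
  have h1 : Commute (cj g (ι a)) (cj g (ι b)) := by
    rw [mem_Rs, D.par_singleton] at ha
    obtain ⟨x, hx⟩ := ha
    rw [← hx]
    exact D.commute_of_lk hb x
  have h2 := conj_commute_iff.1 h1
  exact X.inj (by rw [map_mul, map_mul]; exact h2.eq)

/-- The centraliser of the trace of a vertex group. -/
theorem mem_Ls_of_commute {g : W} {v : Fin 5} {n : H} (h : ∀ k ∈ Hs D ι g v, Commute n k) :
    n ∈ Ls D ι g v := by
  obtain ⟨a, ha, b, hb, hab⟩ := (Hs_big X g v).nonAb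
  rw [mem_Rs]
  apply D.cent_nonab X.ct (a := ι a) (b := ι b) ha hb
  · intro hc
    exact hab (X.inj (by rw [map_mul, map_mul]; exact hc.eq))
  · exact (h a ha).map ι
  · exact (h b hb).map ι

/-- The centraliser of the trace of a link group. -/
theorem mem_Hs_of_commute {g : W} {v : Fin 5} {n : H} (h : ∀ k ∈ Ls D ι g v, Commute n k) :
    n ∈ Hs D ι g v := by
  have key : ∀ v : Fin 5, C5.Adj v (v + 1) ∧ C5.Adj v (v + 4) := by decide
  have h1 : n ∈ Ls D ι g (v + 1) :=
    mem_Ls_of_commute X (fun k hk => h k (Hs_le_Ls g (key v).1 hk))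
  have h2 : n ∈ Ls D ι g (v + 4) :=
    mem_Ls_of_commute X (fun k hk => h k (Hs_le_Ls g (key v).2 hk))
  rw [mem_Rs] at h1 h2 ⊢
  have h3 := D.mem_par_inter h1 h2
  have e : lk C5 (v + 1) ∩ lk C5 (v + 4) = {v} := by
    have key : ∀ v x : Fin 5, (C5.Adj (v + 1) x ∧ C5.Adj (v + 4) x) ↔ x = v := by decide
    ext x
    simpa [lk] using key v x
  rwa [e] at h3

/-- Traces of conjugates of vertex groups intersect trivially or coincide. -/
theorem Hs_inter {g g' : W} {v v' : Fin 5} {n : H} (hn : n ≠ 1) (h : n ∈ Hs D ι g v)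
    (h' : n ∈ Hs D ι g' v') : v = v' ∧ g⁻¹ * g' ∈ D.par (st C5 v) := by
  rw [mem_Rs, D.par_singleton] at h h'
  obtain ⟨x, hx⟩ := h
  obtain ⟨y, hy⟩ := h'
  have hx1 : x ≠ 1 := by
    rintro rfl
    apply hn
    rw [map_one] at hx
    have := conj_eq_one (r := g) hx.symm
    exact X.inj (by rw [this, map_one])
  apply D.conj_of_inter hx1 (y := y)
  rw [hx, hy]
  simp only [cj]; group

omit X in
theorem cj_st_iff {g : W} {v : Fin 5} (h : g ∈ D.par (st C5 v)) (x : W) :
    cj g x ∈ D.par {v} ↔ x ∈ D.par {v} := by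
  obtain ⟨a, c, hc, rfl⟩ := D.mem_par_st h
  have key : ∀ (a : G v) (c x : W), c ∈ D.par (lk C5 v) → x ∈ D.par {v} →
      cj (D.of v a * c) x ∈ D.par {v} := by
    intro a c x hc hx
    rw [D.par_singleton] at hx ⊢
    obtain ⟨y, rfl⟩ := hx
    refine ⟨a⁻¹ * y * a, ?_⟩
    have e := (D.commute_of_lk hc (a⁻¹ * y * a)).eq
    have : cj (D.of v a * c) (D.of v y) = c⁻¹ * (D.of v (a⁻¹ * y * a) * c) := by
      simp only [cj, map_mul, map_inv]; group
    rw [this, e]; group
  constructor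
  · intro hx
    have h1 := key a⁻¹ c⁻¹ _ (inv_mem hc) hx
    have e := (D.commute_of_lk (inv_mem hc) a⁻¹).eq
    have : cj (D.of v a⁻¹ * c⁻¹) (cj (D.of v a * c) x) = x := by
      rw [e, map_inv]
      simp only [cj]; group
    rwa [this] at h1
  · exact key a c x hc

omit X in
theorem Hs_congr {g g' : W} {v : Fin 5} (h : g⁻¹ * g' ∈ D.par (st C5 v)) :
    Hs D ι g v = Hs D ι g' v := by
  ext n
  rw [mem_Rs, mem_Rs]
  have : cj g' (ι n) = cj (g⁻¹ * g') (cj g (ι n)) := by
    simp only [cj]; group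
  rw [this, cj_st_iff h]

theorem Hs_eq_of_inter {g g' : W} {v v' : Fin 5} {n : H} (hn : n ≠ 1) (h : n ∈ Hs D ι g v)
    (h' : n ∈ Hs D ι g' v') : v = v' ∧ Hs D ι g v = Hs D ι g' v' := by
  obtain ⟨rfl, h1⟩ := Hs_inter X hn h h'
  exact ⟨rfl, Hs_congr h1⟩

/-- `Hs` determines the vertex type; a nontrivial element. -/
theorem Hs_nontrivial (g : W) (v : Fin 5) : ∃ n ∈ Hs D ι g v, n ≠ 1 := by
  obtain ⟨a, ha, b, hb, hab⟩ := (Hs_big X g v).nonAb
  refine ⟨a, ha, ?_⟩
  rintro rfl
  exact hab (Commute.one_left _)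

theorem Ls_not_le_Hs (g g' : W) (v v' : Fin 5) : ¬ Ls D ι g v ≤ Hs D ι g' v' := by
  intro h
  have key : ∀ v : Fin 5, C5.Adj v (v + 1) ∧ C5.Adj v (v + 4) ∧ v + 1 ≠ v + 4 := by decide
  obtain ⟨n, hn, hn1⟩ := Hs_nontrivial X g (v + 1)
  obtain ⟨m, hm, hm1⟩ := Hs_nontrivial X g (v + 4)
  have h1 := (Hs_inter X hn1 hn (h (Hs_le_Ls g (key v).1 hn))).1
  have h2 := (Hs_inter X hm1 hm (h (Hs_le_Ls g (key v).2.1 hm))).1
  exact (key v).2.2 (h1.trans h2.symm)

/-- The weak form: an automorphism maps `(Hs, Ls)` to `(Hs, Ls)` or `(Ls, Hs)`. -/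
theorem perm_weak (φ : H ≃* H) (g : W) (v : Fin 5) :
    ∃ g' v', ((Hs D ι g v).map φ.toMonoidHom = Hs D ι g' v' ∧
        (Ls D ι g v).map φ.toMonoidHom = Ls D ι g' v') ∨
      ((Hs D ι g v).map φ.toMonoidHom = Ls D ι g' v' ∧
        (Ls D ι g v).map φ.toMonoidHom = Hs D ι g' v') := by
  set K := (Hs D ι g v).map φ.toMonoidHom with hK
  set K' := (Ls D ι g v).map φ.toMonoidHom with hK'
  have memK : ∀ n, n ∈ K ↔ φ.symm n ∈ Hs D ι g v := by
    intro n
    constructor
    · rintro ⟨m, hm, rfl⟩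
      simpa using hm
    · intro h
      exact ⟨_, h, by simp⟩
  have memK' : ∀ n, n ∈ K' ↔ φ.symm n ∈ Ls D ι g v := by
    intro n
    constructor
    · rintro ⟨m, hm, rfl⟩
      simpa using hm
    · intro h
      exact ⟨_, h, by simp⟩
  have hcomm : ∀ k ∈ K, ∀ k' ∈ K', Commute k k' := by
    intro k hk k' hk'
    have := Hs_commute_Ls X ((memK k).1 hk) ((memK' k').1 hk')
    have h2 := this.map φ.toMonoidHom
    simpa using h2
  -- mutual centralisers
  have cK : ∀ n, (∀ k ∈ K', Commute n k) → n ∈ K := by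
    intro n hn
    rw [memK]
    apply mem_Hs_of_commute X
    intro k hk
    have := (hn (φ k) ((memK' _).2 (by simpa using hk))).map φ.symm.toMonoidHom
    simpa using this
  have cK' : ∀ n, (∀ k ∈ K, Commute n k) → n ∈ K' := by
    intro n hn
    rw [memK']
    apply mem_Ls_of_commute X
    intro k hk
    have := (hn (φ k) ((memK _).2 (by simpa using hk))).map φ.symm.toMonoidHom
    simpa using this
  have hd := D.dichotomy X.ct (K.map ι) (K'.map ι)
    (fg_map (fg_map (Hs_fg X g v) _) _) (fg_map (fg_map (Ls_fg X g v) _) _)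
    (by
      rintro _ ⟨k, hk, rfl⟩ _ ⟨k', hk', rfl⟩
      exact (hcomm k hk k' hk').map ι)
    (((Hs_big X g v).map φ.injective).map X.inj)
    (((Ls_big X g v).map φ.injective).map X.inj)
  rcases hd with ⟨g', v', h1, h2⟩ | ⟨g', v', h1, h2⟩
  · refine ⟨g', v', Or.inl ?_⟩
    have l1 : K ≤ Hs D ι g' v' := fun n hn => h1 _ ⟨n, hn, rfl⟩
    have l2 : K' ≤ Ls D ι g' v' := fun n hn => h2 _ ⟨n, hn, rfl⟩
    refine ⟨le_antisymm l1 ?_, le_antisymm l2 ?_⟩
    · intro n hn
      exact cK n (fun k hk => Hs_commute_Ls X hn (l2 hk))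
    · intro n hn
      exact cK' n (fun k hk => (Hs_commute_Ls X (l1 hk) hn).symm)
  · refine ⟨g', v', Or.inr ?_⟩
    have l1 : K' ≤ Hs D ι g' v' := fun n hn => h1 _ ⟨n, hn, rfl⟩
    have l2 : K ≤ Ls D ι g' v' := fun n hn => h2 _ ⟨n, hn, rfl⟩
    refine ⟨le_antisymm l2 ?_, le_antisymm l1 ?_⟩
    · intro n hn
      exact cK n (fun k hk => (Hs_commute_Ls X (l1 hk) hn).symm)
    · intro n hn
      exact cK' n (fun k hk => Hs_commute_Ls X hn (l2 hk))

/-- Automorphisms of `H` permute the traces of conjugates of vertex groups. -/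
theorem perm (φ : H ≃* H) (g : W) (v : Fin 5) :
    ∃ g' v', (Hs D ι g v).map φ.toMonoidHom = Hs D ι g' v' ∧
        (Ls D ι g v).map φ.toMonoidHom = Ls D ι g' v' := by
  obtain ⟨g', v', h | ⟨h1, h2⟩⟩ := perm_weak X φ g v
  · exact ⟨g', v', h⟩
  exfalso
  -- `Hs g' (v'+1) ≤ Ls g' v' = φ (Hs g v)`
  have hadj : ∀ v : Fin 5, C5.Adj v (v + 1) := by decide
  have hle : (Hs D ι g' (v' + 1)).map φ.symm.toMonoidHom ≤ Hs D ι g v := by
    rintro _ ⟨n, hn, rfl⟩
    have h3 : n ∈ (Hs D ι g v).map φ.toMonoidHom := by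
      rw [h1]; exact Hs_le_Ls g' (hadj v') hn
    obtain ⟨m, hm, rfl⟩ := h3
    simpa using hm
  obtain ⟨g1, v1, ⟨h3, -⟩ | ⟨h3, -⟩⟩ := perm_weak X φ.symm g' (v' + 1)
  · -- then `Hs g1 v1 = Hs g v`, so `Hs g' (v'+1) = Ls g' v'`
    obtain ⟨n, hn, hn1⟩ := Hs_nontrivial X g1 v1
    have hn2 : n ∈ Hs D ι g v := by
      rw [h3] at hle; exact hle hn
    have h4 := (Hs_eq_of_inter X hn1 hn hn2).2
    rw [h4] at h3
    apply Ls_not_le_Hs X g' g' v' (v' + 1)
    rw [← h1, ← h3]
    rintro _ ⟨_, ⟨n, hn, rfl⟩, rfl⟩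
    simpa using hn
  · rw [h3] at hle
    exact Ls_not_le_Hs X _ _ _ _ hle

end Main

end Pool.Agent.Lib.MP_c91b70_al
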