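import Pool.Agent.Lib.MP_c91b70_al.Main1

/-!
# Every generator of the right-angled Artin group has a power in the trace of a vertex group
-/

set_option autoImplicit false
set_option linter.unusedSectionVars false

namespace Pool.Agent.Lib.MP_c91b70_al

open GraphProd

section Main2

variable {G : Fin 5 → Type} [∀ v, Group (G v)] {W : Type} [Group W]
  {D : GraphProd C5 G W} {V : Type} {Λ : SimpleGraph V} {A : Type} [Group A]
  {E : GraphProd Λ (fun _ : V => Multiplicative ℤ) A} {N : Subgroup A} [N.Normal] {ι : N →* W}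
  (X : Setup D ι) (hN : N.index ≠ 0)

/-- The generator of the vertex group of `t`. -/
def gen (E : GraphProd Λ (fun _ : V => Multiplicative ℤ) A) (t : V) : A :=
  E.of t (Multiplicative.ofAdd 1)

/-- The canonical power in `N`. -/
noncomputable def pw (N : Subgroup A) [N.Normal] (x : A) : N := ⟨x ^ N.index, N.pow_index_mem x⟩

theorem coe_pw (x : A) : ((pw N x : N) : A) = x ^ N.index := rfl

theorem coe_conjNormal (a : A) (n : N) : ((MulAut.conjNormal a n : N) : A) = a * n * a⁻¹ := by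
  simp

theorem gen_pow_ne (t : V) {k : ℕ} (hk : k ≠ 0) : gen E t ^ k ≠ 1 := by
  intro h
  have h1 := congrArg (E.proj t) h
  rw [gen, map_pow, E.proj_self, map_one (E.proj t), ← ofAdd_nsmul] at h1
  have h2 : (k • (1 : ℤ)) = 0 := h1
  simp at h2
  exact hk h2

theorem par_commute_gen (t : V) {x : A} (h : x ∈ E.par (lk Λ t)) : Commute x (gen E t) :=
  (E.commute_of_lk h _).symm

include X hN

/-- The key lemma on doubly fixed edges. -/
theorem key_edge {t : V} (hno : ∀ (a : A) (g : W) (v : Fin 5), pw N (a * gen E t * a⁻¹) ∉ Hs D ι g v)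
    {p z : E.Tr t} (hpz : p ≠ z) {g : W} {i j : Fin 5} (hij : i ≠ j) {a1 b1 a2 b2 : N}
    (ha1 : a1 ∈ Hs D ι g i) (hb1 : b1 ∈ Hs D ι g i) (h1 : ¬ Commute a1 b1)
    (ha2 : a2 ∈ Hs D ι g j) (hb2 : b2 ∈ Hs D ι g j) (h2 : ¬ Commute a2 b2)
    (f1 : (a1 : A) • p = p ∧ (a1 : A) • z = z) (f2 : (b1 : A) • p = p ∧ (b1 : A) • z = z)
    (f3 : (a2 : A) • p = p ∧ (a2 : A) • z = z) (f4 : (b2 : A) • p = p ∧ (b2 : A) • z = z) :
    False := by
  obtain ⟨α, hα⟩ := E.fix_two t hpz
  have hc : ∀ n : N, ((n : A) • p = p ∧ (n : A) • z = z) →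
      Commute n (pw N (α * gen E t * α⁻¹)) := by
    intro n hn
    have h3 := par_commute_gen t (hα n hn.1 hn.2)
    have h4 : Commute (n : A) (α * gen E t * α⁻¹) := by
      have h5 : Commute (cj α (n : A)) (cj α (α * gen E t * α⁻¹)) := by
        have : cj α (α * gen E t * α⁻¹) = gen E t := by simp only [cj]; group
        rw [this]; exact h3
      exact conj_commute_iff.1 h5
    apply Subtype.ext
    exact (h4.pow_right N.index).eq
  set η := pw N (α * gen E t * α⁻¹) with hη
  have hη1 : η ≠ 1 := by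
    intro h
    have h5 : (α * gen E t * α⁻¹) ^ N.index = 1 := congrArg Subtype.val h
    rw [conj_pow] at h5
    apply gen_pow_ne (E := E) t hN
    have : gen E t ^ N.index = α⁻¹ * (α * gen E t ^ N.index * α⁻¹) * α := by group
    rw [this, h5]; group
  have inj : ∀ {x y : N}, ¬ Commute x y → ¬ Commute (ι x) (ι y) := by
    intro x y hxy h
    exact hxy (X.inj (by rw [map_mul, map_mul]; exact h.eq))
  have m1 : cj g (ι η) ∈ D.par (lk C5 i) :=
    D.cent_nonab X.ct ha1 hb1 (inj h1) ((hc a1 f1).symm.map ι) ((hc b1 f2).symm.map ι)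
  have m2 : cj g (ι η) ∈ D.par (lk C5 j) :=
    D.cent_nonab X.ct ha2 hb2 (inj h2) ((hc a2 f3).symm.map ι) ((hc b2 f4).symm.map ι)
  have m3 := D.mem_par_inter m1 m2
  by_cases hadj : C5.Adj i j
  · have e : lk C5 i ∩ lk C5 j = ∅ := by
      have key : ∀ i j x : Fin 5, C5.Adj i j → ¬ (C5.Adj i x ∧ C5.Adj j x) := by decide
      ext x
      simpa [lk] using key i j x hadj
    rw [e, D.par_empty, Subgroup.mem_bot] at m3
    apply hη1
    apply X.inj
    rw [map_one]
    exact conj_eq_one m3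
  · obtain ⟨w, hw, -⟩ := c5_lk_inter (Ne.symm hij) hadj
    rw [hw] at m3
    exact hno α g w m3

/-- Step 4 of the proof. -/
theorem gen_mem (t : V) : ∃ g v, pw N (gen E t) ∈ Hs D ι g v := by
  by_contra hcon
  push Not at hcon
  have hno : ∀ (a : A) (g : W) (v : Fin 5), pw N (a * gen E t * a⁻¹) ∉ Hs D ι g v := by
    intro a g v h
    obtain ⟨g', v', hp, -⟩ := perm X (MulAut.conjNormal a⁻¹) g v
    apply hcon g' v'
    rw [← hp]
    refine ⟨_, h, ?_⟩
    apply Subtype.ext
    change ((MulAut.conjNormal a⁻¹ (pw N (a * gen E t * a⁻¹)) : N) : A) = _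
    rw [coe_conjNormal, coe_pw, coe_pw, conj_pow]
    group
  have T := E.tm t
  have hd := E.td_smul t
  have he := E.td_even t
  -- adjacent ones commute
  have hadj1 : ∀ i : Fin 5, C5.Adj i (i + 1) := by decide
  have hadj4 : ∀ i : Fin 5, C5.Adj i (i + 4) := by decide
  have hcomm : ∀ (g : W) (i j : Fin 5), C5.Adj i j → ∀ a ∈ Hs D ι g i, ∀ b ∈ Hs D ι g j,
      Commute a b := fun g i j hij a ha b hb => Hs_commute_Ls X ha (Hs_le_Ls g hij hb)
  -- all elements are elliptic
  have hell : ∀ (g : W) (i : Fin 5), ∀ x ∈ Hs D ι g i, ∃ y : E.Tr t, (x : A) • y = y := by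
    intro g i x hx
    by_contra hhyp
    push Not at hhyp
    obtain ⟨p, z, hpz, hfix⟩ := T.hyper_comm hd he hhyp
    have hne : p ≠ z := by
      rintro rfl
      rw [T.self] at hpz
      exact zero_ne_one hpz
    obtain ⟨a, ha, b, hb, c, hc, e, he', hn⟩ := Hs_big X g (i + 1)
    obtain ⟨a', ha', b', hb', c', hc', e', he'', hn'⟩ := Hs_big X g (i + 4)
    have com : ∀ j : Fin 5, C5.Adj i j → ∀ y ∈ Hs D ι g j, Commute (y : A) (x : A) := by
      intro j hij y hy
      exact congrArg Subtype.val (hcomm g i j hij x hx y hy).symm.eq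
    have fx : ∀ j : Fin 5, C5.Adj i j → ∀ y ∈ Hs D ι g j, ∀ y' ∈ Hs D ι g j,
        ((y * y' * y⁻¹ * y'⁻¹ : N) : A) • p = p ∧ ((y * y' * y⁻¹ * y'⁻¹ : N) : A) • z = z := by
      intro j hij y hy y' hy'
      exact hfix y y' (com j hij y hy) (com j hij y' hy')
    have cm : ∀ j : Fin 5, ∀ y ∈ Hs D ι g j, ∀ y' ∈ Hs D ι g j, y * y' * y⁻¹ * y'⁻¹ ∈ Hs D ι g j :=
      fun j y hy y' hy' => mul_mem (mul_mem (mul_mem hy hy') (inv_mem hy)) (inv_mem hy')
    have hij : ∀ i : Fin 5, i + 1 ≠ i + 4 := by decide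
    exact key_edge X hN hno hne (hij i) (cm _ a ha b hb) (cm _ c hc e he') hn
      (cm _ a' ha' b' hb') (cm _ c' hc' e' he'') hn'
      (fx _ (hadj1 i) a ha b hb) (fx _ (hadj1 i) c hc e he')
      (fx _ (hadj4 i) a' ha' b' hb') (fx _ (hadj4 i) c' hc' e' he'')
  -- uniqueness
  have huniq : ∀ (g : W) (i j : Fin 5), i ≠ j → ∀ p z : E.Tr t,
      (∀ n ∈ Hs D ι g i, (n : A) • p = p) → (∀ n ∈ Hs D ι g j, (n : A) • p = p) →
      (∀ n ∈ Hs D ι g i, (n : A) • z = z) → (∀ n ∈ Hs D ι g j, (n : A) • z = z) → p = z := by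
    intro g i j hij p z h1 h2 h3 h4
    by_contra hne
    obtain ⟨a, ha, b, hb, hab⟩ := (Hs_big X g i).nonAb
    obtain ⟨a', ha', b', hb', hab'⟩ := (Hs_big X g j).nonAb
    exact key_edge X hN hno hne hij ha hb hab ha' hb' hab' ⟨h1 a ha, h3 a ha⟩ ⟨h1 b hb, h3 b hb⟩
      ⟨h2 a' ha', h4 a' ha'⟩ ⟨h2 b' hb', h4 b' hb'⟩
  -- common fixed vertices of adjacent ones
  have hfixH : ∀ (g : W) (i : Fin 5), ∃ y : E.Tr t, ∀ k ∈ (Hs D ι g i).map N.subtype, k • y = y := by
    intro g i
    apply T.serre hd he _ (fg_map (Hs_fg X g i) _)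
    rintro _ ⟨x, hx, rfl⟩
    exact hell g i x hx
  have hpair : ∀ (g : W) (i : Fin 5), ∃ y : E.Tr t,
      (∀ n ∈ Hs D ι g i, (n : A) • y = y) ∧ ∀ n ∈ Hs D ι g (i + 1), (n : A) • y = y := by
    intro g i
    obtain ⟨y, h1, h2⟩ := T.common_fixed hd he _ _ (by
      rintro _ ⟨x, hx, rfl⟩ _ ⟨x', hx', rfl⟩
      exact congrArg Subtype.val (hcomm g i (i + 1) (hadj1 i) x hx x' hx').eq)
      (hfixH g i) (hfixH g (i + 1))
    exact ⟨y, fun n hn => h1 _ ⟨n, hn, rfl⟩, fun n hn => h2 _ ⟨n, hn, rfl⟩⟩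
  choose y hy1 hy2 using hpair
  -- the pentagon argument
  have hpent : ∀ (g : W) (i : Fin 5), y g i = y g (i + 1) := by
    intro g i
    by_contra hne
    obtain ⟨q, hq1, hq2⟩ := T.exists_edge (G := A) hd hne
    -- `p = y g i`, `q` next vertex on the way to `y g (i+1)`, both fixed by `Hs g (i+1)`
    have hqfix : ∀ n ∈ Hs D ι g (i + 1), (n : A) • q = q :=
      fun n hn => hq2 n (hy2 g i n hn) (hy1 g (i + 1) n hn)
    -- geometric position of `q`
    obtain ⟨q', hq'1, hq'2⟩ := T.geod (y g i) (y g (i + 1)) 1 (by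
      apply Nat.pos_of_ne_zero
      intro h
      exact hne (T.eq_of_zero _ _ h))
    have hq'fix : ∀ n ∈ Hs D ι g (i + 1), (n : A) • q' = q' :=
      fun n hn => T.convex hd (by omega) n (hy2 g i n hn) (hy1 g (i + 1) n hn)
    have hpq : y g i ≠ q' := by
      intro h
      rw [← h, T.self] at hq'1
      exact zero_ne_one hq'1
    -- no segment fixed by another `Hs g j` crosses the edge
    have hcross : ∀ j : Fin 5, j ≠ i + 1 → ∀ z z' : E.Tr t,
        (∀ n ∈ Hs D ι g j, (n : A) • z = z) → (∀ n ∈ Hs D ι g j, (n : A) • z' = z') →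
        E.td t z q' = E.td t z (y g i) + 1 → E.td t z' (y g i) = E.td t z' q' + 1 → False := by
      intro j hj z z' hz hz' h1 h2
      obtain ⟨c1, c2⟩ := T.cross hq'1 h1 h2
      exact hpq (huniq g (i + 1) j (Ne.symm hj) _ _ (hy2 g i)
        (fun n hn => T.convex hd c1 n (hz n hn) (hz' n hn)) hq'fix
        (fun n hn => T.convex hd c2 n (hz n hn) (hz' n hn)))
    have side : ∀ z : E.Tr t, E.td t z q' = E.td t z (y g i) + 1 ∨
        E.td t z (y g i) = E.td t z q' + 1 := by
      intro z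
      rcases T.adj z (y g i) q' hq'1 with h | h
      · exact Or.inr h
      · exact Or.inl h
    have e5 : ∀ i : Fin 5, i + 1 + 1 = i + 2 ∧ i + 2 + 1 = i + 3 ∧ i + 3 + 1 = i + 4 ∧
      i + 4 + 1 = i ∧ i + 2 ≠ i + 1 ∧ i + 3 ≠ i + 1 ∧ i + 4 ≠ i + 1 ∧ i ≠ i + 1 := by decide
    obtain ⟨e1, e2, e3, e4, n2, n3, n4, n0⟩ := e5 i
    have f12 := hy2 g (i + 1); rw [e1] at f12
    have f23 := hy2 g (i + 2); rw [e2] at f23
    have f34 := hy2 g (i + 3); rw [e3] at f34
    have f40 := hy2 g (i + 4); rw [e4] at f40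
    have s0 : E.td t (y g i) q' = E.td t (y g i) (y g i) + 1 := by
      rw [T.self]; exact hq'1
    have s1 : E.td t (y g (i + 1)) (y g i) = E.td t (y g (i + 1)) q' + 1 := by
      rw [T.symm (y g (i + 1)) (y g i), T.symm (y g (i + 1)) q']; omega
    have s2 : E.td t (y g (i + 2)) (y g i) = E.td t (y g (i + 2)) q' + 1 := by
      rcases side (y g (i + 2)) with h | h
      · exact (hcross (i + 2) n2 _ _ (hy1 g (i + 2)) f12 h s1).elim
      · exact h
    have s3 : E.td t (y g (i + 3)) (y g i) = E.td t (y g (i + 3)) q' + 1 := by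
      rcases side (y g (i + 3)) with h | h
      · exact (hcross (i + 3) n3 _ _ (hy1 g (i + 3)) f23 h s2).elim
      · exact h
    have s4 : E.td t (y g (i + 4)) (y g i) = E.td t (y g (i + 4)) q' + 1 := by
      rcases side (y g (i + 4)) with h | h
      · exact (hcross (i + 4) n4 _ _ (hy1 g (i + 4)) f34 h s3).elim
      · exact h
    exact hcross i n0 _ _ (hy1 g i) f40 s0 s4
  -- all equal to `y g 0`
  have hall : ∀ (g : W) (i : Fin 5), y g i = y g 0 := by
    intro g i
    have h0 := hpent g 0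
    have h1 := hpent g 1
    have h2 := hpent g 2
    have h3 := hpent g 3
    have e1 : y g 1 = y g 0 := h0.symm
    have e2 : y g 2 = y g 0 := (h1.symm).trans e1
    have e3 : y g 3 = y g 0 := (h2.symm).trans e2
    have e4 : y g 4 = y g 0 := (h3.symm).trans e3
    fin_cases i
    · rfl
    · exact e1
    · exact e2
    · exact e3
    · exact e4
  have hfix : ∀ (g : W) (i : Fin 5), ∀ n ∈ Hs D ι g i, (n : A) • y g 0 = y g 0 := by
    intro g i n hn
    rw [← hall g i]
    exact hy1 g i n hn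
  -- constancy along chambers
  have hconst1 : ∀ (g : W) (j : Fin 5) (s : G j), y (g * D.of j s) 0 = y g 0 := by
    intro g j s
    have e1 : Hs D ι (g * D.of j s) j = Hs D ι g j := by
      apply (Hs_congr _).symm
      have : g⁻¹ * (g * D.of j s) = D.of j s := by group
      rw [this]
      exact D.of_mem_par (Or.inl rfl) s
    have e2 : Hs D ι (g * D.of j s) (j + 1) = Hs D ι g (j + 1) := by
      apply (Hs_congr _).symm
      have : g⁻¹ * (g * D.of j s) = D.of j s := by group
      rw [this]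
      have key : ∀ j : Fin 5, C5.Adj (j + 1) j := by decide
      exact D.of_mem_par (Or.inr (key j)) s
    have hj : ∀ j : Fin 5, j ≠ j + 1 := by decide
    apply huniq g j (j + 1) (hj j)
    · rw [← e1]; exact hfix _ j
    · rw [← e2]; exact hfix _ (j + 1)
    · exact hfix g j
    · exact hfix g (j + 1)
  have hconst : ∀ (x g : W), y (g * x) 0 = y g 0 := by
    intro x
    refine D.induct (p := fun x => ∀ g, y (g * x) 0 = y g 0) ?_ ?_ ?_ x
    · intro g; rw [mul_one]
    · intro v s g; exact hconst1 g v s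
    · intro a b ha hb g
      rw [← mul_assoc, hb, ha]
  have hNfix : ∀ n : N, (n : A) • y 1 0 = y 1 0 := by
    intro n
    have h1 : ∀ i : Fin 5, ∀ k ∈ Hs D ι (ι n * 1) i, (k : A) • ((n : A) • y 1 0) = (n : A) • y 1 0 := by
      intro i k hk
      have hk2 : n⁻¹ * k * n ∈ Hs D ι 1 i := by
        rw [mem_Rs] at hk ⊢
        have : cj (1 : W) (ι (n⁻¹ * k * n)) = cj (ι n * 1) (ι k) := by
          simp only [cj, map_mul, map_inv]; group
        rw [this]; exact hk
      have h2 := hfix 1 i _ hk2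
      have h3 : (k : A) * (n : A) = (n : A) * ((n⁻¹ * k * n : N) : A) := by
        push_cast; group
      rw [← mul_smul, h3, mul_smul, h2]
    have h2 : (n : A) • y 1 0 = y (ι n * 1) 0 := by
      apply huniq (ι n * 1) 0 1 (by decide)
      · exact h1 0
      · exact h1 1
      · exact hfix _ 0
      · exact hfix _ 1
    rw [h2, mul_one]
    have := hconst (ι n) 1
    rwa [one_mul] at this
  -- the final contradiction
  obtain ⟨β, a, hy⟩ := exists_rep _ (y 1 0)
  rw [hy] at hNfix
  have hle : ∀ n : N, (n : A) ∈ E.fac t β := by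
    intro n
    have h1 := hNfix (MulAut.conjNormal a n)
    rw [smul_vert_eq, coe_conjNormal] at h1
    have : a⁻¹ * (a * (n : A) * a⁻¹) * a = n := by group
    rwa [this] at h1
  cases β
  · have h1 := hle (pw N (gen E t))
    have h2 := E.proj_par (S := {t}ᶜ) (v := t) (by simp) h1
    rw [coe_pw, gen, map_pow, E.proj_self, ← ofAdd_nsmul] at h2
    have h3 : (N.index • (1 : ℤ)) = 0 := h2
    simp at h3
    exact hN h3
  · -- `gen t ^ index` is central in `N`
    have hcent : ∀ n : N, Commute (pw N (gen E t)) n := by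
      intro n
      have h1 := hle n
      obtain ⟨z, c, hc, e⟩ := E.mem_par_st h1
      have h2 : Commute (n : A) (gen E t) := by
        rw [e]
        have c1 : Commute (E.of t z) (gen E t) := (Commute.all z (Multiplicative.ofAdd 1)).map _
        exact c1.mul_left (par_commute_gen t hc)
      apply Subtype.ext
      exact (h2.pow_right N.index).eq.symm
    have h1 : pw N (gen E t) ∈ Ls D ι 1 0 := mem_Ls_of_commute X (fun k _ => hcent k)
    have h2 : pw N (gen E t) ∈ Ls D ι 1 1 := mem_Ls_of_commute X (fun k _ => hcent k)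
    rw [mem_Rs] at h1 h2
    have h3 := D.mem_par_inter h1 h2
    have e : lk C5 0 ∩ lk C5 1 = ∅ := by
      have key : ∀ x : Fin 5, ¬ (C5.Adj 0 x ∧ C5.Adj 1 x) := by decide
      ext x
      simpa [lk] using key x
    rw [e, D.par_empty, Subgroup.mem_bot] at h3
    have h4 : pw N (gen E t) = 1 := X.inj (by rw [map_one]; exact conj_eq_one h3)
    exact gen_pow_ne (E := E) t hN (congrArg Subtype.val h4)

end Main2

end Pool.Agent.Lib.MP_c91b70_al
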