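import Pool.Agent.Lib.MP_c91b70_al.Main2

/-!
# The local structure at a generator of the right-angled Artin group
-/

set_option autoImplicit false
set_option linter.unusedSectionVars false

namespace Pool.Agent.Lib.MP_c91b70_al

open GraphProd

section Main3

variable {G : Fin 5 → Type} [∀ v, Group (G v)] {W : Type} [Group W]
  {D : GraphProd C5 G W} {V : Type} {Λ : SimpleGraph V} {A : Type} [Group A]
  {E : GraphProd Λ (fun _ : V => Multiplicative ℤ) A} {N : Subgroup A} [N.Normal] {ι : N →* W}
  (X : Setup D ι) (hN : N.index ≠ 0)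

theorem ofAdd_one_pow_ne {k : ℕ} (hk : k ≠ 0) : (Multiplicative.ofAdd (1 : ℤ)) ^ k ≠ 1 := by
  intro h
  rw [← ofAdd_nsmul] at h
  have h2 : (k • (1 : ℤ)) = 0 := h
  simp at h2
  exact hk h2

theorem ofAdd_one_zpow_ne {k : ℤ} (hk : k ≠ 0) : (Multiplicative.ofAdd (1 : ℤ)) ^ k ≠ 1 := by
  intro h
  rw [← ofAdd_zsmul] at h
  have h2 : (k • (1 : ℤ)) = 0 := h
  simp at h2
  exact hk h2

theorem comm_gen_of_pow {s : V} {n : A} {k : ℕ} (hk : k ≠ 0) (h : Commute n (gen E s ^ k)) :
    Commute n (gen E s) := by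
  have h1 : Commute n (1 * E.of s (Multiplicative.ofAdd 1 ^ k) * 1⁻¹) := by
    rw [one_mul, inv_one, mul_one, map_pow]; exact h
  have h2 := E.centralizer_of s (ofAdd_one_pow_ne hk) h1
  have h3 : n ∈ E.par (st Λ s) := by
    have : (1 : A)⁻¹ * n * 1 = n := by group
    rwa [this] at h2
  obtain ⟨z, c, hc, rfl⟩ := E.mem_par_st h3
  have c1 : Commute (E.of s z) (gen E s) := (Commute.all z (Multiplicative.ofAdd 1)).map _
  exact c1.mul_left (par_commute_gen s hc)

include X

theorem pw_ne (hN : N.index ≠ 0) (s : V) : pw N (gen E s) ≠ 1 := by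
  intro h
  exact gen_pow_ne (E := E) s hN (congrArg Subtype.val h)

/-- A conjugate of a vertex group meeting a conjugate of a link group. -/
theorem inter_Ls {g g' : W} {v v' : Fin 5} {n : N} (hn : n ≠ 1) (h' : n ∈ Hs D ι g' v')
    (h : n ∈ Ls D ι g v) :
    C5.Adj v v' ∧ ∃ c ∈ D.par (lk C5 v), Hs D ι g' v' = Hs D ι (g * c) v' := by
  have h1 := D.conj_mem (x := cj g (ι n)) (a := g⁻¹ * g') h (by
    have : (g⁻¹ * g')⁻¹ * cj g (ι n) * (g⁻¹ * g') = cj g' (ι n) := by simp only [cj]; group
    rw [this]; exact h')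
  set r := D.ret (lk C5 v) (g⁻¹ * g') with hr
  have hne : r⁻¹ * cj g (ι n) * r ≠ 1 := by
    intro h2
    apply hn
    apply X.inj
    rw [map_one]
    exact conj_eq_one (conj_eq_one h2)
  have hadj : C5.Adj v v' := by
    by_contra hnadj
    have e : lk C5 v ∩ {v'} = ∅ := by
      ext x
      simp only [lk, Set.mem_inter_iff, Set.mem_singleton_iff, Set.mem_empty_iff_false, iff_false]
      rintro ⟨hx, rfl⟩
      exact hnadj hx
    rw [e, D.par_empty, Subgroup.mem_bot] at h1
    exact hne h1
  refine ⟨hadj, r, D.ret_mem _ _, ?_⟩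
  have h3 : n ∈ Hs D ι (g * r) v' := by
    rw [mem_Rs, ← cj_cj]
    exact D.par_mono Set.inter_subset_right h1
  exact (Hs_eq_of_inter X hn h' h3).2

include hN

/-- Adjacent generators. -/
theorem adj_gen {s t : V} (hst : Λ.Adj s t) {g : W} {v : Fin 5}
    (ht : pw N (gen E t) ∈ Hs D ι g v) : pw N (gen E s) ∈ Ls D ι g v := by
  obtain ⟨g', v', hs⟩ := gen_mem X hN (E := E) s
  have hcomm : Commute (pw N (gen E s)) (pw N (gen E t)) := by
    apply Subtype.ext
    have : Commute (gen E s) (gen E t) := E.comm hst _ _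
    exact (this.pow_pow N.index N.index).eq
  have hc2 := hcomm.map ι
  have hs0 := hs
  have ht0 := ht
  rw [mem_Rs, D.par_singleton] at hs0 ht0
  obtain ⟨η, hη⟩ := hs0
  obtain ⟨ξ, hξ⟩ := ht0
  have hη1 : η ≠ 1 := by
    rintro rfl
    rw [map_one] at hη
    exact pw_ne X hN s (X.inj (by rw [map_one]; exact conj_eq_one hη.symm))
  have hξ1 : ξ ≠ 1 := by
    rintro rfl
    rw [map_one] at hξ
    exact pw_ne X hN t (X.inj (by rw [map_one]; exact conj_eq_one hξ.symm))
  have e1 : g' * D.of v' η * g'⁻¹ = ι (pw N (gen E s)) := by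
    rw [hη]; simp only [cj]; group
  have e2 : g * D.of v ξ * g⁻¹ = ι (pw N (gen E t)) := by
    rw [hξ]; simp only [cj]; group
  have h1 : cj g (ι (pw N (gen E s))) ∈ D.par (st C5 v) :=
    D.centralizer_of v hξ1 (by rw [e2]; exact hc2)
  by_cases hv : v' = v
  · exfalso
    subst hv
    -- both lie in the same conjugate
    have h2 : ι (pw N (gen E s)) • vert (D.fac v') true g = vert (D.fac v') true g := by
      rw [smul_vert_eq]; exact h1
    rw [← e1] at h2
    have h3 := D.fix_unique v' hη1 h2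
    have h4 : Hs D ι g v' = Hs D ι g' v' := Hs_congr ((vert_eq _).1 h3)
    rw [← h4, mem_Rs, D.par_singleton] at hs
    obtain ⟨η', hη'⟩ := hs
    have hcc : Commute η' ξ := by
      rw [← D.of_commute_iff, hη', hξ]
      exact conj_commute hc2
    have hinf : ∀ n : ℕ, n ≠ 0 → ξ ^ n ≠ 1 := by
      intro n hn h
      have h5 : (pw N (gen E t)) ^ n = 1 := by
        apply X.inj
        rw [map_pow, map_one, ← e2, conj_pow, ← map_pow, h, map_one]; group
      have h6 : (gen E t ^ N.index) ^ n = 1 := congrArg Subtype.val h5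
      rw [← pow_mul] at h6
      exact gen_pow_ne (E := E) t (Nat.mul_ne_zero hN hn) h6
    obtain ⟨m, n, hm, hmn⟩ := X.pow v' ξ η' hinf hcc
    have e3 : g * D.of v' η' * g⁻¹ = ι (pw N (gen E s)) := by
      rw [hη']; simp only [cj]; group
    have h7 : (pw N (gen E s)) ^ m * (pw N (gen E t)) ^ n = 1 := by
      apply X.inj
      rw [map_mul, map_zpow, map_zpow, map_one, ← e3, ← e2, conj_zpow, conj_zpow, ← map_zpow,
        ← map_zpow]
      have : g * D.of v' (η' ^ m) * g⁻¹ * (g * D.of v' (ξ ^ n) * g⁻¹)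
          = g * (D.of v' (η' ^ m * ξ ^ n)) * g⁻¹ := by
        rw [map_mul]; group
      rw [this, hmn, map_one]; group
    have h8 : (gen E s ^ N.index) ^ m * (gen E t ^ N.index) ^ n = 1 := by
      exact congrArg Subtype.val h7
    have h9 := congrArg (E.proj s) h8
    rw [map_mul, map_zpow, map_zpow, map_pow, map_pow, gen, gen, E.proj_self,
      E.proj_ne hst.ne.symm, one_pow, one_zpow, mul_one, map_one (E.proj s), ← zpow_natCast,
      ← zpow_mul] at h9
    exact ofAdd_one_zpow_ne (mul_ne_zero (by exact_mod_cast hN) hm) h9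
  · rw [mem_Rs]
    obtain ⟨a, c, hc, e⟩ := D.mem_par_st h1
    have h2 : a = 1 := by
      have h3 := congrArg (D.proj v) e
      have h4 : D.proj v (D.of v a * c) = a := by
        rw [map_mul, D.proj_self, D.proj_par (not_mem_lk v) hc, mul_one]
      rw [h4] at h3
      rw [← h3, ← e1]
      simp only [cj, map_mul, map_inv, D.proj_ne hv]
      group
    rw [e, h2, map_one, one_mul]
    exact hc

variable (E) in
include E in
/-- The link of a generator is independent. -/
theorem link_indep {t s s' : V} (hs : Λ.Adj t s) (hs' : Λ.Adj t s') : ¬ Λ.Adj s s' := by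
  intro hss
  obtain ⟨g, v, ht⟩ := gen_mem X hN (E := E) t
  obtain ⟨g1, v1, h1⟩ := gen_mem X hN (E := E) s
  obtain ⟨g2, v2, h2⟩ := gen_mem X hN (E := E) s'
  have a1 := (inter_Ls X (pw_ne X hN s) h1 (adj_gen X hN hs.symm ht)).1
  have a2 := (inter_Ls X (pw_ne X hN s') h2 (adj_gen X hN hs'.symm ht)).1
  have a3 := (inter_Ls X (pw_ne X hN s) h1 (adj_gen X hN hss h2)).1
  have key : ∀ v v1 v2 : Fin 5, C5.Adj v v1 → C5.Adj v v2 → ¬ C5.Adj v2 v1 := by decide
  exact key v v1 v2 a1 a2 a3

variable {t : V} {g : W} {v : Fin 5} (ht : pw N (gen E t) ∈ Hs D ι g v)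

include ht

/-- The link group of `t` commutes with the trace of the vertex group. -/
theorem link_commute {a : A} (ha : a ∈ E.par (lk Λ t)) {n : N} (hn : n ∈ Hs D ι g v) :
    Commute a (n : A) := by
  have hle : E.par (lk Λ t) ≤ Subgroup.centralizer {(n : A)} := by
    apply E.par_le
    intro s hs z
    rw [Subgroup.mem_centralizer_singleton_iff]
    have h1 : Commute (n : A) (gen E s) := by
      apply comm_gen_of_pow hN
      have h2 := Hs_commute_Ls X hn (adj_gen X hN (hs : Λ.Adj t s).symm ht)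
      exact congrArg Subtype.val h2.eq
    have h2 : E.of s z = gen E s ^ (Multiplicative.toAdd z) := by
      rw [gen, ← map_zpow, ← ofAdd_zsmul]
      simp
    rw [h2]
    exact (h1.zpow_right _).symm.eq
  have := hle ha
  rw [Subgroup.mem_centralizer_singleton_iff] at this
  exact this

omit hN ht in
theorem Hs_inf_Ls {n : N} (h : n ∈ Hs D ι g v) (h' : n ∈ Ls D ι g v) : n = 1 := by
  rw [mem_Rs] at h h'
  have h3 := D.mem_par_inter h h'
  have e : ({v} : Set (Fin 5)) ∩ lk C5 v = ∅ := by
    ext x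
    simp only [Set.mem_inter_iff, Set.mem_singleton_iff, Set.mem_empty_iff_false, iff_false]
    rintro ⟨rfl, hx⟩
    exact not_mem_lk _ hx
  rw [e, D.par_empty, Subgroup.mem_bot] at h3
  exact X.inj (by rw [map_one]; exact conj_eq_one h3)

/-- The intersection of the link group with `N`. -/
theorem link_inter {n : N} : (n : A) ∈ E.par (lk Λ t) ↔ n ∈ Ls D ι g v := by
  constructor
  · intro hn
    apply mem_Ls_of_commute X
    intro k hk
    apply Subtype.ext
    exact (link_commute X hN ht hn hk).eq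
  · intro hn
    have h1 : Commute (n : A) (gen E t) := by
      apply comm_gen_of_pow hN
      have h2 := (Hs_commute_Ls X ht hn).symm
      exact congrArg Subtype.val h2.eq
    have h2 : (n : A) ∈ E.par (st Λ t) := by
      have h3 : Commute (n : A) (1 * E.of t (Multiplicative.ofAdd 1) * 1⁻¹) := by
        rw [one_mul, inv_one, mul_one]; exact h1
      have h4 := E.centralizer_of t (x := Multiplicative.ofAdd 1) (by
        have := ofAdd_one_pow_ne one_ne_zero; rwa [pow_one] at this) h3
      have : (1 : A)⁻¹ * (n : A) * 1 = n := by group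
      rwa [this] at h4
    obtain ⟨z, c, hc, e⟩ := E.mem_par_st h2
    have hz : E.of t z = gen E t ^ (Multiplicative.toAdd z) := by
      rw [gen, ← map_zpow, ← ofAdd_zsmul]
      simp
    -- `of t z` commutes with `Hs g v`
    have h3 : ∀ k ∈ Hs D ι g v, Commute (E.of t z) (k : A) := by
      intro k hk
      have h4 : Commute (n : A) (k : A) := congrArg Subtype.val (Hs_commute_Ls X hk hn).symm.eq
      have h5 := link_commute X hN ht hc hk
      have h6 : E.of t z = (n : A) * c⁻¹ := by rw [e]; group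
      rw [h6]
      exact h4.mul_left h5.inv_left
    have h4 : (pw N (gen E t)) ^ (Multiplicative.toAdd z) ∈ Ls D ι g v := by
      apply mem_Ls_of_commute X
      intro k hk
      apply Subtype.ext
      have h5 := (h3 k hk).pow_left N.index
      have h6 : (((pw N (gen E t)) ^ (Multiplicative.toAdd z) : N) : A) = E.of t z ^ N.index := by
        rw [hz, Subgroup.coe_zpow, coe_pw, ← zpow_natCast, ← zpow_natCast, ← zpow_mul,
          ← zpow_mul, mul_comm]
      change _ * _ = _ * _
      rw [h6]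
      exact h5.eq
    have h5 := Hs_inf_Ls X (zpow_mem ht _) h4
    have hz0 : Multiplicative.toAdd z = 0 := by
      by_contra hne
      have h6 : (gen E t ^ N.index) ^ (Multiplicative.toAdd z) = 1 := by
        exact congrArg Subtype.val h5
      have h7 := congrArg (E.proj t) h6
      rw [map_zpow, map_pow, gen, E.proj_self, map_one (E.proj t), ← zpow_natCast, ← zpow_mul] at h7
      exact ofAdd_one_zpow_ne (mul_ne_zero (by exact_mod_cast hN) hne) h7
    rw [hz0, zpow_zero] at hz
    rw [e, hz, one_mul]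
    exact hc

/-- The link group permutes the traces of the vertex groups in the link. -/
theorem link_perm {a : A} (ha : a ∈ E.par (lk Λ t)) {w : Fin 5} (hw : C5.Adj v w) {c : W}
    (hc : c ∈ D.par (lk C5 v)) :
    ∃ c' ∈ D.par (lk C5 v), ∃ w', C5.Adj v w' ∧
      (Hs D ι (g * c) w).map (MulAut.conjNormal a).toMonoidHom = Hs D ι (g * c') w' := by
  obtain ⟨g', w', hp, -⟩ := perm X (MulAut.conjNormal a) (g * c) w
  -- `Ls (g c) v = Ls g v`
  have hLs : ∀ n ∈ Hs D ι (g * c) w, n ∈ Ls D ι g v := by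
    intro n hn
    rw [mem_Rs] at hn ⊢
    have h1 : cj (g * c) (ι n) ∈ D.par (lk C5 v) := D.par_mono (by simpa [lk] using hw) hn
    have h2 : cj g (ι n) = c * cj (g * c) (ι n) * c⁻¹ := by simp only [cj]; group
    rw [h2]
    exact mul_mem (mul_mem hc h1) (inv_mem hc)
  obtain ⟨n, hn, hn1⟩ := Hs_nontrivial X (g * c) w
  have h1 : MulAut.conjNormal a n ∈ Hs D ι g' w' := by
    rw [← hp]; exact ⟨n, hn, rfl⟩
  have h2 : MulAut.conjNormal a n ∈ Ls D ι g v := by
    apply mem_Ls_of_commute X
    intro k hk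
    have h3 : Commute n k := (Hs_commute_Ls X hk (hLs n hn)).symm
    have h4 : Commute ((MulAut.conjNormal a) n) ((MulAut.conjNormal a) k) :=
      h3.map ((MulAut.conjNormal a : N ≃* N).toMonoidHom)
    have h5 : (MulAut.conjNormal a) k = k := by
      apply Subtype.ext
      rw [coe_conjNormal, (link_commute X hN ht ha hk).eq]; group
    rwa [h5] at h4
  obtain ⟨h3, c', hc', h4⟩ := inter_Ls X (by
    intro h
    apply hn1
    exact (MulAut.conjNormal a).injective (by rw [h, map_one])) h1 h2
  exact ⟨c', hc', w', h3, by rw [hp, h4]⟩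

end Main3

end Pool.Agent.Lib.MP_c91b70_al
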