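import Pool.Agent.Lib.MP_c91b70_al.Main3
import Pool.Agent.Lib.MP_c91b70_al.FinalCount

/-!
# The two actions on the traces of the vertex groups in a link, and the conclusion
-/

set_option autoImplicit false
set_option linter.unusedSectionVars false

namespace Pool.Agent.Lib.MP_c91b70_al

open GraphProd

section Free

/-- Link groups of right-angled Artin groups with independent links are free. -/
theorem freeOn_link {V : Type} {Λ : SimpleGraph V} {A : Type} [Group A]
    (E : GraphProd Λ (fun _ : V => Multiplicative ℤ) A) (t : V)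
    (hind : ∀ s s', Λ.Adj t s → Λ.Adj t s' → ¬ Λ.Adj s s') :
    FreeOn (fun s : {s : V // Λ.Adj t s} =>
      (⟨gen E s.1, E.of_mem_par (S := lk Λ t) s.2 _⟩ : E.par (lk Λ t))) := by
  classical
  constructor
  · rw [eq_top_iff]
    have hle : E.par (lk Λ t) ≤ (Subgroup.closure (Set.range (fun s : {s : V // Λ.Adj t s} =>
        (⟨gen E s.1, E.of_mem_par (S := lk Λ t) s.2 _⟩ : E.par (lk Λ t))))).map
          (E.par (lk Λ t)).subtype := by
      apply E.par_le
      intro s hs z
      refine ⟨(⟨gen E s, E.of_mem_par (S := lk Λ t) hs _⟩ : E.par (lk Λ t)) ^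
        (Multiplicative.toAdd z), ?_, ?_⟩
      · apply zpow_mem
        apply Subgroup.subset_closure
        exact ⟨⟨s, hs⟩, rfl⟩
      · have h2 : E.of s z = gen E s ^ (Multiplicative.toAdd z) := by
          rw [gen, ← map_zpow, ← ofAdd_zsmul]
          simp
        rw [h2]; simp
    intro x _
    obtain ⟨y, hy, hyx⟩ := hle x.2
    have : y = x := Subtype.ext hyx
    rw [← this]; exact hy
  · intro Y _ x
    let f : ∀ _ : V, Multiplicative ℤ →* Y := fun s =>
      if h : Λ.Adj t s then zpowersHom Y (x ⟨s, h⟩) else 1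
    have hf : ∀ a b, Λ.Adj a b → ∀ g h, Commute (f a g) (f b h) := by
      intro a b hab g h
      by_cases ha : Λ.Adj t a
      · have hb : ¬ Λ.Adj t b := fun hb => hind a b ha hb hab
        simp only [f, dif_neg hb, MonoidHom.one_apply]
        exact Commute.one_right _
      · simp only [f, dif_neg ha, MonoidHom.one_apply]
        exact Commute.one_left _
    refine ⟨(E.lift f hf).comp (E.par (lk Λ t)).subtype, ?_⟩
    rintro ⟨s, hs⟩
    change E.lift f hf (E.of s _) = _
    rw [E.lift_of]
    simp only [f, dif_pos hs]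
    simp

end Free

section Main4

variable {G : Fin 5 → Type} [∀ v, Group (G v)] {W : Type} [Group W]
  {D : GraphProd C5 G W} {V : Type} {Λ : SimpleGraph V} {A : Type} [Group A]
  {E : GraphProd Λ (fun _ : V => Multiplicative ℤ) A} {N : Subgroup A} [N.Normal] {ι : N →* W}
  (X : Setup D ι) (hN : N.index ≠ 0)

instance (v : Fin 5) : DecidablePred (fun w : Fin 5 => C5.Adj v w) :=
  fun w => inferInstanceAs (Decidable (C5.Adj v w))

/-- The link group of a vertex of the pentagon is a free product of six groups of order two. -/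
theorem invFreeOn_link (hinv : ∀ v, ∃ u : Fin 3 → G v, InvFreeOn u) (v : Fin 5) :
    ∃ u : {w : Fin 5 // C5.Adj v w} × Fin 3 → D.par (lk C5 v), InvFreeOn u := by
  classical
  choose u hu using hinv
  refine ⟨fun p => ⟨D.of p.1.1 (u p.1.1 p.2), D.of_mem_par (S := lk C5 v) p.1.2 _⟩, ?_, ?_, ?_⟩
  · rw [eq_top_iff]
    have hle : D.par (lk C5 v) ≤ (Subgroup.closure (Set.range
        (fun p : {w : Fin 5 // C5.Adj v w} × Fin 3 =>
        (⟨D.of p.1.1 (u p.1.1 p.2), D.of_mem_par (S := lk C5 v) p.1.2 _⟩ : D.par (lk C5 v))))).map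
          (D.par (lk C5 v)).subtype := by
      apply D.par_le
      intro w hw x
      have hx : x ∈ Subgroup.closure (Set.range (u w)) := by rw [(hu w).1]; trivial
      have h2 : Subgroup.closure (Set.range (u w)) ≤ ((Subgroup.closure (Set.range
        (fun p : {w : Fin 5 // C5.Adj v w} × Fin 3 =>
        (⟨D.of p.1.1 (u p.1.1 p.2), D.of_mem_par (S := lk C5 v) p.1.2 _⟩ : D.par (lk C5 v))))).map
          (D.par (lk C5 v)).subtype).comap (D.of w) := by
        rw [Subgroup.closure_le]
        rintro _ ⟨i, rfl⟩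
        exact ⟨_, Subgroup.subset_closure ⟨(⟨w, hw⟩, i), rfl⟩, rfl⟩
      exact h2 hx
    intro x _
    obtain ⟨y, hy, hyx⟩ := hle x.2
    have : y = x := Subtype.ext hyx
    rw [← this]; exact hy
  · rintro ⟨⟨w, hw⟩, i⟩
    apply Subtype.ext
    change D.of w (u w i) * D.of w (u w i) = 1
    rw [← map_mul, (hu w).2.1, map_one]
  · intro Y _ x hx
    have hF : ∀ w : {w : Fin 5 // C5.Adj v w}, ∃ F : G w.1 →* Y, ∀ i, F (u w.1 i) = x (w, i) :=
      fun w => (hu w.1).2.2 (fun i => x (w, i)) (fun i => hx _)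
    choose F hF using hF
    let f : ∀ w : Fin 5, G w →* Y := fun w => if h : C5.Adj v w then F ⟨w, h⟩ else 1
    have hf : ∀ a b, C5.Adj a b → ∀ g h, Commute (f a g) (f b h) := by
      intro a b hab g h
      by_cases ha : C5.Adj v a
      · have hb : ¬ C5.Adj v b := fun hb => c5_lk_indep v a b ha hb hab
        simp only [f, dif_neg hb, MonoidHom.one_apply]
        exact Commute.one_right _
      · simp only [f, dif_neg ha, MonoidHom.one_apply]
        exact Commute.one_left _
    refine ⟨(D.lift f hf).comp (D.par (lk C5 v)).subtype, ?_⟩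
    rintro ⟨⟨w, hw⟩, i⟩
    change D.lift f hf (D.of w _) = _
    rw [D.lift_of]
    simp only [f, dif_pos hw]
    exact hF ⟨w, hw⟩ i

/-- The set of conjugates of the vertex groups in the link. -/
abbrev ZZ (D : GraphProd C5 G W) (v : Fin 5) : Type :=
  Σ w : {w : Fin 5 // C5.Adj v w}, (D.par (lk C5 v)) ⧸ (D.par {w.1}).subgroupOf (D.par (lk C5 v))

/-- The element of `ZZ` given by a representative. -/
def zmk (D : GraphProd C5 G W) {v : Fin 5} (w : {w : Fin 5 // C5.Adj v w}) (c : D.par (lk C5 v)) :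
    ZZ D v := ⟨w, (c : (D.par (lk C5 v)) ⧸ (D.par {w.1}).subgroupOf (D.par (lk C5 v)))⟩

theorem zmk_surj {v : Fin 5} (z : ZZ D v) : ∃ w c, z = zmk D w c := by
  obtain ⟨w, x⟩ := z
  obtain ⟨c, rfl⟩ := QuotientGroup.mk_surjective x
  exact ⟨w, c, rfl⟩

theorem smul_zmk {v : Fin 5} (w : {w : Fin 5 // C5.Adj v w}) (u c : D.par (lk C5 v)) :
    u • zmk D w c = zmk D w (u * c) := rfl

theorem zmk_eq {v : Fin 5} {w : {w : Fin 5 // C5.Adj v w}} {c c' : D.par (lk C5 v)} :
    zmk D w c = zmk D w c' ↔ (c : W)⁻¹ * c' ∈ D.par {w.1} := by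
  unfold zmk
  constructor
  · intro h
    have h1 := eq_of_heq (Sigma.mk.inj_iff.1 h).2
    have h2 := QuotientGroup.eq.1 h1
    exact h2
  · intro h
    have : (c : (D.par (lk C5 v)) ⧸ (D.par {w.1}).subgroupOf (D.par (lk C5 v))) = c' :=
      QuotientGroup.eq.2 h
    rw [this]

/-- The subgroup of `N` attached to an element of `ZZ`. -/
noncomputable def bet (ι : N →* W) (g : W) {v : Fin 5} (z : ZZ D v) : Subgroup N :=
  Hs D ι (g * ((Quotient.out z.2 : D.par (lk C5 v)) : W)) z.1.1

theorem bet_zmk (g : W) {v : Fin 5} (w : {w : Fin 5 // C5.Adj v w}) (c : D.par (lk C5 v)) :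
    bet ι g (zmk D w c) = Hs D ι (g * c) w.1 := by
  unfold bet
  apply Hs_congr
  have h1 : zmk D w (Quotient.out (zmk D w c).2) = zmk D w c := by
    unfold zmk
    congr 1
    exact Quotient.out_eq _
  rw [zmk_eq] at h1
  have h2 : (g * ((Quotient.out (zmk D w c).2 : D.par (lk C5 v)) : W))⁻¹ * (g * c) =
      ((Quotient.out (zmk D w c).2 : D.par (lk C5 v)) : W)⁻¹ * c := by group
  rw [h2]
  exact D.par_mono (by rintro x rfl; exact Or.inl rfl) h1

include X

theorem bet_inj (g : W) {v : Fin 5} {z z' : ZZ D v} (h : bet ι g z = bet ι g z') : z = z' := by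
  obtain ⟨w, c, rfl⟩ := zmk_surj z
  obtain ⟨w', c', rfl⟩ := zmk_surj z'
  rw [bet_zmk, bet_zmk] at h
  obtain ⟨n, hn, hn1⟩ := Hs_nontrivial X (g * c) w.1
  have hn' := hn
  rw [h] at hn'
  obtain ⟨hw, h2⟩ := Hs_inter X hn1 hn hn'
  have hw : w = w' := Subtype.ext hw
  subst hw
  rw [zmk_eq]
  have h3 : (c : W)⁻¹ * c' ∈ D.par (st C5 w.1) := by
    have : (c : W)⁻¹ * c' = (g * c)⁻¹ * (g * c') := by group
    rw [this]; exact h2
  have h4 := D.mem_par_inter h3 (mul_mem (inv_mem c.2) c'.2)
  have e : st C5 w.1 ∩ lk C5 v = {w.1} := by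
    have key : ∀ v w : Fin 5, C5.Adj v w → ∀ x, ((x = w ∨ C5.Adj w x) ∧ C5.Adj v x) ↔ x = w := by
      decide
    ext x
    simpa [st, lk] using key v w.1 w.2 x
  rwa [e] at h4

include hN

variable {t : V} {g : W} {v : Fin 5} (ht : pw N (gen E t) ∈ Hs D ι g v)

include ht

theorem exists_act (a : E.par (lk Λ t)) (z : ZZ D v) :
    ∃ z' : ZZ D v, bet ι g z' = (bet ι g z).map (MulAut.conjNormal (a : A)).toMonoidHom := by
  obtain ⟨w, c, rfl⟩ := zmk_surj z
  obtain ⟨c', hc', w', hw', h⟩ := link_perm X hN ht a.2 w.2 c.2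
  refine ⟨zmk D ⟨w', hw'⟩ ⟨c', hc'⟩, ?_⟩
  rw [bet_zmk, bet_zmk]
  exact h.symm

omit X hN ht in
/-- The underlying function of the action of the link group of `t`. -/
noncomputable def actS (hact : ∀ (a : E.par (lk Λ t)) (z : ZZ D v),
    ∃ z' : ZZ D v, bet ι g z' = (bet ι g z).map (MulAut.conjNormal (a : A)).toMonoidHom)
    (a : E.par (lk Λ t)) (z : ZZ D v) : ZZ D v := (hact a z).choose

omit X hN ht in
theorem bet_actS (hact : ∀ (a : E.par (lk Λ t)) (z : ZZ D v),
    ∃ z' : ZZ D v, bet ι g z' = (bet ι g z).map (MulAut.conjNormal (a : A)).toMonoidHom)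
    (a : E.par (lk Λ t)) (z : ZZ D v) :
    bet ι g (actS hact a z) = (bet ι g z).map (MulAut.conjNormal (a : A)).toMonoidHom :=
  (hact a z).choose_spec

omit hN ht in
theorem actS_one (hact : ∀ (a : E.par (lk Λ t)) (z : ZZ D v),
    ∃ z' : ZZ D v, bet ι g z' = (bet ι g z).map (MulAut.conjNormal (a : A)).toMonoidHom)
    (z : ZZ D v) : actS hact 1 z = z := by
  apply bet_inj X g
  rw [bet_actS]
  ext n
  constructor
  · rintro ⟨m, hm, rfl⟩
    simpa using hm
  · intro hn
    exact ⟨n, hn, by simp⟩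

omit hN ht in
theorem actS_mul (hact : ∀ (a : E.par (lk Λ t)) (z : ZZ D v),
    ∃ z' : ZZ D v, bet ι g z' = (bet ι g z).map (MulAut.conjNormal (a : A)).toMonoidHom)
    (a b : E.par (lk Λ t)) (z : ZZ D v) :
    actS hact (a * b) z = actS hact a (actS hact b z) := by
  apply bet_inj X g
  rw [bet_actS, bet_actS, bet_actS, Subgroup.map_map]
  congr 1
  ext n
  simp [mul_assoc]

/-- The intersection of `N` with the link group, as a subgroup of `N`. -/
noncomputable def isoLV (hli : ∀ n : N, (n : A) ∈ E.par (lk Λ t) ↔ n ∈ Ls D ι g v) :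
    N.subgroupOf (E.par (lk Λ t)) ≃* Ls D ι g v where
  toFun x := ⟨⟨((x : E.par (lk Λ t)) : A), x.2⟩, (hli ⟨((x : E.par (lk Λ t)) : A), x.2⟩).1 x.1.2⟩
  invFun n := ⟨⟨((n : N) : A), (hli n).2 n.2⟩, n.1.2⟩
  left_inv _ := rfl
  right_inv _ := rfl
  map_mul' _ _ := rfl

omit hN ht in
theorem Hs_conj (x : N) (g' : W) (w : Fin 5) :
    (Hs D ι g' w).map (MulAut.conjNormal (x : A)).toMonoidHom = Hs D ι (ι x * g') w := by
  have key : ∀ m : N, cj (ι x * g') (ι (MulAut.conjNormal (x : A) m)) = cj g' (ι m) := by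
    intro m
    have e : MulAut.conjNormal (x : A) m = x * m * x⁻¹ := by
      apply Subtype.ext
      rw [coe_conjNormal]; simp
    rw [e]
    simp only [cj, map_mul, map_inv]; group
  ext n
  constructor
  · rintro ⟨m, hm, rfl⟩
    have hm' : cj g' (ι m) ∈ D.par {w} := hm
    rw [← key] at hm'
    exact hm'
  · intro hn
    refine ⟨(MulAut.conjNormal (x : A)).symm n, ?_, by simp⟩
    change cj g' (ι ((MulAut.conjNormal (x : A)).symm n)) ∈ D.par {w}
    rw [← key]
    have : (MulAut.conjNormal (x : A)) ((MulAut.conjNormal (x : A)).symm n) = n := by simp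
    rw [this]
    exact hn

theorem main_contradiction [Finite V] : False := by
  classical
  have : Fintype V := Fintype.ofFinite V
  have hact := exists_act X hN ht
  let _ : MulAction (E.par (lk Λ t)) (ZZ D v) :=
    { smul := actS hact
      one_smul := actS_one X hact
      mul_smul := actS_mul X hact }
  have hbet : ∀ (a : E.par (lk Λ t)) (z : ZZ D v),
      bet ι g (a • z) = (bet ι g z).map (MulAut.conjNormal (a : A)).toMonoidHom :=
    bet_actS hact
  obtain ⟨u, hu⟩ := invFreeOn_link (D := D) X.inv v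
  refine final_count (L := E.par (lk Λ t)) (U := D.par (lk C5 v))
    (Z := ZZ D v)
    (s := fun s : {s : V // Λ.Adj t s} =>
      (⟨gen E s.1, E.of_mem_par (S := lk Λ t) s.2 _⟩ : E.par (lk Λ t)))
    (hs := freeOn_link E t (fun s s' hs hs' => link_indep E X hN hs hs'))
    (hI := ?_) (u := u) (hu := hu) (LV := N.subgroupOf (E.par (lk Λ t)))
    (hLV := relIndex_ne hN _) (M := MU ι g (D.par (lk C5 v)))
    (hM := MU_index ι X.index g _)
    (e := (isoLV (fun n => link_inter X hN ht)).trans (isoR ι X.inj g _))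
    (hcompat := ?_) (htf := ?_) (horb := ?_) (hfix := ?_) (hstab := ?_)
  · -- compatibility
    intro x z
    apply bet_inj X g
    rw [hbet]
    obtain ⟨w, c, rfl⟩ := zmk_surj z
    rw [smul_zmk, bet_zmk, bet_zmk]
    have h1 := Hs_conj X (⟨((x : E.par (lk Λ t)) : A), x.2⟩ : N) (g * c) w.1
    rw [h1]
    congr 1
    change _ = g * (cj g (ι ⟨((x : E.par (lk Λ t)) : A), x.2⟩) * (c : W))
    simp only [cj]; group
  · -- no involutions
    intro x hx hxx
    rw [mem_MU] at hx
    obtain ⟨n, hn⟩ := hx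
    have h1 : n * n = 1 := by
      apply X.inj
      rw [map_mul, map_one, hn]
      have : g * (x : W) * g⁻¹ * (g * (x : W) * g⁻¹) = g * ((x * x : D.par (lk C5 v)) : W) * g⁻¹ := by
        push_cast; group
      rw [this, hxx]; simp
    have h2 : (n : A) = 1 := by
      apply E.torsionFree _ Finset.univ (n : A) 2 _ two_ne_zero _
      · intro _ x n hn hx
        by_contra hne
        have : Multiplicative.toAdd x ≠ 0 := fun h => hne (by
          apply Multiplicative.toAdd.injective; exact h)
        have h3 := congrArg Multiplicative.toAdd hx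
        rw [toAdd_pow] at h3
        simp only [toAdd_one, smul_eq_zero] at h3
        rcases h3 with h3 | h3
        · exact hn h3
        · exact this h3
      · rw [Finset.coe_univ, E.par_univ]; trivial
      · rw [pow_two]
        exact congrArg Subtype.val h1
    have h3 : n = 1 := Subtype.ext h2
    rw [h3, map_one] at hn
    apply Subtype.ext
    have : (x : W) = g⁻¹ * (g * (x : W) * g⁻¹) * g := by group
    rw [this, ← hn]; simp
  · rw [Fintype.card_prod, Fintype.card_fin]
    have : ∀ v : Fin 5, Fintype.card {w : Fin 5 // C5.Adj v w} * 3 = 6 := by decide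
    convert this v
  · -- two orbits
    have hcard : ∀ v : Fin 5, Nat.card {w : Fin 5 // C5.Adj v w} = 2 := by
      intro v
      rw [Nat.card_eq_fintype_card]
      revert v
      decide
    rw [← hcard v]
    let π : MulAction.orbitRel.Quotient (D.par (lk C5 v)) (ZZ D v) → {w : Fin 5 // C5.Adj v w} :=
      Quotient.lift (fun z => z.1) (by
        rintro _ z ⟨u, rfl⟩
        rfl)
    apply Nat.card_congr
    refine Equiv.ofBijective π ⟨?_, ?_⟩
    · rintro ⟨z⟩ ⟨z'⟩ h
      obtain ⟨w, c, rfl⟩ := zmk_surj z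
      obtain ⟨w', c', rfl⟩ := zmk_surj z'
      have hw : w = w' := h
      subst hw
      apply Quotient.sound
      refine ⟨c * c'⁻¹, ?_⟩
      change (c * c'⁻¹) • zmk D w c' = zmk D w c
      rw [smul_zmk]
      congr 1
      group
    · intro w
      exact ⟨Quotient.mk _ (zmk D w 1), rfl⟩
  · -- generators have fixed points
    rintro ⟨s, hs⟩
    obtain ⟨g', v', h1⟩ := gen_mem X hN (E := E) s
    have h2 := adj_gen X hN hs.symm ht
    obtain ⟨h3, c, hc, h4⟩ := inter_Ls X (pw_ne X hN s) h1 h2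
    refine ⟨zmk D ⟨v', h3⟩ ⟨c, hc⟩, ?_⟩
    apply bet_inj X g
    rw [hbet, bet_zmk]
    obtain ⟨g1, v1, h5, -⟩ := perm X (MulAut.conjNormal (gen E s)) (g * c) v'
    change (Hs D ι (g * c) v').map (MulAut.conjNormal (gen E s)).toMonoidHom = Hs D ι (g * c) v'
    rw [h5]
    have h6 : pw N (gen E s) ∈ Hs D ι (g * c) v' := by rw [← h4]; exact h1
    have h7 : pw N (gen E s) ∈ Hs D ι g1 v1 := by
      rw [← h5]
      refine ⟨_, h6, ?_⟩
      apply Subtype.ext
      change ((MulAut.conjNormal (gen E s) (pw N (gen E s)) : N) : A) = _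
      rw [coe_conjNormal, coe_pw]
      have := (Commute.refl (gen E s)).pow_right N.index
      rw [this.eq]; group
    exact (Hs_eq_of_inter X (pw_ne X hN s) h7 h6).2
  · -- stabilisers
    intro z
    obtain ⟨w, c, rfl⟩ := zmk_surj z
    obtain ⟨u3, hu3⟩ := X.inv w.1
    have hmem : ∀ x : G w.1, (c : W) * D.of w.1 x * (c : W)⁻¹ ∈ D.par (lk C5 v) := fun x =>
      mul_mem (mul_mem c.2 (D.of_mem_par (S := lk C5 v) w.2 x)) (inv_mem c.2)
    have hst : ∀ y : D.par (lk C5 v), y ∈ MulAction.stabilizer (D.par (lk C5 v)) (zmk D w c) ↔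
        cj (c : W) (y : W) ∈ D.par {w.1} := by
      intro y
      rw [MulAction.mem_stabilizer_iff, smul_zmk, eq_comm, zmk_eq]
      have : (c : W)⁻¹ * ((y * c : D.par (lk C5 v)) : W) = cj (c : W) (y : W) := by
        push_cast; simp only [cj]; group
      rw [this]
    let f : G w.1 →* MulAction.stabilizer (D.par (lk C5 v)) (zmk D w c) :=
      { toFun := fun x => ⟨⟨(c : W) * D.of w.1 x * (c : W)⁻¹, hmem x⟩, by
          rw [hst, D.par_singleton]
          refine ⟨x, ?_⟩
          simp only [cj]; group⟩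
        map_one' := by
          apply Subtype.ext; apply Subtype.ext
          simp
        map_mul' := by
          intro x y
          apply Subtype.ext; apply Subtype.ext
          simp only [map_mul, Subgroup.coe_mul]; group }
    have hf : Function.Bijective f := by
      constructor
      · intro x y h
        have h1 : (c : W) * D.of w.1 x * (c : W)⁻¹ = (c : W) * D.of w.1 y * (c : W)⁻¹ :=
          congrArg (fun k : MulAction.stabilizer (D.par (lk C5 v)) (zmk D w c) =>
            ((k : D.par (lk C5 v)) : W)) h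
        apply D.of_injective w.1
        simpa using h1
      · rintro ⟨y, hy⟩
        have h1 := (hst y).1 hy
        rw [D.par_singleton] at h1
        obtain ⟨x, hx⟩ := h1
        refine ⟨x, ?_⟩
        apply Subtype.ext; apply Subtype.ext
        change (c : W) * D.of w.1 x * (c : W)⁻¹ = y
        rw [hx]; simp only [cj]; group
    exact ⟨_, hu3.map (MulEquiv.ofBijective f hf)⟩

end Main4

end Pool.Agent.Lib.MP_c91b70_al
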