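import Pool.Agent.Lib.MP_c91b70_al.QILen

/-!
# The two presented groups are graph products over the pentagon
-/

set_option autoImplicit false

namespace Pool.Agent.Lib.MP_c91b70_al

namespace QIInst

/-- the vertex `(v, j)` of the blow-up -/
def vx (n : ℕ) (v : Fin 5) (j : Fin n) : Fin (5 * n) := finProdFinEquiv (v, j)

theorem divNat_vx {n : ℕ} (v : Fin 5) (j : Fin n) : (vx n v j).divNat = v := by
  have h := finProdFinEquiv.symm_apply_apply (v, j)
  exact (Prod.ext_iff.1 h).1

theorem modNat_vx {n : ℕ} (v : Fin 5) (j : Fin n) : (vx n v j).modNat = j := by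
  have h := finProdFinEquiv.symm_apply_apply (v, j)
  exact (Prod.ext_iff.1 h).2

theorem vx_divNat_modNat {n : ℕ} (a : Fin (5 * n)) : vx n a.divNat a.modNat = a :=
  finProdFinEquiv.apply_symm_apply a

/-- A generator of the RACG. -/
def gW (a : Fin (5 * 3)) : RACG Gam15 := PresentedGroup.of a

theorem gW_sq (a : Fin (5 * 3)) : gW a * gW a = 1 := by
  have h := PresentedGroup.one_of_mem (rels := racgRels Gam15)
    (x := FreeGroup.of a * FreeGroup.of a) (Or.inl ⟨a, rfl⟩)
  rw [map_mul] at h
  exact h

theorem gW_inv (a : Fin (5 * 3)) : (gW a)⁻¹ = gW a := inv_eq_of_mul_eq_one_right (gW_sq a)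

theorem gW_comm {a b : Fin (5 * 3)} (h : Gam15.Adj a b) : Commute (gW a) (gW b) := by
  have h1 := PresentedGroup.one_of_mem (rels := racgRels Gam15)
    (x := (FreeGroup.of a * FreeGroup.of b) ^ 2) (Or.inr ⟨a, b, h, rfl⟩)
  rw [map_pow, map_mul, pow_two] at h1
  have h2 : gW a * gW b * (gW a * gW b) = 1 := h1
  have h3 : gW a * gW b = (gW a * gW b)⁻¹ := eq_inv_of_mul_eq_one_left h2
  rw [mul_inv_rev, gW_inv, gW_inv] at h3
  exact h3

/-- The vertex homomorphism for the RACG. -/
def ofW (v : Fin 5) : V3 →* RACG Gam15 :=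
  PresentedGroup.toGroup (f := fun j => gW (vx 3 v j)) (by
    rintro r ⟨a, rfl⟩
    rw [map_mul, FreeGroup.lift_apply_of]
    exact gW_sq _)

theorem ofW_of (v : Fin 5) (j : Fin 3) : ofW v (PresentedGroup.of j) = gW (vx 3 v j) :=
  PresentedGroup.toGroup.of _

/-- commutation of ranges from commutation of generators -/
theorem commute_of_gen {α β : Type} {ra : Set (FreeGroup α)} {rb : Set (FreeGroup β)}
    {X : Type} [Group X] (f : PresentedGroup ra →* X) (g : PresentedGroup rb →* X)
    (h : ∀ a b, Commute (f (PresentedGroup.of a)) (g (PresentedGroup.of b)))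
    (x : PresentedGroup ra) (y : PresentedGroup rb) : Commute (f x) (g y) := by
  have h1 : ∀ a (y : PresentedGroup rb), Commute (f (PresentedGroup.of a)) (g y) := by
    intro a y
    have : y ∈ (Subgroup.centralizer {f (PresentedGroup.of a)}).comap g := by
      apply PresentedGroup.generated_by
      intro b
      rw [Subgroup.mem_comap, Subgroup.mem_centralizer_singleton_iff]
      exact (h a b).eq.symm
    rw [Subgroup.mem_comap, Subgroup.mem_centralizer_singleton_iff] at this
    exact this.symm
  have : x ∈ (Subgroup.centralizer {g y}).comap f := by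
    apply PresentedGroup.generated_by
    intro a
    rw [Subgroup.mem_comap, Subgroup.mem_centralizer_singleton_iff]
    exact h1 a y
  rw [Subgroup.mem_comap, Subgroup.mem_centralizer_singleton_iff] at this
  exact this

theorem commute_of_gen_free {α β : Type}
    {X : Type} [Group X] (f : FreeGroup α →* X) (g : FreeGroup β →* X)
    (h : ∀ a b, Commute (f (FreeGroup.of a)) (g (FreeGroup.of b)))
    (x : FreeGroup α) (y : FreeGroup β) : Commute (f x) (g y) := by
  have top : ∀ {γ : Type} (K : Subgroup (FreeGroup γ)), (∀ a, FreeGroup.of a ∈ K) → K = ⊤ := by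
    intro γ K hK
    rw [eq_top_iff, ← FreeGroup.closure_range_of]
    rw [Subgroup.closure_le]
    rintro _ ⟨a, rfl⟩
    exact hK a
  have h1 : ∀ a (y : FreeGroup β), Commute (f (FreeGroup.of a)) (g y) := by
    intro a y
    have h2 : (Subgroup.centralizer {f (FreeGroup.of a)}).comap g = ⊤ := by
      apply top
      intro b
      rw [Subgroup.mem_comap, Subgroup.mem_centralizer_singleton_iff]
      exact (h a b).eq.symm
    have : y ∈ (Subgroup.centralizer {f (FreeGroup.of a)}).comap g := h2 ▸ Subgroup.mem_top y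
    rw [Subgroup.mem_comap, Subgroup.mem_centralizer_singleton_iff] at this
    exact this.symm
  have h2 : (Subgroup.centralizer {g y}).comap f = ⊤ := by
    apply top
    intro a
    rw [Subgroup.mem_comap, Subgroup.mem_centralizer_singleton_iff]
    exact h1 a y
  have : x ∈ (Subgroup.centralizer {g y}).comap f := h2 ▸ Subgroup.mem_top x
  rw [Subgroup.mem_comap, Subgroup.mem_centralizer_singleton_iff] at this
  exact this

theorem adj_vx {n : ℕ} {v w : Fin 5} (h : C5.Adj v w) (i j : Fin n) :
    C5.Adj (vx n v i).divNat (vx n w j).divNat := by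
  rw [divNat_vx, divNat_vx]; exact h

/-- The lift for the RACG. -/
def liftW {X : Type} [Group X] (f : ∀ _ : Fin 5, V3 →* X)
    (hf : ∀ v w, C5.Adj v w → ∀ g h, Commute (f v g) (f w h)) : RACG Gam15 →* X :=
  PresentedGroup.toGroup (f := fun a => f a.divNat (PresentedGroup.of a.modNat)) (by
    have hsq : ∀ (v : Fin 5) (j : Fin 3),
        f v (PresentedGroup.of j) * f v (PresentedGroup.of j) = 1 := by
      intro v j
      have h : (PresentedGroup.mk v3Rels (FreeGroup.of j * FreeGroup.of j)) = 1 :=
        PresentedGroup.one_of_mem ⟨j, rfl⟩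
      rw [map_mul] at h
      rw [← map_mul]
      have h' : (PresentedGroup.of j * PresentedGroup.of j : V3) = 1 := h
      rw [h', map_one]
    rintro r (⟨a, rfl⟩ | ⟨a, b, hab, rfl⟩)
    · rw [map_mul, FreeGroup.lift_apply_of]
      exact hsq _ _
    · rw [map_pow, map_mul, FreeGroup.lift_apply_of, FreeGroup.lift_apply_of]
      have hc := hf a.divNat b.divNat hab (PresentedGroup.of a.modNat) (PresentedGroup.of b.modNat)
      rw [hc.mul_pow, pow_two, pow_two, hsq, hsq, one_mul])

/-- The RACG as a graph product. -/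
def gpW : GraphProd C5 (fun _ => V3) (RACG Gam15) where
  of := ofW
  comm := by
    intro v w hvw g h
    refine commute_of_gen (ofW v) (ofW w) (fun a b => ?_) g h
    rw [ofW_of, ofW_of]
    exact gW_comm (adj_vx hvw a b)
  gen := by
    rw [eq_top_iff]
    intro x _
    apply PresentedGroup.generated_by
    intro a
    have h1 : (PresentedGroup.of a : RACG Gam15) = ofW a.divNat (PresentedGroup.of a.modNat) := by
      rw [ofW_of, vx_divNat_modNat]; rfl
    rw [h1]
    exact Subgroup.mem_iSup_of_mem a.divNat ⟨_, rfl⟩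
  lift := fun f hf => liftW f hf
  lift_of := by
    intro X _ f hf v g
    have : (liftW f hf).comp (ofW v) = f v := by
      apply PresentedGroup.ext
      intro j
      rw [MonoidHom.comp_apply, ofW_of, liftW, gW, PresentedGroup.toGroup.of, divNat_vx, modNat_vx]
    exact DFunLike.congr_fun this g

/-- A generator of the RAAG. -/
def gA (a : Fin (5 * 2)) : RAAG Lam10 := PresentedGroup.of a

theorem gA_comm {a b : Fin (5 * 2)} (h : Lam10.Adj a b) : Commute (gA a) (gA b) := by
  have h1 := PresentedGroup.one_of_mem (rels := raagRels Lam10)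
    (x := FreeGroup.of a * FreeGroup.of b * (FreeGroup.of a)⁻¹ * (FreeGroup.of b)⁻¹) ⟨a, b, h, rfl⟩
  rw [map_mul, map_mul, map_mul, map_inv, map_inv] at h1
  have h2 : gA a * gA b * (gA a)⁻¹ * (gA b)⁻¹ = 1 := h1
  rw [mul_inv_eq_one, mul_inv_eq_iff_eq_mul] at h2
  exact h2

/-- The vertex homomorphism for the RAAG. -/
def ofA (v : Fin 5) : FreeGroup (Fin 2) →* RAAG Lam10 :=
  FreeGroup.lift fun j => gA (vx 2 v j)

theorem ofA_of (v : Fin 5) (j : Fin 2) : ofA v (FreeGroup.of j) = gA (vx 2 v j) :=
  FreeGroup.lift_apply_of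

/-- The lift for the RAAG. -/
def liftA {X : Type} [Group X] (f : ∀ _ : Fin 5, FreeGroup (Fin 2) →* X)
    (hf : ∀ v w, C5.Adj v w → ∀ g h, Commute (f v g) (f w h)) : RAAG Lam10 →* X :=
  PresentedGroup.toGroup (f := fun a => f a.divNat (FreeGroup.of a.modNat)) (by
    rintro r ⟨a, b, hab, rfl⟩
    rw [map_mul, map_mul, map_mul, map_inv, map_inv, FreeGroup.lift_apply_of,
      FreeGroup.lift_apply_of]
    have hc := hf a.divNat b.divNat hab (FreeGroup.of a.modNat) (FreeGroup.of b.modNat)
    rw [mul_inv_eq_one, mul_inv_eq_iff_eq_mul]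
    exact hc.eq)

/-- The RAAG as a graph product. -/
def gpA : GraphProd C5 (fun _ => FreeGroup (Fin 2)) (RAAG Lam10) where
  of := ofA
  comm := by
    intro v w hvw g h
    refine commute_of_gen_free (ofA v) (ofA w) (fun a b => ?_) g h
    rw [ofA_of, ofA_of]
    exact gA_comm (adj_vx hvw a b)
  gen := by
    rw [eq_top_iff]
    intro x _
    apply PresentedGroup.generated_by
    intro a
    have h1 : (PresentedGroup.of a : RAAG Lam10) = ofA a.divNat (FreeGroup.of a.modNat) := by
      rw [ofA_of, vx_divNat_modNat]; rfl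
    rw [h1]
    exact Subgroup.mem_iSup_of_mem a.divNat ⟨_, rfl⟩
  lift := fun f hf => liftA f hf
  lift_of := by
    intro X _ f hf v g
    have : (liftA f hf).comp (ofA v) = f v := by
      apply FreeGroup.ext_hom
      intro j
      rw [MonoidHom.comp_apply, ofA_of, liftA, gA, PresentedGroup.toGroup.of, divNat_vx, modNat_vx]
    exact DFunLike.congr_fun this g

end QIInst

end Pool.Agent.Lib.MP_c91b70_al
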