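import Pool.Agent.Lib.MP_c91b70_al.Main4
import Pool.Agent.Lib.MP_c91b70_al.Inst
import Pool.Agent.Lib.MP_c91b70_al.QIInst

/-!
# The right-angled Coxeter group of the blown-up pentagon is not commensurable to any
right-angled Artin group
-/

set_option autoImplicit false

namespace Pool.Agent.Lib.MP_c91b70_al

open GraphProd

theorem V3_CT : CT V3 := by
  intro a b g hab hag hbg
  have hC2 : ∀ _ : Fin 3, CT (Multiplicative (ZMod 2)) :=
    fun _ a b _ h _ _ => absurd (Commute.all a b) h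
  have huniv : ∀ x : V3, x ∈ gpV3.par ((Finset.univ : Finset (Fin 3)) : Set (Fin 3)) := by
    intro x
    rw [Finset.coe_univ, gpV3.par_univ]; trivial
  exact gpV3.indep_CT hC2 Finset.univ (by simp) a b g (huniv a) (huniv b) (huniv g) hab hag hbg

theorem V3_pow (x y : V3) (hx : ∀ n : ℕ, n ≠ 0 → x ^ n ≠ 1) (hxy : Commute y x) :
    ∃ m n : ℤ, m ≠ 0 ∧ y ^ m * x ^ n = 1 := by
  have huniv : ∀ x : V3, x ∈ gpV3.par ((Finset.univ : Finset (Fin 3)) : Set (Fin 3)) := by
    intro x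
    rw [Finset.coe_univ, gpV3.par_univ]; trivial
  refine gpV3.indep_pow ?_ Finset.univ (by simp) x y (huniv x) (huniv y) hx hxy
  intro _ x
  refine ⟨2, two_ne_zero, ?_⟩
  have key : ∀ x : Multiplicative (ZMod 2), x ^ 2 = 1 := by decide
  exact key x

theorem setup_of {H : Type} [Group H] (ι : H →* RACG Gam15) (hι : Function.Injective ι)
    (hR : ι.range.index ≠ 0) : Setup QIInst.gpW ι where
  ct _ := V3_CT
  big _ := V3_big
  fg _ := V3_fg
  pow _ := V3_pow
  inv _ := ⟨_, V3_inv⟩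
  inj := hι
  index := hR

theorem exists_embedding {W A : Type} [Group W] [Group A] (H₁ : Subgroup W) (H₂ : Subgroup A)
    (h1 : H₁.index ≠ 0) (h2 : H₂.index ≠ 0) (e : H₁ ≃* H₂) :
    ∃ (N : Subgroup A) (_ : N.Normal) (ι : N →* W), N.index ≠ 0 ∧ Function.Injective ι ∧
      ι.range.index ≠ 0 := by
  have : H₂.FiniteIndex := ⟨h2⟩
  have hNle : H₂.normalCore ≤ H₂ := H₂.normalCore_le
  have hN : H₂.normalCore.index ≠ 0 := Subgroup.FiniteIndex.index_ne_zero
  refine ⟨H₂.normalCore, inferInstance,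
    H₁.subtype.comp (e.symm.toMonoidHom.comp (Subgroup.inclusion hNle)), hN, ?_, ?_⟩
  · intro a b hab
    have h3 : e.symm (Subgroup.inclusion hNle a) = e.symm (Subgroup.inclusion hNle b) :=
      Subtype.ext hab
    exact Subgroup.inclusion_injective hNle (e.symm.injective h3)
  · have h3 : (H₁.subtype.comp (e.symm.toMonoidHom.comp (Subgroup.inclusion hNle))).range =
        ((H₂.normalCore.subgroupOf H₂).map e.symm.toMonoidHom).map H₁.subtype := by
      ext x
      constructor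
      · rintro ⟨n, rfl⟩
        refine ⟨e.symm (Subgroup.inclusion hNle n), ⟨Subgroup.inclusion hNle n, ?_, rfl⟩, rfl⟩
        exact n.2
      · rintro ⟨_, ⟨y, hy, rfl⟩, rfl⟩
        exact ⟨⟨(y : A), hy⟩, rfl⟩
    rw [h3, Subgroup.index_map_subtype]
    apply mul_ne_zero _ h1
    have h4 : ((H₂.normalCore.subgroupOf H₂).map e.symm.toMonoidHom).index =
        (H₂.normalCore.subgroupOf H₂).index :=
      Subgroup.index_map_of_bijective e.symm.bijective _
    rw [h4]
    exact relIndex_ne hN _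

theorem not_commensurable (m : ℕ) (Λ : SimpleGraph (Fin m)) :
    ¬ ∃ (H₁ : Subgroup (RACG Gam15)) (H₂ : Subgroup (RAAG Λ)),
      H₁.index ≠ 0 ∧ H₂.index ≠ 0 ∧ Nonempty (H₁ ≃* H₂) := by
  rintro ⟨H₁, H₂, h1, h2, ⟨e⟩⟩
  obtain ⟨N, hNn, ι, hN, hι, hR⟩ := exists_embedding H₁ H₂ h1 h2 e
  have X := setup_of ι hι hR
  -- there is a vertex
  rcases Nat.eq_zero_or_pos m with rfl | hm
  · obtain ⟨n, -, hn⟩ := Hs_nontrivial X 1 0
    apply hn
    apply Subtype.ext
    exact (gpA Λ).induct (p := fun x => x = 1) rfl (fun v => v.elim0)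
      (fun x y hx hy => by rw [hx, hy, mul_one]) (n : RAAG Λ)
  · obtain ⟨g, v, ht⟩ := gen_mem X hN (E := gpA Λ) ⟨0, hm⟩
    exact main_contradiction X hN ht

end Pool.Agent.Lib.MP_c91b70_al
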