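import Pool.Agent.Lib.MP_c91b70_al.GraphProd

/-!
# Transport of bijections between vertex groups to graph products
-/

set_option autoImplicit false

namespace Pool.Agent.Lib.MP_c91b70_al

namespace QITransport

variable {V : Type} {Δ : SimpleGraph V} {G H : V → Type} [∀ v, Group (G v)] [∀ v, Group (H v)]
  {P P' : Type} [Group P] [Group P'] (D : GraphProd Δ G P) (D' : GraphProd Δ H P')
  (φ : ∀ v, G v ≃ H v)

/-- One step of the action of a vertex group of `D` on the set `P'`. -/
noncomputable def step (v : V) (h : G v) (y : P') : P' :=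
  D'.of v (φ v (h * (φ v).symm (D'.proj v y)) * (D'.proj v y)⁻¹) * y

theorem proj_step (v : V) (h : G v) (y : P') :
    D'.proj v (step D' φ v h y) = φ v (h * (φ v).symm (D'.proj v y)) := by
  rw [step, map_mul, D'.proj_self, inv_mul_cancel_right]

theorem proj_step_ne {v w : V} (hvw : w ≠ v) (h : G w) (y : P') :
    D'.proj v (step D' φ w h y) = D'.proj v y := by
  rw [step, map_mul, D'.proj_ne hvw, one_mul]

theorem step_one (v : V) (y : P') : step D' φ v 1 y = y := by
  simp [step]

theorem step_mul (v : V) (h h' : G v) (y : P') :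
    step D' φ v (h' * h) y = step D' φ v h' (step D' φ v h y) := by
  rw [step, step, proj_step, step, Equiv.symm_apply_apply, ← mul_assoc, ← map_mul]
  congr 2
  rw [mul_assoc h']
  group

theorem step_comm {v w : V} (hvw : Δ.Adj v w) (h : G v) (u : G w) (y : P') :
    step D' φ v h (step D' φ w u y) = step D' φ w u (step D' φ v h y) := by
  have h1 := proj_step_ne D' φ (v := v) (w := w) hvw.ne' u y
  have h2 := proj_step_ne D' φ (v := w) (w := v) hvw.ne h y
  conv_lhs => rw [step, h1]
  conv_rhs => rw [step, h2]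
  rw [step, step, ← mul_assoc, ← mul_assoc, (D'.comm hvw _ _).eq]

/-- The action as a homomorphism. -/
noncomputable def hom (v : V) : G v →* Equiv.Perm P' where
  toFun h :=
    { toFun := step D' φ v h
      invFun := step D' φ v h⁻¹
      left_inv := fun y => by rw [← step_mul, inv_mul_cancel, step_one]
      right_inv := fun y => by rw [← step_mul, mul_inv_cancel, step_one] }
  map_one' := by ext y; exact step_one D' φ v y
  map_mul' h' h := by ext y; exact step_mul D' φ v h h' y

/-- The action of `P` on `P'`. -/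
noncomputable def Θ : P →* Equiv.Perm P' :=
  D.lift (hom D' φ) (fun v w hvw g h => by
    ext y
    exact step_comm D' φ hvw g h y)

/-- The transported map. -/
noncomputable def f (x : P) : P' := Θ D D' φ x 1

theorem f_one : f D D' φ 1 = 1 := by simp [f]

theorem f_of_mul (v : V) (h : G v) (x : P) :
    f D D' φ (D.of v h * x) =
      D'.of v (φ v (h * (φ v).symm (D'.proj v (f D D' φ x))) * (D'.proj v (f D D' φ x))⁻¹) *
        f D D' φ x := by
  have : Θ D D' φ (D.of v h) = hom D' φ v h := D.lift_of _ _ _ _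
  rw [f, map_mul, this, Equiv.Perm.mul_apply]
  rfl

/-- One step of the covering action of a vertex group of `D'` on the set `P`. -/
noncomputable def step' (v : V) (h' : H v) (x : P) : P :=
  D.of v ((φ v).symm (h' * D'.proj v (f D D' φ x)) * ((φ v).symm (D'.proj v (f D D' φ x)))⁻¹) * x

theorem f_step' (v : V) (h' : H v) (x : P) :
    f D D' φ (step' D D' φ v h' x) = D'.of v h' * f D D' φ x := by
  rw [step', f_of_mul, inv_mul_cancel_right, Equiv.apply_symm_apply, mul_inv_cancel_right]

theorem step'_one (v : V) (x : P) : step' D D' φ v 1 x = x := by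
  simp [step']

theorem step'_mul (v : V) (h h' : H v) (x : P) :
    step' D D' φ v (h' * h) x = step' D D' φ v h' (step' D D' φ v h x) := by
  have h1 : D'.proj v (f D D' φ (step' D D' φ v h x)) = h * D'.proj v (f D D' φ x) := by
    rw [f_step', map_mul, D'.proj_self]
  conv_rhs => rw [step', h1, step']
  rw [step', ← mul_assoc, ← map_mul, mul_assoc h']
  congr 2
  group

theorem step'_comm {v w : V} (hvw : Δ.Adj v w) (h : H v) (u : H w) (x : P) :
    step' D D' φ v h (step' D D' φ w u x) = step' D D' φ w u (step' D D' φ v h x) := by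
  have h1 : D'.proj v (f D D' φ (step' D D' φ w u x)) = D'.proj v (f D D' φ x) := by
    rw [f_step', map_mul, D'.proj_ne hvw.ne', one_mul]
  have h2 : D'.proj w (f D D' φ (step' D D' φ v h x)) = D'.proj w (f D D' φ x) := by
    rw [f_step', map_mul, D'.proj_ne hvw.ne, one_mul]
  conv_lhs => rw [step', h1]
  conv_rhs => rw [step', h2]
  rw [step', step', ← mul_assoc, ← mul_assoc, (D.comm hvw _ _).eq]

/-- The covering action as a homomorphism. -/
noncomputable def hom' (v : V) : H v →* Equiv.Perm P where
  toFun h :=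
    { toFun := step' D D' φ v h
      invFun := step' D D' φ v h⁻¹
      left_inv := fun y => by rw [← step'_mul, inv_mul_cancel, step'_one]
      right_inv := fun y => by rw [← step'_mul, mul_inv_cancel, step'_one] }
  map_one' := by ext y; exact step'_one D D' φ v y
  map_mul' h' h := by ext y; exact step'_mul D D' φ v h h' y

/-- The action of `P'` on `P`. -/
noncomputable def Ψ : P' →* Equiv.Perm P :=
  D'.lift (hom' D D' φ) (fun v w hvw g h => by
    ext y
    exact step'_comm D D' φ hvw g h y)

theorem Ψ_of (v : V) (h : H v) (x : P) : Ψ D D' φ (D'.of v h) x = step' D D' φ v h x := by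
  have : Ψ D D' φ (D'.of v h) = hom' D D' φ v h := D'.lift_of _ _ _ _
  rw [this]; rfl

theorem f_Ψ (y : P') : ∀ x, f D D' φ (Ψ D D' φ y x) = y * f D D' φ x := by
  refine D'.induct_left (p := fun y => ∀ x, f D D' φ (Ψ D D' φ y x) = y * f D D' φ x) ?_ ?_ y
  · intro x; simp
  · intro v h y hy x
    rw [map_mul, Equiv.Perm.mul_apply, Ψ_of, f_step', hy, mul_assoc]

/-- The inverse map. -/
noncomputable def g (y : P') : P := Ψ D D' φ y 1

theorem f_g (y : P') : f D D' φ (g D D' φ y) = y := by
  rw [g, f_Ψ, f_one, mul_one]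

theorem g_of_mul (v : V) (h' : H v) (y : P') :
    g D D' φ (D'.of v h' * y) =
      D.of v ((φ v).symm (h' * D'.proj v y) * ((φ v).symm (D'.proj v y))⁻¹) * g D D' φ y := by
  rw [g, map_mul, Equiv.Perm.mul_apply, Ψ_of, step']
  rw [show Ψ D D' φ y 1 = g D D' φ y from rfl, f_g]

theorem g_f (x : P) : g D D' φ (f D D' φ x) = x := by
  refine D.induct_left (p := fun x => g D D' φ (f D D' φ x) = x) ?_ ?_ x
  · rw [f_one, g, map_one (Ψ D D' φ), Equiv.Perm.one_apply]
  · intro v h x hx
    rw [f_of_mul, g_of_mul, hx, inv_mul_cancel_right, Equiv.symm_apply_apply, mul_inv_cancel_right]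

/-- The transport theorem. -/
theorem transport : ∃ F : P ≃ P',
    (∀ v (h : G v) (x : P), ∃ k : G v,
      F (D.of v h * x) * (F x)⁻¹ = D'.of v (φ v (h * k) * (φ v k)⁻¹)) ∧
    (∀ v (h : H v) (y : P'), ∃ k : H v,
      F.symm (D'.of v h * y) * (F.symm y)⁻¹ =
        D.of v ((φ v).symm (h * k) * ((φ v).symm k)⁻¹)) := by
  refine ⟨⟨f D D' φ, g D D' φ, g_f D D' φ, f_g D D' φ⟩, ?_, ?_⟩
  · intro v h x
    refine ⟨(φ v).symm (D'.proj v (f D D' φ x)), ?_⟩
    change f D D' φ (D.of v h * x) * (f D D' φ x)⁻¹ = _
    rw [f_of_mul, mul_inv_cancel_right, Equiv.apply_symm_apply]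
  · intro v h y
    refine ⟨D'.proj v y, ?_⟩
    change g D D' φ (D'.of v h * y) * (g D D' φ y)⁻¹ = _
    rw [g_of_mul, mul_inv_cancel_right]

end QITransport

end Pool.Agent.Lib.MP_c91b70_al
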