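import Pool.Agent.Lib.MP_c91b70_al.QIPhi
import Pool.Agent.Lib.MP_c91b70_al.QIInst
import Pool.Agent.Lib.MP_c91b70_al.QITransport

/-!
# The quasi-isometry
-/

set_option autoImplicit false

namespace Pool.Agent.Lib.MP_c91b70_al

open QIInst QIPhi

theorem gW_eq (a : Fin (5 * 3)) : (PresentedGroup.of a : RACG Gam15) =
    gpW.of a.divNat (PresentedGroup.of a.modNat) := by
  change _ = ofW a.divNat (PresentedGroup.of a.modNat)
  rw [ofW_of, vx_divNat_modNat]; rfl

theorem gA_eq (a : Fin (5 * 2)) : (PresentedGroup.of a : RAAG Lam10) =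
    gpA.of a.divNat (FreeGroup.of a.modNat) := by
  change _ = ofA a.divNat (FreeGroup.of a.modNat)
  rw [ofA_of, vx_divNat_modNat]; rfl

theorem len_ofW (v : Fin 5) {x : V3} {N : ℕ} (hx : Len v3Rels x N) :
    Len (racgRels Gam15) (gpW.of v x) N :=
  Len.map_hom (rels := v3Rels) (rels' := racgRels Gam15) (ofW v) (fun j => vx 3 v j)
    (fun j => ofW_of v j) hx

theorem len_ofA (v : Fin 5) (w : FreeGroup (Fin 2)) :
    Len (raagRels Lam10) (gpA.of v w) w.norm :=
  Len.map_free (rels' := raagRels Lam10) (ofA v) (fun j => vx 2 v j) (fun j => ofA_of v j) w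

/-- A bilipschitz bijection for the right invariant metrics. -/
theorem exists_bilip : ∃ F : RACG Gam15 ≃ RAAG Lam10,
    (∀ (z y : RACG Gam15) (N : ℕ), Len (racgRels Gam15) z N →
      Len (raagRels Lam10) (F (z * y) * (F y)⁻¹) (3 * N)) ∧
    (∀ (z y : RAAG Lam10) (N : ℕ), Len (raagRels Lam10) z N →
      Len (racgRels Gam15) (F.symm (z * y) * (F.symm y)⁻¹) (8 * N)) := by
  obtain ⟨φ, hφ1, hφ2⟩ := exists_phi
  obtain ⟨F, hF1, hF2⟩ := QITransport.transport gpW gpA (fun _ => φ)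
  refine ⟨F, ?_, ?_⟩
  · intro z y N hz
    refine Len.lip (rels := racgRels Gam15) (rels' := raagRels Lam10) F 3 ?_ hz y
    intro a x
    rw [gW_eq]
    obtain ⟨k, hk⟩ := hF1 a.divNat (PresentedGroup.of a.modNat) x
    rw [hk]
    exact (len_ofA _ _).mono (hφ1 _ _)
  · intro z y N hz
    refine Len.lip (rels := raagRels Lam10) (rels' := racgRels Gam15) F.symm 8 ?_ hz y
    intro a x
    rw [gA_eq]
    obtain ⟨k, hk⟩ := hF2 a.divNat (FreeGroup.of a.modNat) x
    rw [hk]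
    exact len_ofW _ (hφ2 _ _)

/-- The quasi-isometry half of the frozen statement. -/
theorem qi_part : ∃ (f : PresentedGroup (racgRels Gam15) → PresentedGroup (raagRels Lam10))
        (K C : ℕ),
        (∀ x y (N : ℕ),
          (∃ w : FreeGroup (Fin (5 * 3)), PresentedGroup.mk (racgRels Gam15) w = x⁻¹ * y ∧
            w.toWord.length ≤ N) →
          ∃ w : FreeGroup (Fin (5 * 2)), PresentedGroup.mk (raagRels Lam10) w
              = (f x)⁻¹ * f y ∧ w.toWord.length ≤ K * N + C) ∧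
        (∀ x y (N : ℕ),
          (∃ w : FreeGroup (Fin (5 * 2)), PresentedGroup.mk (raagRels Lam10) w
              = (f x)⁻¹ * f y ∧ w.toWord.length ≤ N) →
          ∃ w : FreeGroup (Fin (5 * 3)), PresentedGroup.mk (racgRels Gam15) w = x⁻¹ * y ∧
            w.toWord.length ≤ K * N + C) ∧
        (∀ z, ∃ x, ∃ w : FreeGroup (Fin (5 * 2)), PresentedGroup.mk (raagRels Lam10) w
              = (f x)⁻¹ * z ∧ w.toWord.length ≤ C) := by
  obtain ⟨F, hF1, hF2⟩ := exists_bilip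
  refine ⟨fun x => (F x⁻¹)⁻¹, 8, 0, ?_, ?_, ?_⟩
  · intro x y N hw
    have hw' : Len (racgRels Gam15) (x⁻¹ * y) N := hw
    have h1 := hF1 (x⁻¹ * y) y⁻¹ N hw'
    rw [mul_inv_cancel_right] at h1
    have h2 : Len (raagRels Lam10) (((F x⁻¹)⁻¹)⁻¹ * (F y⁻¹)⁻¹) (8 * N + 0) := by
      rw [inv_inv]
      exact h1.mono (by omega)
    exact h2
  · intro x y N hw
    have hw' : Len (raagRels Lam10) (((F x⁻¹)⁻¹)⁻¹ * (F y⁻¹)⁻¹) N := hw
    rw [inv_inv] at hw'
    have h1 := hF2 _ (F y⁻¹) N hw'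
    rw [inv_mul_cancel_right, Equiv.symm_apply_apply, Equiv.symm_apply_apply, inv_inv] at h1
    have h2 : Len (racgRels Gam15) (x⁻¹ * y) (8 * N + 0) := h1.mono (by omega)
    exact h2
  · intro z
    refine ⟨(F.symm z⁻¹)⁻¹, 1, ?_, by simp⟩
    simp

end Pool.Agent.Lib.MP_c91b70_al
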