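import Pool.Agent.Lib.MP_c91b70_al.Defs

/-!
# Word length in presented groups
-/

set_option autoImplicit false

namespace Pool.Agent.Lib.MP_c91b70_al

/-- the relations of `V3` -/
abbrev v3Rels : Set (FreeGroup (Fin 3)) :=
  {r : FreeGroup (Fin 3) | ∃ a, r = FreeGroup.of a * FreeGroup.of a}

/-- `Len rels x N`: the element `x` is represented by a word of length at most `N`. -/
def Len {n : ℕ} (rels : Set (FreeGroup (Fin n))) (x : PresentedGroup rels) (N : ℕ) : Prop :=
  ∃ w : FreeGroup (Fin n), PresentedGroup.mk rels w = x ∧ w.toWord.length ≤ N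

namespace Len

variable {n : ℕ} {rels : Set (FreeGroup (Fin n))}

theorem one (N : ℕ) : Len rels 1 N := ⟨1, by simp, by simp⟩

theorem mono {x : PresentedGroup rels} {N M : ℕ} (h : Len rels x N) (hNM : N ≤ M) :
    Len rels x M := by
  obtain ⟨w, hw, hl⟩ := h
  exact ⟨w, hw, hl.trans hNM⟩

theorem mul {x y : PresentedGroup rels} {N M : ℕ} (hx : Len rels x N) (hy : Len rels y M) :
    Len rels (x * y) (N + M) := by
  obtain ⟨w, hw, hl⟩ := hx
  obtain ⟨w', hw', hl'⟩ := hy
  refine ⟨w * w', by rw [map_mul, hw, hw'], ?_⟩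
  have := FreeGroup.norm_mul_le w w'
  unfold FreeGroup.norm at this
  omega

theorem inv {x : PresentedGroup rels} {N : ℕ} (hx : Len rels x N) : Len rels x⁻¹ N := by
  obtain ⟨w, hw, hl⟩ := hx
  refine ⟨w⁻¹, by rw [map_inv, hw], ?_⟩
  have := FreeGroup.norm_inv_eq (x := w)
  unfold FreeGroup.norm at this
  omega

theorem of (a : Fin n) : Len rels (PresentedGroup.of a) 1 :=
  ⟨FreeGroup.of a, rfl, by simp⟩

theorem of_inv (a : Fin n) : Len rels (PresentedGroup.of a)⁻¹ 1 := (of a).inv

/-- The length of the image of a word. -/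
theorem mk (w : FreeGroup (Fin n)) : Len rels (PresentedGroup.mk rels w) w.norm :=
  ⟨w, rfl, le_rfl⟩

/-- Induction along a word. -/
theorem induct {Q : PresentedGroup rels → ℕ → Prop} (h1 : Q 1 0)
    (hmono : ∀ x N M, N ≤ M → Q x N → Q x M)
    (hof : ∀ a x N, Q x N → Q (PresentedGroup.of a * x) (N + 1))
    (hinv : ∀ a x N, Q x N → Q ((PresentedGroup.of a)⁻¹ * x) (N + 1))
    {x : PresentedGroup rels} {N : ℕ} (hx : Len rels x N) : Q x N := by
  obtain ⟨w, rfl, hl⟩ := hx
  have key : ∀ L : List (Fin n × Bool), Q (PresentedGroup.mk rels (FreeGroup.mk L)) L.length := by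
    intro L
    induction L with
    | nil => simpa [← FreeGroup.one_eq_mk] using h1
    | cons p L ih =>
      obtain ⟨a, b⟩ := p
      have hL : FreeGroup.mk ((a, b) :: L) = FreeGroup.mk [(a, b)] * FreeGroup.mk L := by
        rw [FreeGroup.mul_mk]; rfl
      rw [hL, map_mul, List.length_cons]
      cases b with
      | true => exact hof a _ _ ih
      | false =>
        have : FreeGroup.mk [(a, false)] = (FreeGroup.of a)⁻¹ := by
          rw [FreeGroup.of, FreeGroup.inv_mk]; rfl
        rw [this, map_inv]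
        exact hinv a _ _ ih
  have := key w.toWord
  rw [FreeGroup.mk_toWord] at this
  exact hmono _ _ _ hl this

/-- A map which moves generators a bounded amount is Lipschitz for the right invariant metrics. -/
theorem lip {m : ℕ} {rels' : Set (FreeGroup (Fin m))}
    (f : PresentedGroup rels → PresentedGroup rels') (L : ℕ)
    (hgen : ∀ (a : Fin n) (x : PresentedGroup rels),
      Len rels' (f (PresentedGroup.of a * x) * (f x)⁻¹) L)
    {z : PresentedGroup rels} {N : ℕ} (hz : Len rels z N) (y : PresentedGroup rels) :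
    Len rels' (f (z * y) * (f y)⁻¹) (L * N) := by
  refine induct (Q := fun z N => ∀ y, Len rels' (f (z * y) * (f y)⁻¹) (L * N)) ?_ ?_ ?_ ?_ hz y
  · intro y
    rw [one_mul, mul_inv_cancel]
    exact one _
  · intro x N M hNM h y
    exact (h y).mono (Nat.mul_le_mul_left _ hNM)
  · intro a x N h y
    have h1 := (hgen a (x * y)).mul (h y)
    have h2 : f (PresentedGroup.of a * (x * y)) * (f (x * y))⁻¹ * (f (x * y) * (f y)⁻¹) =
        f (PresentedGroup.of a * x * y) * (f y)⁻¹ := by
      rw [mul_assoc (PresentedGroup.of a)]; group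
    rw [h2] at h1
    exact h1.mono (by ring_nf; omega)
  · intro a x N h y
    have h1 := (hgen a ((PresentedGroup.of a)⁻¹ * (x * y))).inv.mul (h y)
    rw [mul_inv_cancel_left] at h1
    have h2 : (f (x * y) * (f ((PresentedGroup.of a)⁻¹ * (x * y)))⁻¹)⁻¹ *
        (f (x * y) * (f y)⁻¹) = f ((PresentedGroup.of a)⁻¹ * x * y) * (f y)⁻¹ := by
      rw [mul_assoc (PresentedGroup.of a)⁻¹]; group
    rw [h2] at h1
    exact h1.mono (by ring_nf; omega)

/-- A homomorphism sending generators to generators is length non-increasing. -/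
theorem map_hom {m : ℕ} {rels' : Set (FreeGroup (Fin m))}
    (f : PresentedGroup rels →* PresentedGroup rels') (σ : Fin n → Fin m)
    (hf : ∀ a, f (PresentedGroup.of a) = PresentedGroup.of (σ a))
    {x : PresentedGroup rels} {N : ℕ} (hx : Len rels x N) : Len rels' (f x) N := by
  refine induct (Q := fun z N => Len rels' (f z) N) ?_ ?_ ?_ ?_ hx
  · rw [map_one]; exact one _
  · intro x N M hNM h; exact h.mono hNM
  · intro a x N h
    rw [map_mul, hf]
    exact ((of (σ a)).mul h).mono (by omega)
  · intro a x N h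
    rw [map_mul, map_inv, hf]
    exact ((of_inv (σ a)).mul h).mono (by omega)

/-- A homomorphism from a free group sending generators to generators. -/
theorem map_free {m k : ℕ} {rels' : Set (FreeGroup (Fin m))}
    (f : FreeGroup (Fin k) →* PresentedGroup rels') (σ : Fin k → Fin m)
    (hf : ∀ a, f (FreeGroup.of a) = PresentedGroup.of (σ a)) (w : FreeGroup (Fin k)) :
    Len rels' (f w) w.norm := by
  have h1 : f = (PresentedGroup.mk rels').comp (FreeGroup.map σ) := by
    apply FreeGroup.ext_hom
    intro a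
    rw [hf, MonoidHom.comp_apply, FreeGroup.map.of]
    rfl
  refine ⟨FreeGroup.map σ w, by rw [h1]; rfl, ?_⟩
  have h2 : FreeGroup.map σ w = FreeGroup.mk (w.toWord.map fun p => (σ p.1, p.2)) := by
    conv_lhs => rw [← FreeGroup.mk_toWord (x := w)]
    rw [FreeGroup.map.mk]
  have h3 := FreeGroup.norm_mk_le (L₁ := w.toWord.map fun p => (σ p.1, p.2))
  rw [← h2, List.length_map] at h3
  exact h3

end Len

end Pool.Agent.Lib.MP_c91b70_al
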