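import Pool.Agent.Lib.MP_c91b70_al.QILen

/-!
# A bilipschitz bijection between `Z/2 * Z/2 * Z/2` and the free group of rank two
-/

set_option autoImplicit false

namespace Pool.Agent.Lib.MP_c91b70_al




namespace QIPhi

abbrev F2 : Type := FreeGroup (Fin 2)

/-- the generators -/
def s (j : Fin 3) : V3 := PresentedGroup.of j

theorem s_mul_s (j : Fin 3) : s j * s j = 1 := by
  have : (FreeGroup.of j * FreeGroup.of j) ∈ v3Rels := ⟨j, rfl⟩
  have h := PresentedGroup.one_of_mem this
  rw [map_mul] at h
  exact h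

theorem s_inv (j : Fin 3) : (s j)⁻¹ = s j := inv_eq_of_mul_eq_one_right (s_mul_s j)

/-- The embedding of the even subgroup. -/
def ι : F2 →* V3 := FreeGroup.lift fun i => s 0 * s i.succ

theorem ι_of (i : Fin 2) : ι (FreeGroup.of i) = s 0 * s i.succ := by
  simp [ι]

/-- The underlying set for the action. -/
abbrev B : Type := Bool × F2

/-- The permutation of `B` given by the generator `0`. -/
def perm0 : Equiv.Perm B where
  toFun p := (!p.1, p.2)
  invFun p := (!p.1, p.2)
  left_inv p := by simp
  right_inv p := by simp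

/-- The function of `B` given by the generator `i + 1`. -/
def fn (i : Fin 2) (p : B) : B :=
  match p with
  | (false, g) => (true, FreeGroup.of i * g)
  | (true, g) => (false, (FreeGroup.of i)⁻¹ * g)

theorem fn_fn (i : Fin 2) (p : B) : fn i (fn i p) = p := by
  obtain ⟨b, g⟩ := p
  cases b <;> simp [fn]

/-- The permutation of `B` given by the generator `i + 1`. -/
def permS (i : Fin 2) : Equiv.Perm B where
  toFun := fn i
  invFun := fn i
  left_inv := fn_fn i
  right_inv := fn_fn i

/-- The permutations given by the generators. -/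
def gens : Fin 3 → Equiv.Perm B := Fin.cons perm0 permS

theorem gens_mul (j : Fin 3) : gens j * gens j = 1 := by
  refine Fin.cases ?_ ?_ j
  · ext1 p
    simp [gens, perm0]
  · intro i
    ext1 p
    simp only [gens, Fin.cons_succ, Equiv.Perm.mul_apply, Equiv.Perm.one_apply]
    exact fn_fn i p

/-- The action of `V3` on `B`. -/
def act : V3 →* Equiv.Perm B := PresentedGroup.toGroup (f := gens) (by
  rintro r ⟨a, rfl⟩
  rw [map_mul, FreeGroup.lift_apply_of]
  exact gens_mul a)

theorem act_s (j : Fin 3) : act (s j) = gens j := PresentedGroup.toGroup.of _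

theorem act_s_zero (p : B) : act (s 0) p = (!p.1, p.2) := by
  rw [act_s]; rfl

theorem act_s_succ (i : Fin 2) (p : B) : act (s i.succ) p = fn i p := by
  rw [act_s]; rfl

theorem act_ι (g h : F2) : act (ι g) (false, h) = (false, g * h) := by
  induction g using FreeGroup.induction_on generalizing h with
  | C1 => simp
  | of i =>
    change act (ι (FreeGroup.of i)) (false, h) = (false, FreeGroup.of i * h)
    rw [ι_of, map_mul, Equiv.Perm.mul_apply, act_s_succ, act_s_zero]
    rfl
  | inv_of i _ =>
    change act (ι (FreeGroup.of i)⁻¹) (false, h) = (false, (FreeGroup.of i)⁻¹ * h)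
    rw [map_inv, ι_of, mul_inv_rev, s_inv, s_inv, map_mul, Equiv.Perm.mul_apply, act_s_zero,
      act_s_succ]
    rfl
  | mul x y hx hy =>
    rw [map_mul, map_mul, Equiv.Perm.mul_apply, hy, hx, mul_assoc]

/-- The orbit map. -/
def T (k : V3) : B := act k (false, 1)

/-- The inverse of the orbit map. -/
def S (p : B) : V3 :=
  match p with
  | (false, g) => ι g
  | (true, g) => s 0 * ι g

theorem T_S (p : B) : T (S p) = p := by
  obtain ⟨b, g⟩ := p
  cases b
  · simp [T, S, act_ι]
  · simp [T, S, act_ι, act_s_zero]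

theorem S_act (j : Fin 3) (p : B) : S (act (s j) p) = s j * S p := by
  refine Fin.cases ?_ (fun i => ?_) j
  · rw [act_s_zero]
    obtain ⟨b, g⟩ := p
    cases b
    · rfl
    · simp only [Bool.not_true, S]
      rw [← mul_assoc, s_mul_s, one_mul]
  · rw [act_s_succ]
    obtain ⟨b, g⟩ := p
    cases b
    · simp only [fn, S]
      rw [map_mul, ι_of, ← mul_assoc, ← mul_assoc, s_mul_s, one_mul]
    · simp only [fn, S]
      rw [map_mul, map_inv, ι_of, mul_inv_rev, s_inv, s_inv, mul_assoc]

theorem S_T (k : V3) : S (T k) = k := by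
  have hone : S (T 1) = 1 := by simp [T, S]
  have hmul : ∀ (j : Fin 3) (x : V3), S (T x) = x → S (T (s j * x)) = s j * x := by
    intro j x hx
    have : T (s j * x) = act (s j) (T x) := by simp [T]
    rw [this, S_act, hx]
  have h := Len.induct (rels := v3Rels) (Q := fun x _ => S (T x) = x) hone
    (fun _ _ _ _ h => h) (fun a x _ h => hmul a x h)
    (fun a x _ h => by
      have h1 := hmul a x h
      have h2 : (PresentedGroup.of a : V3)⁻¹ = s a := s_inv a
      rw [h2]; exact h1) (x := k) (N := (PresentedGroup.mk_surjective v3Rels k).choose.norm)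
    ⟨_, (PresentedGroup.mk_surjective v3Rels k).choose_spec, le_rfl⟩
  exact h

theorem T_mul (j : Fin 3) (k : V3) : T (s j * k) = act (s j) (T k) := by simp [T]

theorem T_injective : Function.Injective T := fun a b h => by
  rw [← S_T a, h, S_T]

/-- the letters used in the first injection -/
def letter (b : Bool) : Fin 2 × Bool := if b then (1, true) else (0, true)

open Classical in
/-- The first injection. -/
noncomputable def I (p : B) : F2 :=
  if p.2 ∈ FreeGroup.startsWith ((letter p.1).1, !(letter p.1).2) then p.2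
  else FreeGroup.mk [letter p.1] * p.2

theorem I_spec (p : B) : (I p ∈ FreeGroup.startsWith ((letter p.1).1, false) ∧ I p = p.2) ∨
    (I p ∈ FreeGroup.startsWith ((letter p.1).1, true) ∧ I p = FreeGroup.mk [letter p.1] * p.2) := by
  have hl : (letter p.1).2 = true := by unfold letter; split <;> rfl
  unfold I
  split
  · next h =>
    left
    rw [hl] at h
    exact ⟨h, rfl⟩
  · next h =>
    right
    refine ⟨?_, rfl⟩
    have := FreeGroup.startsWith_mk_mul p.2 h
    have h2 : letter p.1 = ((letter p.1).1, true) := Prod.ext rfl hl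
    rw [← h2]
    exact this

theorem I_injective : Function.Injective I := by
  intro p p' h
  have hdisj : ∀ {w w' : Fin 2 × Bool} {g : F2}, g ∈ FreeGroup.startsWith w →
      g ∈ FreeGroup.startsWith w' → w = w' := by
    intro w w' g h1 h2
    by_contra hne
    exact Set.disjoint_left.1 (FreeGroup.startsWith.disjoint_iff_ne.2 hne) h1 h2
  have hb : ∀ b b', (letter b).1 = (letter b').1 → b = b' := by
    intro b b'
    cases b <;> cases b' <;> simp [letter]
  rcases I_spec p with ⟨h1, h2⟩ | ⟨h1, h2⟩ <;> rcases I_spec p' with ⟨h3, h4⟩ | ⟨h3, h4⟩ <;>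
    rw [← h] at h3
  · have := hdisj h1 h3
    have h5 := hb _ _ (Prod.ext_iff.1 this).1
    exact Prod.ext h5 (by rw [← h2, ← h4, h])
  · have := hdisj h1 h3
    simp at this
  · have := hdisj h1 h3
    simp at this
  · have := hdisj h1 h3
    have h5 := hb _ _ (Prod.ext_iff.1 this).1
    refine Prod.ext h5 ?_
    rw [h, h4, h5] at h2
    exact (mul_left_cancel h2).symm

theorem ι_injective : Function.Injective ι := by
  intro g h hgh
  have h1 := act_ι g 1
  have h2 := act_ι h 1
  rw [hgh, h2] at h1
  simpa using h1.symm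

/-- Length of the image of a generator. -/
theorem len_s (j : Fin 3) : Len v3Rels (s j) 1 := Len.of j

theorem len_ι_of (i : Fin 2) : Len v3Rels (ι (FreeGroup.of i)) 2 := by
  rw [ι_of]
  exact (len_s 0).mul (len_s i.succ)

/-- The relation satisfied by both injections. -/
def Rel (k : V3) (g : F2) : Prop :=
  (g * (T k).2⁻¹).norm ≤ 1 ∧ Len v3Rels (k * (ι g)⁻¹) 3

theorem rel_ι (g : F2) : Rel (ι g) g := by
  have : T (ι g) = (false, g) := by simp [T, act_ι]
  constructor
  · rw [this, mul_inv_cancel]; simp
  · rw [mul_inv_cancel]; exact Len.one 3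

theorem len_sub (p : B) : Len v3Rels (S p * (ι p.2)⁻¹) 1 := by
  obtain ⟨b, g⟩ := p
  cases b
  · simp only [S, mul_inv_cancel]; exact Len.one _
  · simp only [S, mul_inv_cancel_right]; exact len_s 0

theorem mk_letter (b : Bool) : FreeGroup.mk [letter b] = FreeGroup.of (letter b).1 := by
  cases b <;> rfl

theorem rel_I (k : V3) : Rel k (I (T k)) := by
  rcases I_spec (T k) with ⟨-, h⟩ | ⟨-, h⟩
  · rw [Rel, h]
    constructor
    · rw [mul_inv_cancel]; simp
    · have := len_sub (T k)
      rw [S_T] at this
      exact this.mono (by norm_num)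
  · rw [Rel, h]
    constructor
    · rw [mul_inv_cancel_right, mk_letter, FreeGroup.norm_of]
    · have h1 := len_sub (T k)
      rw [S_T] at h1
      rw [mk_letter, map_mul, mul_inv_rev, ← mul_assoc]
      exact h1.mul (len_ι_of _).inv

/-- There is a bilipschitz bijection. -/
theorem exists_phi : ∃ φ : V3 ≃ F2,
    (∀ (j : Fin 3) (k : V3), (φ (PresentedGroup.of j * k) * (φ k)⁻¹).norm ≤ 3) ∧
    (∀ (i : Fin 2) (g : F2), Len v3Rels (φ.symm (FreeGroup.of i * g) * (φ.symm g)⁻¹) 8) := by
  obtain ⟨h, hbij, hR⟩ := Function.Embedding.schroeder_bernstein_of_rel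
    (f := fun k => I (T k)) (g := ι) (I_injective.comp T_injective) ι_injective Rel rel_I rel_ι
  set φ := Equiv.ofBijective h hbij with hφ
  have hRφ : ∀ k, Rel k (φ k) := hR
  refine ⟨φ, ?_, ?_⟩
  · intro j k
    have h1 := (hRφ (s j * k)).1
    have h2 := (hRφ k).1
    have h3 : ((T (s j * k)).2 * (T k).2⁻¹).norm ≤ 1 := by
      rw [T_mul]
      refine Fin.cases ?_ (fun i => ?_) j
      · rw [act_s_zero]; simp
      · rw [act_s_succ]
        rcases T k with ⟨b, g⟩
        cases b
        · simp [fn]
        · simp only [fn, mul_inv_cancel_right]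
          rw [FreeGroup.norm_inv_eq, FreeGroup.norm_of]
    have h4 : φ (PresentedGroup.of j * k) * (φ k)⁻¹ =
        (φ (s j * k) * (T (s j * k)).2⁻¹) * ((T (s j * k)).2 * (T k).2⁻¹) *
          (φ k * (T k).2⁻¹)⁻¹ := by
      change φ (s j * k) * (φ k)⁻¹ = _
      group
    rw [h4]
    refine (FreeGroup.norm_mul_le _ _).trans ?_
    have h5 := FreeGroup.norm_mul_le (φ (s j * k) * (T (s j * k)).2⁻¹)
      ((T (s j * k)).2 * (T k).2⁻¹)
    rw [FreeGroup.norm_inv_eq]
    omega
  · intro i g
    have h1 := (hRφ (φ.symm (FreeGroup.of i * g))).2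
    have h2 := (hRφ (φ.symm g)).2
    rw [Equiv.apply_symm_apply] at h1 h2
    have h3 := (h1.mul (len_ι_of i)).mul h2.inv
    have h4 : φ.symm (FreeGroup.of i * g) * (ι (FreeGroup.of i * g))⁻¹ * ι (FreeGroup.of i) *
        (φ.symm g * (ι g)⁻¹)⁻¹ = φ.symm (FreeGroup.of i * g) * (φ.symm g)⁻¹ := by
      rw [map_mul ι]; group
    rw [h4] at h3
    exact h3

end QIPhi

end Pool.Agent.Lib.MP_c91b70_al
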