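import Pool.Agent.Lib.MP_c91b70_al.GPFacts
import Pool.Agent.Lib.MP_c91b70_al.Defs

/-!
# Graph products over the pentagon: commuting subgroups
-/

set_option autoImplicit false
set_option linter.unusedSectionVars false

namespace Pool.Agent.Lib.MP_c91b70_al

theorem c5_lk_inter {c d : Fin 5} (h : d ≠ c) (h' : ¬ C5.Adj c d) :
    ∃ w, GraphProd.lk C5 c ∩ GraphProd.lk C5 d = {w} ∧ C5.Adj c w := by
  have key : ∀ c d : Fin 5, d ≠ c → ¬ C5.Adj c d → ∃ w, C5.Adj c w ∧
      ∀ x, (C5.Adj c x ∧ C5.Adj d x) ↔ x = w := by decide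
  obtain ⟨w, hw, hw2⟩ := key c d h h'
  refine ⟨w, ?_, hw⟩
  ext x
  simpa [GraphProd.lk] using hw2 x

theorem c5_st (c : Fin 5) :
    GraphProd.st C5 c = ({c + 2}ᶜ : Set (Fin 5)) ∩ {c + 3}ᶜ := by
  have key : ∀ c x : Fin 5, (x = c ∨ C5.Adj c x) ↔ (x ≠ c + 2 ∧ x ≠ c + 3) := by decide
  ext x
  simpa [GraphProd.lk, GraphProd.st] using key c x

theorem c5_lk_indep (c : Fin 5) (v w : Fin 5) (hv : C5.Adj c v) (hw : C5.Adj c w) :
    ¬ C5.Adj v w := by
  have key : ∀ c v w : Fin 5, C5.Adj c v → C5.Adj c w → ¬ C5.Adj v w := by decide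
  exact key c v w hv hw

namespace GraphProd

/-- An element of a conjugate `g K g⁻¹`, written as `g⁻¹ x g ∈ K`. -/
abbrev cj {P : Type} [Group P] (g x : P) : P := g⁻¹ * x * g

section General

variable {V : Type} {Δ : SimpleGraph V} {G : V → Type} [∀ v, Group (G v)]
  {P : Type} [Group P] (D : GraphProd Δ G P) (hCT : ∀ v, CT (G v))

theorem cj_mul (g x y : P) : cj g (x * y) = cj g x * cj g y := by
  simp only [cj]; group

theorem cj_inv (g x : P) : cj g x⁻¹ = (cj g x)⁻¹ := by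
  simp only [cj]; group

theorem cj_cj (g h x : P) : cj h (cj g x) = cj (g * h) x := by
  simp only [cj]; group

theorem of_commute_iff {v : V} {x y : G v} : Commute (D.of v x) (D.of v y) ↔ Commute x y := by
  constructor
  · intro h
    exact D.of_injective v (by rw [map_mul, map_mul]; exact h.eq)
  · intro h
    exact h.map _

/-- Commuting in a star. -/
theorem st_commute {v : V} {x x' : G v} {c c' : P} (hc : c ∈ D.par (lk Δ v))
    (hc' : c' ∈ D.par (lk Δ v)) :
    Commute (D.of v x * c) (D.of v x' * c') ↔ Commute x x' ∧ Commute c c' := by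
  have e1 := (D.commute_of_lk hc x').eq
  have e2 := (D.commute_of_lk hc' x).eq
  constructor
  · intro h
    have h1 : Commute x x' := by
      have := h.map (D.proj v)
      simpa [D.proj_self, D.proj_par (not_mem_lk v) hc, D.proj_par (not_mem_lk v) hc'] using this
    refine ⟨h1, ?_⟩
    have h2 := h.map (D.ret (lk Δ v))
    simpa [D.ret_of_not_mem (not_mem_lk v), D.ret_eq hc, D.ret_eq hc'] using h2
  · rintro ⟨h1, h2⟩
    have c1 : Commute (D.of v x) (D.of v x') := h1.map _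
    have c2 : Commute (D.of v x) c' := D.commute_of_lk hc' x
    have c3 : Commute c (D.of v x') := (D.commute_of_lk hc x').symm
    exact (c1.mul_right c2).mul_left (c3.mul_right h2)

include hCT

/-- The centraliser of two non-commuting elements of a vertex group. -/
theorem cent_nonab {v : V} {g a b k : P} (ha : cj g a ∈ D.par {v}) (hb : cj g b ∈ D.par {v})
    (hab : ¬ Commute a b) (hka : Commute k a) (hkb : Commute k b) :
    cj g k ∈ D.par (lk Δ v) := by
  rw [par_singleton] at ha hb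
  obtain ⟨α, hα⟩ := ha
  obtain ⟨β, hβ⟩ := hb
  have hαβ : ¬ Commute α β := by
    intro h
    apply hab
    have h1 : Commute (cj g a) (cj g b) := by rw [← hα, ← hβ]; exact h.map _
    exact conj_commute_iff.1 h1
  have hα1 : α ≠ 1 := by
    rintro rfl
    exact hαβ (Commute.one_left _)
  have hk : cj g k ∈ D.par (st Δ v) := by
    apply D.centralizer_of v hα1
    have : g * D.of v α * g⁻¹ = a := by rw [hα]; simp only [cj]; group
    rw [this]; exact hka
  obtain ⟨x, c, hc, e⟩ := D.mem_par_st hk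
  have h1 : Commute (cj g k) (cj g a) := conj_commute hka
  have h2 : Commute (cj g k) (cj g b) := conj_commute hkb
  rw [e, ← hα] at h1
  rw [e, ← hβ] at h2
  have h3 : Commute (D.of v x * c) (D.of v α * 1) := by rw [mul_one]; exact h1
  have h4 : Commute (D.of v x * c) (D.of v β * 1) := by rw [mul_one]; exact h2
  rw [D.st_commute hc (one_mem _)] at h3 h4
  have hx : x = 1 := hCT v α β x hαβ h3.1.symm h4.1.symm
  rw [e, hx, map_one, one_mul]
  exact hc

end General

section Pentagon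

variable {G : Fin 5 → Type} [∀ v, Group (G v)]
  {W : Type} [Group W] (D : GraphProd C5 G W) (hCT : ∀ v, CT (G v))

include hCT

theorem lk_CT (v : Fin 5) {a b g : W} (ha : a ∈ D.par (lk C5 v)) (hb : b ∈ D.par (lk C5 v))
    (hg : g ∈ D.par (lk C5 v)) (hab : ¬ Commute a b) (hag : Commute a g) (hbg : Commute b g) :
    g = 1 := by
  have e : ((Finset.univ.filter (fun w => C5.Adj v w) : Finset (Fin 5)) : Set (Fin 5)) = lk C5 v := by
    ext w; simp [lk]
  apply D.indep_CT hCT (Finset.univ.filter (fun w => C5.Adj v w)) _ a b g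
  · rw [e]; exact ha
  · rw [e]; exact hb
  · rw [e]; exact hg
  · exact hab
  · exact hag
  · exact hbg
  · intro x hx y hy
    exact c5_lk_indep v x y (by simpa using hx) (by simpa using hy)

/-- The centraliser of two non-commuting elements of the link group, inside the star group. -/
theorem cent_lk {v : Fin 5} {g a b k : W} (ha : cj g a ∈ D.par (lk C5 v))
    (hb : cj g b ∈ D.par (lk C5 v)) (hk : cj g k ∈ D.par (st C5 v))
    (hab : ¬ Commute a b) (hka : Commute k a) (hkb : Commute k b) :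
    cj g k ∈ D.par {v} := by
  obtain ⟨x, c, hc, e⟩ := D.mem_par_st hk
  have h1 : Commute (cj g k) (cj g a) := conj_commute hka
  have h2 : Commute (cj g k) (cj g b) := conj_commute hkb
  have h3 : ¬ Commute (cj g a) (cj g b) := fun h => hab (conj_commute_iff.1 h)
  rw [e] at h1 h2
  have h4 : Commute (D.of v x * c) (D.of v 1 * cj g a) := by rw [map_one, one_mul]; exact h1
  have h5 : Commute (D.of v x * c) (D.of v 1 * cj g b) := by rw [map_one, one_mul]; exact h2
  rw [D.st_commute hc ha] at h4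
  rw [D.st_commute hc hb] at h5
  have hc1 : c = 1 := D.lk_CT hCT v ha hb hc h3 h4.2.symm h5.2.symm
  rw [e, hc1, mul_one, par_singleton]
  exact ⟨x, rfl⟩

/-- Non-commutativity of a subgroup. -/
def NonAb {X : Type} [Group X] (K : Subgroup X) : Prop := ∃ a ∈ K, ∃ b ∈ K, ¬ Commute a b

/-- The derived subgroup is non-abelian. -/
def Big {X : Type} [Group X] (K : Subgroup X) : Prop :=
  ∃ a ∈ K, ∃ b ∈ K, ∃ c ∈ K, ∃ e ∈ K, ¬ Commute (a * b * a⁻¹ * b⁻¹) (c * e * c⁻¹ * e⁻¹)

omit hCT in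
theorem Big.nonAb {X : Type} [Group X] {K : Subgroup X} (h : Big K) : NonAb K := by
  obtain ⟨a, ha, b, hb, c, hc, e, he, h⟩ := h
  exact ⟨_, mul_mem (mul_mem (mul_mem ha hb) (inv_mem ha)) (inv_mem hb),
    _, mul_mem (mul_mem (mul_mem hc he) (inv_mem hc)) (inv_mem he), h⟩

/-- The product lemma. -/
theorem product_lemma {v : Fin 5} {g : W} {K K' : Subgroup W} (hK : NonAb K) (hK' : NonAb K')
    (hcomm : ∀ k ∈ K, ∀ k' ∈ K', Commute k k')
    (h : ∀ k ∈ K, cj g k ∈ D.par (st C5 v)) (h' : ∀ k ∈ K', cj g k ∈ D.par (st C5 v)) :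
    ((∀ k ∈ K, cj g k ∈ D.par {v}) ∧ ∀ k ∈ K', cj g k ∈ D.par (lk C5 v)) ∨
    ((∀ k ∈ K', cj g k ∈ D.par {v}) ∧ ∀ k ∈ K, cj g k ∈ D.par (lk C5 v)) := by
  obtain ⟨a, ha, b, hb, hab⟩ := hK
  obtain ⟨a', ha', b', hb', hab'⟩ := hK'
  obtain ⟨α, c, hc, e⟩ := D.mem_par_st (h a ha)
  obtain ⟨β, d, hd, f⟩ := D.mem_par_st (h b hb)
  obtain ⟨α', c', hc', e'⟩ := D.mem_par_st (h' a' ha')
  obtain ⟨β', d', hd', f'⟩ := D.mem_par_st (h' b' hb')
  have hab1 : ¬ (Commute α β ∧ Commute c d) := by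
    rw [← D.st_commute hc hd, ← e, ← f]
    exact fun h => hab (conj_commute_iff.1 h)
  have hab2 : ¬ (Commute α' β' ∧ Commute c' d') := by
    rw [← D.st_commute hc' hd', ← e', ← f']
    exact fun h => hab' (conj_commute_iff.1 h)
  by_cases hαβ : Commute α β
  · right
    have hcd : ¬ Commute c d := fun h => hab1 ⟨hαβ, h⟩
    have hK'v : ∀ k ∈ K', cj g k ∈ D.par {v} := by
      intro k hk
      obtain ⟨x, y, hy, ek⟩ := D.mem_par_st (h' k hk)
      have h1 : Commute (cj g a) (cj g k) := conj_commute (hcomm a ha k hk)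
      have h2 : Commute (cj g b) (cj g k) := conj_commute (hcomm b hb k hk)
      rw [e, ek, D.st_commute hc hy] at h1
      rw [f, ek, D.st_commute hd hy] at h2
      have : y = 1 := D.lk_CT hCT v hc hd hy hcd h1.2 h2.2
      rw [ek, this, mul_one, par_singleton]
      exact ⟨x, rfl⟩
    refine ⟨hK'v, fun k hk => ?_⟩
    exact D.cent_nonab hCT (hK'v a' ha') (hK'v b' hb') hab' (hcomm k hk a' ha') (hcomm k hk b' hb')
  · left
    have hK'l : ∀ k ∈ K', cj g k ∈ D.par (lk C5 v) := by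
      intro k hk
      obtain ⟨x, y, hy, ek⟩ := D.mem_par_st (h' k hk)
      have h1 : Commute (cj g a) (cj g k) := conj_commute (hcomm a ha k hk)
      have h2 : Commute (cj g b) (cj g k) := conj_commute (hcomm b hb k hk)
      rw [e, ek, D.st_commute hc hy] at h1
      rw [f, ek, D.st_commute hd hy] at h2
      have : x = 1 := hCT v α β x hαβ h1.1 h2.1
      rw [ek, this, map_one, one_mul]
      exact hy
    refine ⟨fun k hk => ?_, hK'l⟩
    exact D.cent_lk hCT (hK'l a' ha') (hK'l b' hb') (h k hk) hab' (hcomm k hk a' ha')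
      (hcomm k hk b' hb')

/-- The conclusion of the dichotomy. -/
def Split (K K' : Subgroup W) : Prop :=
  ∃ (g : W) (v : Fin 5), (∀ k ∈ K, cj g k ∈ D.par {v}) ∧ ∀ k ∈ K', cj g k ∈ D.par (lk C5 v)

/-- The hyperbolic case. -/
theorem hyp_case {K K' : Subgroup W} (hK : NonAb K) (hK' : Big K')
    (hcomm : ∀ k ∈ K, ∀ k' ∈ K', Commute k k') (c : Fin 5) {x : W} (hx : x ∈ K)
    (hhyp : ∀ y : D.Tr c, x • y ≠ y) : D.Split K' K := by
  obtain ⟨p, z, hpz, hfix⟩ := (D.tm c).hyper_comm (D.td_smul c) (D.td_even c) hhyp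
  obtain ⟨g, hg⟩ := D.edge_stab c hpz
  -- all commutators of `K'` lie in the link group
  have hF : ∀ a ∈ K', ∀ b ∈ K', cj g (a * b * a⁻¹ * b⁻¹) ∈ D.par (lk C5 c) := by
    intro a ha b hb
    obtain ⟨h1, h2⟩ := hfix a b (hcomm x hx a ha).symm (hcomm x hx b hb).symm
    exact hg _ h1 h2
  by_cases hst : ∀ k ∈ K, cj g k ∈ D.par (st C5 c)
  · exfalso
    apply hhyp (vert (D.fac c) true g)
    rw [smul_vert_eq]
    exact hst x hx
  · push Not at hst
    obtain ⟨k, hk, hkst⟩ := hst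
    have hd : ∃ d : Fin 5, d ≠ c ∧ ¬ C5.Adj c d ∧ cj g k ∉ D.par {d}ᶜ := by
      rw [c5_st c, ← D.par_inf, Subgroup.mem_inf, not_and_or] at hkst
      have key : ∀ c : Fin 5, (c + 2 ≠ c ∧ ¬ C5.Adj c (c + 2)) ∧ (c + 3 ≠ c ∧ ¬ C5.Adj c (c + 3)) := by
        decide
      rcases hkst with h | h
      · exact ⟨c + 2, (key c).1.1, (key c).1.2, h⟩
      · exact ⟨c + 3, (key c).2.1, (key c).2.2, h⟩
    obtain ⟨d, hdc, hadj, hkd⟩ := hd
    obtain ⟨w, hw, hcw⟩ := c5_lk_inter hdc hadj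
    -- the commutators fix the vertex `g M_d`
    have hy : ∀ a ∈ K', ∀ b ∈ K', (a * b * a⁻¹ * b⁻¹) • vert (D.fac d) false g =
        vert (D.fac d) false g := by
      intro a ha b hb
      rw [smul_vert_eq]
      apply D.par_mono _ (hF a ha b hb)
      rintro u hu (hud : u = d)
      subst hud
      exact hadj hu
    have hne : vert (D.fac d) false g ≠ k • vert (D.fac d) false g := by
      intro h
      apply hkd
      have := h.symm
      rw [smul_vert_eq] at this
      exact this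
    obtain ⟨a0, ha0⟩ := D.fix_two d hne
    set h := g * D.ret (lk C5 c) (g⁻¹ * a0) with hh
    have hFw : ∀ a ∈ K', ∀ b ∈ K', cj h (a * b * a⁻¹ * b⁻¹) ∈ D.par {w} := by
      intro a ha b hb
      have hcm : a * b * a⁻¹ * b⁻¹ ∈ K' := mul_mem (mul_mem (mul_mem ha hb) (inv_mem ha)) (inv_mem hb)
      have h1 := ha0 (a * b * a⁻¹ * b⁻¹) (hy a ha b hb) (by
        rw [← mul_smul, ← (hcomm k hk _ hcm).eq, mul_smul, hy a ha b hb])
      have h2 : (g⁻¹ * a0)⁻¹ * cj g (a * b * a⁻¹ * b⁻¹) * (g⁻¹ * a0) ∈ D.par (lk C5 d) := by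
        have : (g⁻¹ * a0)⁻¹ * cj g (a * b * a⁻¹ * b⁻¹) * (g⁻¹ * a0)
            = a0⁻¹ * (a * b * a⁻¹ * b⁻¹) * a0 := by simp only [cj]; group
        rw [this]; exact h1
      have h3 := D.conj_mem (hF a ha b hb) h2
      rw [hw] at h3
      have h4 : cj h (a * b * a⁻¹ * b⁻¹) = (D.ret (lk C5 c) (g⁻¹ * a0))⁻¹ *
          cj g (a * b * a⁻¹ * b⁻¹) * D.ret (lk C5 c) (g⁻¹ * a0) := by
        rw [hh]; simp only [cj]; group
      rw [h4]; exact h3
    clear_value h
    obtain ⟨a, ha, b, hb, a', ha', b', hb', hnc⟩ := hK'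
    have hcm : a * b * a⁻¹ * b⁻¹ ∈ K' := mul_mem (mul_mem (mul_mem ha hb) (inv_mem ha)) (inv_mem hb)
    have hcm' : a' * b' * a'⁻¹ * b'⁻¹ ∈ K' :=
      mul_mem (mul_mem (mul_mem ha' hb') (inv_mem ha')) (inv_mem hb')
    have hKl : ∀ k ∈ K, cj h k ∈ D.par (lk C5 w) := by
      intro k hk
      exact D.cent_nonab hCT (hFw a ha b hb) (hFw a' ha' b' hb') hnc (hcomm k hk _ hcm)
        (hcomm k hk _ hcm')
    refine ⟨h, w, ?_, hKl⟩
    intro k' hk'
    -- `k'` normalises
    have hmem := hFw a ha b hb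
    have hmem2 := hFw (k' * a * k'⁻¹) (mul_mem (mul_mem hk' ha) (inv_mem hk'))
      (k' * b * k'⁻¹) (mul_mem (mul_mem hk' hb) (inv_mem hk'))
    rw [par_singleton] at hmem hmem2
    obtain ⟨ξ, hξ⟩ := hmem
    obtain ⟨η, hη⟩ := hmem2
    have hξ1 : ξ ≠ 1 := by
      rintro rfl
      apply hnc
      rw [map_one] at hξ
      have : a * b * a⁻¹ * b⁻¹ = 1 := conj_eq_one (r := h) hξ.symm
      rw [this]
      exact Commute.one_left _
    have e1 : (k' * h) * D.of w ξ * (k' * h)⁻¹ = h * D.of w η * h⁻¹ := by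
      rw [hξ, hη]
      simp only [cj]
      group
    have h5 := (D.conj_of_inter hξ1 e1).2
    have h6 : cj h k' ∈ D.par (st C5 w) := by
      have : cj h k' = ((k' * h)⁻¹ * h)⁻¹ := by simp only [cj]; group
      rw [this]
      exact inv_mem h5
    obtain ⟨k1, hk1, k2, hk2, hk12⟩ := hK
    exact D.cent_lk hCT (hKl k1 hk1) (hKl k2 hk2) h6 hk12 (hcomm k1 hk1 k' hk').symm
      (hcomm k2 hk2 k' hk').symm

/-- Commuting big finitely generated subgroups. -/
theorem dichotomy_aux (S : Finset (Fin 5)) : ∀ (K K' : Subgroup W), K.FG → K'.FG →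
    (∀ k ∈ K, ∀ k' ∈ K', Commute k k') → Big K → Big K' →
    (∃ r : W, (∀ k ∈ K, cj r k ∈ D.par (S : Set (Fin 5))) ∧
      ∀ k ∈ K', cj r k ∈ D.par (S : Set (Fin 5))) → D.Split K K' ∨ D.Split K' K := by
  induction S using Finset.strongInduction with
  | _ S ih =>
  intro K K' hfg hfg' hcomm hK hK' ⟨r, hr, hr'⟩
  rcases S.eq_empty_or_nonempty with rfl | ⟨c, hc⟩
  · exfalso
    obtain ⟨a, ha, b, hb, hab⟩ := hK.nonAb
    have h1 := hr a ha
    rw [Finset.coe_empty, D.par_empty, Subgroup.mem_bot] at h1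
    apply hab
    rw [conj_eq_one (r := r) h1]
    exact Commute.one_left _
  by_cases hall : ∀ k ∈ K, ∃ y : D.Tr c, k • y = y
  · by_cases hall' : ∀ k ∈ K', ∃ y : D.Tr c, k • y = y
    · obtain ⟨y, hy, hy'⟩ := (D.tm c).common_fixed (D.td_smul c) (D.td_even c) K K' hcomm
        ((D.tm c).serre (D.td_smul c) (D.td_even c) K hfg hall)
        ((D.tm c).serre (D.td_smul c) (D.td_even c) K' hfg' hall')
      obtain ⟨β, a, rfl⟩ := exists_rep _ y
      cases β
      · apply ih _ (Finset.erase_ssubset hc) K K' hfg hfg' hcomm hK hK'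
        refine ⟨r * D.ret (S : Set (Fin 5)) (r⁻¹ * a), ?_, ?_⟩
        · intro k hk
          have h1 := hy k hk
          rw [smul_vert_eq] at h1
          have h2 := (D.conj_cases S c false (r⁻¹ * a) (cj r k) (hr k hk) (by
            have : (r⁻¹ * a)⁻¹ * cj r k * (r⁻¹ * a) = a⁻¹ * k * a := by simp only [cj]; group
            rw [this]; exact h1)).1 rfl
          rw [← cj_cj]
          exact h2
        · intro k hk
          have h1 := hy' k hk
          rw [smul_vert_eq] at h1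
          have h2 := (D.conj_cases S c false (r⁻¹ * a) (cj r k) (hr' k hk) (by
            have : (r⁻¹ * a)⁻¹ * cj r k * (r⁻¹ * a) = a⁻¹ * k * a := by simp only [cj]; group
            rw [this]; exact h1)).1 rfl
          rw [← cj_cj]
          exact h2
      · rcases D.product_lemma hCT hK.nonAb hK'.nonAb hcomm
          (fun k hk => (smul_vert_eq _).1 (hy k hk)) (fun k hk => (smul_vert_eq _).1 (hy' k hk))
          with h | h
        · exact Or.inl ⟨a, c, h⟩
        · exact Or.inr ⟨a, c, h⟩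
    · push Not at hall'
      obtain ⟨x, hx, hhyp⟩ := hall'
      exact Or.inl (D.hyp_case hCT hK'.nonAb hK (fun k hk k' hk' => (hcomm k' hk' k hk).symm) c hx hhyp)
  · push Not at hall
    obtain ⟨x, hx, hhyp⟩ := hall
    exact Or.inr (D.hyp_case hCT hK.nonAb hK' hcomm c hx hhyp)

theorem dichotomy (K K' : Subgroup W) (hfg : K.FG) (hfg' : K'.FG)
    (hcomm : ∀ k ∈ K, ∀ k' ∈ K', Commute k k') (hK : Big K) (hK' : Big K') :
    D.Split K K' ∨ D.Split K' K := by
  apply D.dichotomy_aux hCT Finset.univ K K' hfg hfg' hcomm hK hK'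
  refine ⟨1, ?_, ?_⟩ <;>
  · intro k _
    rw [Finset.coe_univ, D.par_univ]
    trivial

end Pentagon

end GraphProd

end Pool.Agent.Lib.MP_c91b70_al
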